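import Pool.Agent.E8helper53.HGM.LieD
import Pool.Agent.H461R3.Jacobi

/-!
# Arithmetic of the hypergeometric system with arbitrary rational exponents
-/

set_option autoImplicit false

open PowerSeries

namespace Pool.Agent.E8helper53.HGM

open Pool.Agent.Y119.HY Pool.Agent.Y113

variable {n : ℕ}

/-- the polynomial with the roots `-β_j` -/
noncomputable def QP {n : ℕ} (β : Fin n → ℚ) : Polynomial ℚ := ∏ j, (Polynomial.X + Polynomial.C (β j))

lemma QP_monic (β : Fin n → ℚ) : (QP β).Monic := Polynomial.monic_prod_of_monic _ _ fun j _ => Polynomial.monic_X_add_C _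

lemma QP_deg (β : Fin n → ℚ) : (QP β).natDegree = n := by
  unfold QP
  rw [Polynomial.natDegree_prod_of_monic _ _ fun j _ => Polynomial.monic_X_add_C _]
  simp

lemma QP_QG (hn : 2 ≤ n) {β : Fin n → ℚ} (hβ : ∀ j, ∀ m : ℤ, β j ≠ m) : QG n (QP β) := by
  refine ⟨hn, QP_monic β, QP_deg β, fun l => ?_⟩
  unfold QP
  rw [Polynomial.eval_prod]
  refine Finset.prod_ne_zero_iff.2 fun j _ => ?_
  rw [Polynomial.eval_add, Polynomial.eval_X, Polynomial.eval_C]
  intro h
  apply hβ j (-l)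
  push_cast
  linarith

lemma QP_coeff (hn : 1 ≤ n) (β : Fin n → ℚ) : (QP β).coeff (n - 1) = ∑ j, β j := by
  have h1 : (QP β).nextCoeff = ∑ j, β j := by
    unfold QP
    rw [Polynomial.Monic.nextCoeff_prod _ _ fun j _ => Polynomial.monic_X_add_C _]
    simp
  rw [← h1, Polynomial.nextCoeff_of_natDegree_pos (by rw [QP_deg]; omega), QP_deg]

lemma aq_QP (β : Fin n → ℚ) (k : ℕ) : aq n (QP β) k = ∏ j, uq (β j) k := by
  unfold aq uq QP
  rw [Finset.prod_comm]
  refine Finset.prod_congr rfl fun l _ => ?_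
  rw [map_prod]
  have h1 : ∀ i : Fin n, Polynomial.aeval (kx l) (Polynomial.X + Polynomial.C (β i)) = C ((l : ℚ) + β i) + X := by
    intro i
    rw [map_add, Polynomial.aeval_X, Polynomial.aeval_C, map_add]
    unfold kx
    have h2 : algebraMap ℚ ℚ⟦X⟧ (β i) = C (β i) := rfl
    rw [h2]
    ring
  simp only [h1]
  have h3 : ((kx (l + 1))⁻¹) ^ n = ∏ _i : Fin n, (kx (l + 1))⁻¹ := by
    rw [Finset.prod_const, Finset.card_univ, Fintype.card_fin]
  rw [h3, ← Finset.prod_mul_distrib]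

/-- the denominators -/
lemma hq_den' {β : Fin n → ℚ} (hβ : ∀ i, ∀ l : ℕ, (l : ℚ) + β i ≠ 0) :
    ∃ A : ℝ, ∀ K, ∃ d : ℕ, 0 < d ∧ (d : ℝ) ≤ A ^ (K + 1) ∧ ∀ k ≤ K, ∀ i j : ℕ, j < n →
      ∃ a : ℤ, (d : ℚ) * hq n (QP β) k i j = a := by
  set Bd : ℕ := 1 + ∑ i, ((β i).den + (β i).num.natAbs) with hBd
  have hBi : ∀ i, (β i).den + (β i).num.natAbs + 1 ≤ Bd := by
    intro i
    have := Finset.single_le_sum (f := fun i => (β i).den + (β i).num.natAbs) (fun _ _ => Nat.zero_le _) (Finset.mem_univ i)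
    omega
  set M : ℕ := ∏ i, ((β i).den ^ 2) with hM
  have hM1 : 1 ≤ M := by
    rw [hM]
    refine Nat.succ_le_of_lt (Finset.prod_pos fun i _ => ?_)
    have := (β i).den_pos
    positivity
  refine ⟨(M : ℝ) * ((2 ^ 8) ^ Bd) ^ n, fun K => ?_⟩
  set L : ℕ := Nat.lcmUpto (K * Bd + Bd) with hL
  have hL0 : 0 < L := Nat.lcmUpto_pos _
  have hLd : ∀ γ : ℚ, γ.den + γ.num.natAbs + 1 ≤ Bd → ∀ i : ℕ, 1 ≤ i → i ≤ K * γ.den + γ.num.natAbs + K → i ∣ L := by
    intro γ hγ i h1 h2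
    refine Pool.Agent.Y113.dvd_lcmUpto h1 (h2.trans ?_)
    have h3 : K * (γ.den + 1) ≤ K * Bd := Nat.mul_le_mul_left _ (by omega)
    rw [mul_add, mul_one] at h3
    omega
  refine ⟨M ^ K * L ^ n, by positivity, ?_, fun k hk i j hj => ?_⟩
  · push_cast
    have h1 : (L : ℝ) ≤ (2 ^ 8) ^ (K * Bd + Bd) := Pool.Agent.Y113.lcm_bound _
    have hM1' : (1 : ℝ) ≤ M := by exact_mod_cast hM1
    calc (M : ℝ) ^ K * (L : ℝ) ^ n ≤ (M : ℝ) ^ (K + 1) * ((2 ^ 8) ^ (K * Bd + Bd)) ^ n :=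
          mul_le_mul (pow_le_pow_right₀ hM1' (Nat.le_succ K)) (pow_le_pow_left₀ (by positivity) h1 _) (by positivity)
            (by positivity)
      _ = _ := by
          rw [mul_pow]
          congr 1
          generalize ((2 : ℝ) ^ 8) = B
          rw [← pow_mul, ← pow_mul, ← pow_mul]
          congr 1
          ring
  · have hm1 : ∀ i, ∃ w ∈ SL L, uq (β i) k = C (∏ l ∈ Finset.range k, (((l : ℚ) + β i) / ((l : ℚ) + 1))) * w := fun i =>
      uq_eq (fun l => hβ i l) hk (hLd _ (hBi i))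
    choose w1 hw1 hw1' using hm1
    set c : ℚ := ∏ i, (∏ l ∈ Finset.range k, (((l : ℚ) + β i) / ((l : ℚ) + 1))) with hc
    have haq : aq n (QP β) k = C c * ∏ i, w1 i := by
      rw [aq_QP, hc, map_prod, ← Finset.prod_mul_distrib]
      refine Finset.prod_congr rfl fun i _ => ?_
      rw [hw1' i]
    have hcM : ∃ a : ℤ, ((M : ℚ) ^ k) * c = a := by
      choose a ha using fun i => poch_int (β i) k
      refine ⟨∏ i, a i, ?_⟩
      rw [hc, hM]
      push_cast
      rw [← Finset.prod_pow, ← Finset.prod_mul_distrib]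
      exact Finset.prod_congr rfl fun i _ => ha i
    obtain ⟨a, ha⟩ := hcM
    have hmem : kx k ^ i * ∏ i, w1 i ∈ SL L := by
      refine (SL L).mul_mem ((SL L).pow_mem ((SL L).add_mem ?_ (SL_X L)) _) ((SL L).prod_mem fun i _ => hw1 i)
      have := SL_C L (k : ℤ)
      exact_mod_cast this
    obtain ⟨b, hb⟩ := SL_coeff hmem j
    refine ⟨(M : ℤ) ^ (K - k) * a * ((L : ℤ) ^ (n - j) * b), ?_⟩
    unfold hq
    rw [haq, show kx k ^ i * (C c * ∏ i, w1 i) = C c * (kx k ^ i * ∏ i, w1 i) by ring,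
      PowerSeries.coeff_C_mul]
    push_cast
    rw [← ha, ← hb]
    have e1 : (M : ℚ) ^ K = (M : ℚ) ^ (K - k) * (M : ℚ) ^ k := by rw [← pow_add]; congr 1; omega
    have e2 : (L : ℚ) ^ n = (L : ℚ) ^ (n - j) * (L : ℚ) ^ j := by rw [← pow_add]; congr 1; omega
    rw [e1, e2]
    ring

theorem sdc_hps' (hn : 2 ≤ n) {β : Fin n → ℚ} (hβ : ∀ j, ∀ m : ℤ, β j ≠ m) (i j : Fin n) : SDc (hps n (QP β) i j) := by
  have hQ := QP_QG hn hβ
  refine sdc_of ?_ ?_
  · obtain ⟨A, hA⟩ := ((sol_c' hQ).growth Ac_nil i j).exp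
    refine ⟨A, fun k => ?_⟩
    have h1 := hA k
    unfold Hc at h1
    rw [cm_apply] at h1
    unfold hps
    rw [PowerSeries.coeff_mk]
    refine le_trans (le_of_eq ?_) h1
    have e1 : ((Hq n (QP β) k i j : ℚ) : ℂ) = (((Hq n (QP β) k i j : ℚ) : ℝ) : ℂ) := by push_cast; rfl
    rw [e1, Complex.norm_real, Real.norm_eq_abs]
    rfl
  · obtain ⟨A, hA⟩ := hq_den' (β := β) (fun i l h => by
      apply hβ i (-l)
      push_cast
      linarith)
    refine ⟨A, fun K => ?_⟩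
    obtain ⟨d, hd0, hd, hd'⟩ := hA K
    refine ⟨d, hd0, hd, fun k hk => ?_⟩
    unfold hps
    rw [PowerSeries.coeff_mk]
    exact hd' k hk i j j.2

/-! ### the differential equation -/

variable {Q : Polynomial ℚ}

/-- the matrix of power series -/
noncomputable def Hm (n : ℕ) (Q : Polynomial ℚ) : Matrix (Fin n) (Fin n) ℚ⟦X⟧ := Matrix.of fun i j => hps n Q i j

lemma coeff_Hm (k : ℕ) (i j : Fin n) : coeff k (Hm n Q i j) = Hq n Q k i j := by
  unfold Hm hps Hq
  rw [Matrix.of_apply, coeff_mk, Matrix.of_apply]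

/-- the logarithmic derivative -/
noncomputable def Dm (n : ℕ) (Q : Polynomial ℚ) (i j : Fin n) : ℚ⟦X⟧ :=
  X * d⁄dX ℚ (Hm n Q i j) + ∑ k, Hm n Q i k * C (Am n k j) - ∑ k, C (Am n i k) * Hm n Q k j

lemma coeff_Dm (k : ℕ) (i j : Fin n) : coeff k (Dm n Q i j) =
    (k : ℚ) * Hq n Q k i j + ((Hq n Q k * Am n) i j - (Am n * Hq n Q k) i j) := by
  unfold Dm
  rw [map_sub, map_add, map_sum, map_sum, Matrix.mul_apply, Matrix.mul_apply]
  have h1 : coeff k (X * d⁄dX ℚ (Hm n Q i j)) = (k : ℚ) * Hq n Q k i j := by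
    rcases k with _ | k
    · simp
    · rw [coeff_succ_X_mul, coeff_derivative, coeff_Hm]
      push_cast
      ring
  rw [h1]
  simp only [coeff_mul_C, coeff_C_mul, coeff_Hm]
  ring

theorem ode_H (hQ : QG n Q) (i j : Fin n) : (1 - X) * Dm n Q i j = X * ∑ k, C (Bm n Q i k) * Hm n Q k j := by
  ext k
  rcases k with _ | k
  · rw [sub_mul, one_mul, map_sub, coeff_zero_X_mul, coeff_zero_X_mul, coeff_Dm, Hq_zero]
    simp
  · rw [sub_mul, one_mul, map_sub, coeff_succ_X_mul, coeff_succ_X_mul, coeff_Dm, coeff_Dm, map_sum]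
    have h1 := step_q' hQ k i j
    simp only [coeff_C_mul, coeff_Hm]
    rw [Matrix.mul_apply (M := Bm n Q)] at h1
    push_cast
    linear_combination h1

/-- the determinant -/
theorem det_ode (hQ : QG n Q) : (1 - X) * d⁄dX ℚ (Hm n Q).det = C (Q.coeff (n - 1)) * (Hm n Q).det := by
  have hn := hQ.two
  have hX : (X : ℚ⟦X⟧) ≠ 0 := X_ne_zero
  refine mul_left_cancel₀ hX ?_
  rw [H461R3.deriv_det]
  -- the matrix equation
  set H := Hm n Q with hH
  set DH : Matrix (Fin n) (Fin n) ℚ⟦X⟧ := H.map (d⁄dX ℚ) with hDH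
  set A : Matrix (Fin n) (Fin n) ℚ⟦X⟧ := (Am n).map C with hA
  set B : Matrix (Fin n) (Fin n) ℚ⟦X⟧ := (Bm n Q).map C with hB
  have h1 : ((X : ℚ⟦X⟧) * (1 - X)) • DH = (1 - X : ℚ⟦X⟧) • (A * H) - (1 - X : ℚ⟦X⟧) • (H * A) + (X : ℚ⟦X⟧) • (B * H) := by
    ext1 i j
    have h2 := ode_H hQ i j
    unfold Dm at h2
    simp only [Matrix.add_apply, Matrix.sub_apply, Matrix.smul_apply, smul_eq_mul, Matrix.mul_apply, hA, hB, hDH,
      Matrix.map_apply]
    rw [← hH] at h2
    linear_combination h2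
  have h2 : (X : ℚ⟦X⟧) * ((1 - X) * (H.adjugate * DH).trace) = (H.adjugate * (((X : ℚ⟦X⟧) * (1 - X)) • DH)).trace := by
    rw [Matrix.mul_smul, Matrix.trace_smul, smul_eq_mul]
    ring
  have e1 : ∀ N : Matrix (Fin n) (Fin n) ℚ⟦X⟧, (H.adjugate * (N * H)).trace = H.det * N.trace := by
    intro N
    rw [← Matrix.mul_assoc, Matrix.trace_mul_comm, ← Matrix.mul_assoc, Matrix.mul_adjugate, smul_mul_assoc, one_mul,
      Matrix.trace_smul, smul_eq_mul]
  have e2 : (H.adjugate * (H * A)).trace = H.det * A.trace := by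
    rw [← Matrix.mul_assoc, Matrix.adjugate_mul, smul_mul_assoc, one_mul, Matrix.trace_smul, smul_eq_mul]
  have hAt : A.trace = 0 := by
    rw [Matrix.trace]
    refine Finset.sum_eq_zero fun i _ => ?_
    rw [Matrix.diag_apply, hA, Matrix.map_apply]
    unfold Am
    rw [Matrix.of_apply, if_neg (by omega), map_zero]
  have hBt : B.trace = C (Q.coeff (n - 1)) := by
    rw [Matrix.trace, Finset.sum_eq_single ⟨n - 1, by omega⟩]
    · rw [Matrix.diag_apply, hB, Matrix.map_apply]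
      unfold Bm
      rw [Matrix.of_apply, if_pos (by simp only; omega)]
    · intro i _ hi
      rw [Matrix.diag_apply, hB, Matrix.map_apply]
      unfold Bm
      rw [Matrix.of_apply, if_neg, map_zero]
      intro h
      exact hi (Fin.ext (by simp only; omega))
    · intro h
      exact absurd (Finset.mem_univ _) h
  rw [h2, h1, Matrix.mul_add, Matrix.mul_sub, Matrix.mul_smul, Matrix.mul_smul, Matrix.mul_smul, Matrix.trace_add,
    Matrix.trace_sub, Matrix.trace_smul, Matrix.trace_smul, Matrix.trace_smul, e1, e2, e1, hAt, hBt]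
  simp only [smul_eq_mul, mul_zero, sub_zero, zero_add]
  ring

/-- the binomial series `(1 - X) ^ σ` -/
noncomputable def bn (σ : ℚ) : ℚ⟦X⟧ := PowerSeries.mk fun k => ∏ l ∈ Finset.range k, (((l : ℚ) - σ) / ((l : ℚ) + 1))

lemma bn_ode (σ : ℚ) : (1 - X) * d⁄dX ℚ (bn σ) = -(C σ * bn σ) := by
  ext k
  have h1 : ∀ k : ℕ, coeff k (d⁄dX ℚ (bn σ)) = ((k : ℚ) - σ) * coeff k (bn σ) := by
    intro k
    rw [coeff_derivative]
    unfold bn
    rw [coeff_mk, coeff_mk, Finset.prod_range_succ]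
    have : ((k : ℚ) + 1) ≠ 0 := by positivity
    field_simp
  have h2 : ∀ k : ℕ, ((k : ℚ) + 1) * coeff (k + 1) (bn σ) = ((k : ℚ) - σ) * coeff k (bn σ) := by
    intro k
    rw [← h1, coeff_derivative]
    ring
  rw [sub_mul, one_mul, map_sub, h1, map_neg, coeff_C_mul]
  rcases k with _ | k
  · rw [coeff_zero_X_mul]
    push_cast
    ring
  · rw [coeff_succ_X_mul, h1]
    have h3 := h2 k
    push_cast
    linear_combination h3

lemma bn_det (hQ : QG n Q) : bn (Q.coeff (n - 1)) * (Hm n Q).det = 1 := by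
  have h1 : d⁄dX ℚ (bn (Q.coeff (n - 1)) * (Hm n Q).det) = 0 := by
    have hne : (1 - X : ℚ⟦X⟧) ≠ 0 := by
      intro h
      have := congrArg (coeff 0) h
      simp at this
    refine (mul_eq_zero.1 (?_ : (1 - X : ℚ⟦X⟧) * _ = 0)).resolve_left hne
    rw [Derivation.leibniz, smul_eq_mul, smul_eq_mul]
    have h2 := bn_ode (Q.coeff (n - 1))
    have h3 := det_ode hQ
    linear_combination bn (Q.coeff (n - 1)) * h3 + (Hm n Q).det * h2
  have h2 : constantCoeff (bn (Q.coeff (n - 1)) * (Hm n Q).det) = 1 := by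
    rw [map_mul]
    have h3 : constantCoeff (bn (Q.coeff (n - 1))) = 1 := by
      unfold bn
      rw [← coeff_zero_eq_constantCoeff_apply, coeff_mk]
      simp
    have h4 : constantCoeff (Hm n Q).det = 1 := by
      have h5 : constantCoeff (Hm n Q).det = ((Hm n Q).map constantCoeff).det := RingHom.map_det _ _
      have h6 : (Hm n Q).map constantCoeff = 1 := by
        ext i j
        rw [Matrix.map_apply, ← coeff_zero_eq_constantCoeff_apply, coeff_Hm, Hq_zero]
      rw [h5, h6, Matrix.det_one]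
    rw [h3, h4, one_mul]
  ext k
  rcases k with _ | k
  · rw [coeff_zero_eq_constantCoeff_apply, h2]
    simp
  · have h3 := congrArg (coeff k) h1
    rw [coeff_derivative, map_zero] at h3
    have h4 : ((k : ℚ) + 1) ≠ 0 := by positivity
    rw [(mul_eq_zero.1 h3).resolve_right h4, coeff_one, if_neg (by omega)]

lemma sdc_bn (σ : ℚ) : SDc (bn σ) := by
  refine sdc_of ⟨|((σ : ℚ) : ℝ)| + 1, fun m => ?_⟩ ⟨((σ.den : ℝ)) ^ 2, fun m => ?_⟩
  · unfold bn
    rw [coeff_mk]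
    push_cast
    rw [Finset.abs_prod]
    have h1 : ∀ l : ℕ, |((l : ℝ) - (σ : ℝ)) / ((l : ℝ) + 1)| ≤ |((σ : ℚ) : ℝ)| + 1 := by
      intro l
      have hl : (0 : ℝ) < (l : ℝ) + 1 := by positivity
      rw [abs_div, abs_of_pos hl, div_le_iff₀ hl]
      have h2 := abs_sub (l : ℝ) (σ : ℝ)
      have h3 : |(l : ℝ)| = l := abs_of_nonneg (by positivity)
      rw [h3] at h2
      have h4 : 0 ≤ |((σ : ℚ) : ℝ)| := abs_nonneg _
      have h5 : (0 : ℝ) ≤ l := by positivity
      nlinarith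
    calc ∏ l ∈ Finset.range m, |((l : ℝ) - (σ : ℝ)) / ((l : ℝ) + 1)| ≤ ∏ _l ∈ Finset.range m, (|((σ : ℚ) : ℝ)| + 1) :=
          Finset.prod_le_prod (fun l _ => abs_nonneg _) fun l _ => h1 l
      _ = (|((σ : ℚ) : ℝ)| + 1) ^ m := by rw [Finset.prod_const, Finset.card_range]
      _ ≤ (|((σ : ℚ) : ℝ)| + 1) ^ (m + 1) := pow_le_pow_right₀ (by linarith [abs_nonneg ((σ : ℚ) : ℝ)]) (Nat.le_succ m)
  · refine ⟨(σ.den ^ 2) ^ m, by have := σ.den_pos; positivity, ?_, fun j hj => ?_⟩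
    · push_cast
      refine pow_le_pow_right₀ ?_ (Nat.le_succ m)
      have : (1 : ℝ) ≤ σ.den := by exact_mod_cast σ.den_pos
      nlinarith
    · obtain ⟨a, ha⟩ := poch_int (-σ) j
      rw [Rat.neg_den] at ha
      refine ⟨((σ.den : ℤ) ^ 2) ^ (m - j) * a, ?_⟩
      unfold bn
      rw [coeff_mk]
      push_cast
      rw [← ha]
      have e1 : ((σ.den : ℚ) ^ 2) ^ m = ((σ.den : ℚ) ^ 2) ^ (m - j) * ((σ.den : ℚ) ^ 2) ^ j := by
        rw [← pow_add]
        congr 1
        omega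
      have e2 : ∀ l : ℕ, ((l : ℚ) - σ) = (l : ℚ) + -σ := fun l => sub_eq_add_neg _ _
      simp only [e2]
      rw [e1]
      ring

/-- the inverse matrix -/
noncomputable def Wm (n : ℕ) (Q : Polynomial ℚ) : Matrix (Fin n) (Fin n) ℚ⟦X⟧ := bn (Q.coeff (n - 1)) • (Hm n Q).adjugate

lemma Hm_mul_Wm (hQ : QG n Q) : Hm n Q * Wm n Q = 1 := by
  unfold Wm
  rw [Matrix.mul_smul, Matrix.mul_adjugate, smul_smul, bn_det hQ, one_smul]

lemma sdc_sum {ι : Type*} (s : Finset ι) {f : ι → ℚ⟦X⟧} (h : ∀ i ∈ s, SDc (f i)) : SDc (∑ i ∈ s, f i) := by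
  classical
  induction s using Finset.induction_on with
  | empty =>
    rw [Finset.sum_empty]
    have := SDc.int 0
    simpa using this
  | insert a s ha ih =>
    rw [Finset.sum_insert ha]
    exact (h a (Finset.mem_insert_self _ _)).add (ih fun i hi => h i (Finset.mem_insert_of_mem hi))

lemma sdc_prod {ι : Type*} (s : Finset ι) {f : ι → ℚ⟦X⟧} (h : ∀ i ∈ s, SDc (f i)) : SDc (∏ i ∈ s, f i) := by
  classical
  induction s using Finset.induction_on with
  | empty =>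
    rw [Finset.prod_empty]
    exact SDc.one
  | insert a s ha ih =>
    rw [Finset.prod_insert ha]
    exact (h a (Finset.mem_insert_self _ _)).mul (ih fun i hi => h i (Finset.mem_insert_of_mem hi))

lemma sdc_det {M : Matrix (Fin n) (Fin n) ℚ⟦X⟧} (h : ∀ i j, SDc (M i j)) : SDc M.det := by
  rw [Matrix.det_apply']
  refine sdc_sum _ fun σ _ => (SDc.int _).mul (sdc_prod _ fun i _ => h _ _)

lemma sdc_adj {M : Matrix (Fin n) (Fin n) ℚ⟦X⟧} (h : ∀ i j, SDc (M i j)) (i j : Fin n) : SDc (M.adjugate i j) := by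
  rw [Matrix.adjugate_apply]
  refine sdc_det fun a b => ?_
  by_cases ha : a = j
  · subst ha
    rw [Matrix.updateRow_self, Pi.single_apply]
    split_ifs
    · exact SDc.one
    · have := SDc.int 0
      simpa using this
  · rw [Matrix.updateRow_ne ha]
    exact h a b

lemma sdc_Wm (h : ∀ i j, SDc (Hm n Q i j)) (i j : Fin n) : SDc (Wm n Q i j) := by
  unfold Wm
  rw [Matrix.smul_apply, smul_eq_mul]
  exact (sdc_bn _).mul (sdc_adj h i j)

/-- clearing denominators -/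
lemma exists_den (Q : Polynomial ℚ) (n : ℕ) : ∃ (b : ℕ) (c : ℕ → ℤ), 0 < b ∧ ∀ i < n, (c i : ℚ) = b * Q.coeff i := by
  classical
  refine ⟨∏ i ∈ Finset.range n, (Q.coeff i).den, fun i => (∏ j ∈ (Finset.range n).erase i, ((Q.coeff j).den : ℤ)) * (Q.coeff i).num,
    Finset.prod_pos fun i _ => Rat.den_pos _, fun i hi => ?_⟩
  rw [← Finset.mul_prod_erase _ _ (Finset.mem_range.2 hi)]
  push_cast
  rw [← Rat.mul_den_eq_num (Q.coeff i)]
  ring

end Pool.Agent.E8helper53.HGM
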