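import Pool.Agent.E8helper53.HGM.Loc1

/-!
# The dual system, the connection matrix, and the monodromy at one
-/

set_option autoImplicit false

open Filter Topology Matrix Polynomial

namespace Pool.Agent.E8helper53.HGM

open Pool.Agent.Y119.HY

variable {n : ℕ}

lemma dual_HD {G : Matrix (Fin n) (Fin n) ℂ} {Y Z : ℂ → Matrix (Fin n) (Fin n) ℂ} {z : ℂ} (hY : HD Y (-G.transpose * Y z) z)
    (hZ : HD Z (G * Z z) z) : HD (fun w => (Y w).transpose * Z w) 0 z := by
  refine (hY.transpose.mul hZ).congr ?_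
  rw [transpose_mul, transpose_neg, transpose_transpose, mul_neg, neg_mul, Matrix.mul_assoc, neg_add_cancel]

lemma Gm_dual (N0 N1 : Matrix (Fin n) (Fin n) ℂ) (z : ℂ) :
    Gm (-N0.transpose) (-N1.transpose) z = -(Gm N0 N1 z).transpose := by
  unfold Gm
  rw [transpose_add, transpose_smul, transpose_smul, smul_neg, smul_neg, neg_add]

lemma E_transpose (N : Matrix (Fin n) (Fin n) ℂ) (s : ℂ) : E N.transpose s = (E N s).transpose := by
  unfold E
  rw [transpose_sum]
  refine Finset.sum_congr rfl fun i _ => ?_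
  rw [transpose_smul, transpose_pow]

lemma nil_dual {N0 : Matrix (Fin n) (Fin n) ℂ} (h0 : N0 ^ n = 0) : (-N0.transpose) ^ n = 0 := by
  rw [neg_pow, ← transpose_pow, h0, transpose_zero, mul_zero]

variable {N0 N1 : Matrix (Fin n) (Fin n) ℂ} {H G : ℕ → Matrix (Fin n) (Fin n) ℂ}

/-- the solutions of the dual system give the inverse matrix -/
theorem dual_pair (h0 : N0 ^ n = 0) (hH : Sol N0 N1 H) (hG : Sol (-N0.transpose) (-N1.transpose) G) {z : ℂ} (hz : z ∈ Lens) :
    (Yf (-N0.transpose) G z).transpose * Yf N0 H z = 1 := by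
  have h0' := nil_dual h0
  have hhalf : ((1 / 2 : ℝ) : ℂ) ∈ Lens := real_mem_Lens (by norm_num) (by norm_num)
  set S := (Yf (-N0.transpose) G ((1 / 2 : ℝ) : ℂ)).transpose * Yf N0 H ((1 / 2 : ℝ) : ℂ) with hS
  have hconst : ∀ w ∈ Lens, (Yf (-N0.transpose) G w).transpose * Yf N0 H w = S := by
    intro w hw
    refine const_Lens (F := fun w => (Yf (-N0.transpose) G w).transpose * Yf N0 H w) (fun x hx => ?_) hw hhalf
    have h1 := Yf_ode hH h0 (mem_Lens.1 hx).1 (slit_Lens hx)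
    have h2 := Yf_ode hG h0' (mem_Lens.1 hx).1 (slit_Lens hx)
    rw [Gm_dual] at h2
    exact dual_HD h2 h1
  rw [hconst z hz]
  -- the holomorphic part
  have hHan : ∀ i j, AnalyticOnNhd ℂ (fun z => ((Hf G z).transpose * Hf H z) i j) (Metric.ball 0 1) := by
    intro i j
    simp only [Matrix.mul_apply, Matrix.transpose_apply]
    refine Finset.analyticOnNhd_fun_sum _ fun l _ => AnalyticOnNhd.mul ?_ (Hf_an hH h0 l j)
    exact Hf_an hG h0' l i
  have hlog : ∀ i j : Fin n, ∀ w ∈ Metric.ball (0 : ℂ) 1, C (((Hf G w).transpose * Hf H w) i j) +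
      -((Ep N0 * S.map C * Ep (-N0)) i j) = 0 := by
    intro i j
    refine PA.log_zero (f := fun w => C (((Hf G w).transpose * Hf H w) i j) +
      -((Ep N0 * S.map C * Ep (-N0)) i j)) ((PA.ofFun (hHan i j)).add (PA.const _)) fun x hx hx1 => ?_
    have h1 := hconst x (real_mem_Lens hx hx1)
    have h2 : (Ep N0 * S.map C * Ep (-N0)).map (Polynomial.eval ((Real.log x : ℝ) : ℂ)) =
        (Hf G x).transpose * Hf H x := by
      rw [map_mul_eval, map_mul_eval, map_C_eval, Ep_eval, Ep_eval, E_neg, ← h1]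
      unfold Yf
      rw [← Complex.ofReal_log hx.le, transpose_mul]
      set L : ℂ := ((Real.log x : ℝ) : ℂ)
      have h3 : E N0 L * E N0 (-L) = 1 := E_mul_neg h0 L
      have h4 : (E (-N0.transpose) L).transpose = E N0 (-L) := by
        rw [E_neg, E_transpose, transpose_transpose]
      rw [h4]
      calc E N0 L * (E N0 (-L) * (Hf G x).transpose * (Hf H x * E N0 L)) * E N0 (-L)
          = (E N0 L * E N0 (-L)) * ((Hf G x).transpose * Hf H x) * (E N0 L * E N0 (-L)) := by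
            simp only [Matrix.mul_assoc]
        _ = _ := by rw [h3, one_mul, mul_one]
    rw [eval_add, eval_neg, eval_C, ← h2]
    simp only [Matrix.map_apply]
    ring
  ext i j
  have h5 := congrArg (Polynomial.eval 0) (hlog i j 0 (Metric.mem_ball_self one_pos))
  rw [eval_add, eval_neg, eval_C, Hf_zero hH, Hf_zero hG, transpose_one, one_mul, eval_zero] at h5
  have h6 : (Ep N0 * S.map C * Ep (-N0)).map (Polynomial.eval 0) = S := by
    rw [map_mul_eval, map_mul_eval, map_C_eval, Ep_eval, Ep_eval, E_zero h0, E_zero (by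
      rw [neg_pow, h0, mul_zero]), one_mul, mul_one]
  have h7 := congrFun (congrFun h6 i) j
  rw [Matrix.map_apply] at h7
  rw [h7] at h5
  linear_combination -h5

/-- **Connection.** -/
theorem connect' (h0 : N0 ^ n = 0) (hH : Sol N0 N1 H) {Z : ℂ → Matrix (Fin n) (Fin n) ℂ}
    (hZ : ∀ z ∈ Lens, HD Z (Gm N0 N1 z * Z z) z) {x₀ : ℂ} (hx₀ : x₀ ∈ Lens) (hu : IsUnit (Z x₀).det) :
    ∃ M Mi : Matrix (Fin n) (Fin n) ℂ, M * Mi = 1 ∧ Mi * M = 1 ∧ ∀ z ∈ Lens, Yf N0 H z = Z z * M := by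
  obtain ⟨G, hG⟩ := exists_sol (nil_dual h0) (-N1.transpose)
  set W : ℂ → Matrix (Fin n) (Fin n) ℂ := fun z => (Yf (-N0.transpose) G z).transpose with hW
  have hWY : ∀ z ∈ Lens, W z * Yf N0 H z = 1 := fun z hz => dual_pair h0 hH hG hz
  have hYW : ∀ z ∈ Lens, Yf N0 H z * W z = 1 := fun z hz => mul_eq_one_comm.1 (hWY z hz)
  have hc : ∀ z ∈ Lens, W z * Z z = W x₀ * Z x₀ := by
    intro z hz
    refine const_Lens (F := fun z => W z * Z z) (fun x hx => ?_) hz hx₀
    have h2 := Yf_ode hG (nil_dual h0) (mem_Lens.1 hx).1 (slit_Lens hx)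
    rw [Gm_dual] at h2
    exact dual_HD h2 (hZ x hx)
  set Cc := W x₀ * Z x₀ with hCc
  have hCi : Cc * ((Z x₀)⁻¹ * Yf N0 H x₀) = 1 := by
    rw [hCc]
    calc W x₀ * Z x₀ * ((Z x₀)⁻¹ * Yf N0 H x₀) = W x₀ * (Z x₀ * (Z x₀)⁻¹) * Yf N0 H x₀ := by simp only [Matrix.mul_assoc]
      _ = 1 := by rw [Matrix.mul_nonsing_inv _ hu, mul_one, hWY x₀ hx₀]
  refine ⟨(Z x₀)⁻¹ * Yf N0 H x₀, Cc, mul_eq_one_comm.1 hCi, hCi, fun z hz => ?_⟩
  have h1 : Z z = Yf N0 H z * Cc := by
    rw [← hc z hz, ← Matrix.mul_assoc, hYW z hz, one_mul]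
  rw [h1, Matrix.mul_assoc, hCi, mul_one]

/-- the matrix of analytic functions is invertible near zero -/
lemma small_inv (h0 : Hf H 0 = 1) (hg : ∀ i j, PG fun k => H k i j) :
    ∃ x : ℝ, 0 < x ∧ x < 1 ∧ IsUnit (Hf H (1 - (x : ℂ))).det := by
  have hcont : ContinuousAt (fun w : ℂ => (Hf H w).det) 0 := by
    have h1 : ContinuousAt (fun w : ℂ => Hf H w) 0 := by
      refine continuousAt_pi.2 fun i => continuousAt_pi.2 fun j => ?_
      exact ((Hf_an' hg i j) 0 (Metric.mem_ball_self one_pos)).continuousAt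
    have h2 : Continuous fun M : Matrix (Fin n) (Fin n) ℂ => M.det := Continuous.matrix_det continuous_id
    exact h2.continuousAt.comp h1
  have hne : ∀ᶠ w in 𝓝 (0 : ℂ), (Hf H w).det ≠ 0 := by
    refine hcont.eventually_ne ?_
    rw [h0, det_one]
    exact one_ne_zero
  have hlim : Tendsto (fun y : ℝ => (y : ℂ)) (𝓝[>] 0) (𝓝 0) := tendsto_nhdsWithin_of_tendsto_nhds (by
    have := Complex.continuous_ofReal.tendsto 0
    simpa using this)
  have h1 : ∀ᶠ y : ℝ in 𝓝[>] 0, y < 1 := tendsto_nhdsWithin_of_tendsto_nhds tendsto_id (gt_mem_nhds one_pos)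
  obtain ⟨y, hy1, hy2, hy3⟩ := ((hlim.eventually hne).and (h1.and self_mem_nhdsWithin)).exists
  have hy3' : 0 < y := hy3
  refine ⟨1 - y, by linarith, by linarith, ?_⟩
  push_cast
  rw [sub_sub_cancel]
  exact Ne.isUnit hy1

/-- separation for rational exponents -/
theorem frac_zero {f : ℂ → ℂ[X]} (hf : PA (Metric.ball 0 1) f) {ρ : ℚ}
    (h : ∀ x : ℝ, 0 < x → x < 1 → (f (x : ℂ)).eval (Complex.exp ((ρ : ℂ) * Complex.log x)) = 0) (k : ℤ) (x : ℝ) (hx : 0 < x)
    (hx1 : x < 1) : (f (x : ℂ)).eval (Complex.exp (2 * Real.pi * Complex.I * ρ * k) * Complex.exp ((ρ : ℂ) * Complex.log x)) = 0 := by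
  obtain ⟨ha, d, hd⟩ := hf
  set p : ℤ := ρ.num with hp
  set q : ℕ := ρ.den with hq
  have hq0 : 0 < q := ρ.den_pos
  have hqC : (q : ℂ) ≠ 0 := by exact_mod_cast hq0.ne'
  have hρ : (ρ : ℂ) * q = p := by
    have := Rat.mul_den_eq_num ρ
    exact_mod_cast this
  set e : ℕ → ℕ := fun j => (p * j + (p.natAbs * d : ℕ)).toNat with he
  have hej : ∀ j < d, ((e j : ℕ) : ℤ) = p * j + (p.natAbs * d : ℕ) := by
    intro j hj
    refine Int.toNat_of_nonneg ?_
    push_cast
    have h1 : -|p| ≤ p := neg_abs_le p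
    have h2 : (j : ℤ) ≤ d := by exact_mod_cast hj.le
    have h3 : (0 : ℤ) ≤ |p| := abs_nonneg p
    have h4 : (0 : ℤ) ≤ j := by positivity
    nlinarith
  set F : ℂ → ℂ := fun y => ∑ j ∈ Finset.range d, (f (y ^ q)).coeff j * y ^ (e j) with hF
  have hFan : AnalyticOnNhd ℂ F (Metric.ball 0 1) := by
    refine Finset.analyticOnNhd_fun_sum _ fun j _ => AnalyticOnNhd.mul ?_ (analyticOnNhd_id.pow _)
    refine (ha j).comp (analyticOnNhd_id.pow q) fun y hy => ?_
    rw [Metric.mem_ball, dist_zero_right] at hy ⊢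
    show ‖y ^ q‖ < 1
    rw [norm_pow]
    exact pow_lt_one₀ (norm_nonneg _) hy hq0.ne'
  have hFe : ∀ y : ℂ, y ≠ 0 → F y = y ^ (p.natAbs * d) * (f (y ^ q)).eval (y ^ p) := by
    intro y hy
    rw [Polynomial.eval_eq_sum_range' (hd _), Finset.mul_sum]
    refine Finset.sum_congr rfl fun j hj => ?_
    have h1 : y ^ (e j) = y ^ (p.natAbs * d) * (y ^ p) ^ j := by
      rw [← zpow_natCast y (e j), hej j (Finset.mem_range.1 hj), zpow_add₀ hy, _root_.zpow_mul, zpow_natCast, zpow_natCast, mul_comm]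
    rw [h1]
    ring
  have hreal : ∀ y : ℝ, 0 < y → y < 1 → (f ((y : ℂ) ^ q)).eval ((y : ℂ) ^ p) = 0 ∧
      (y : ℂ) ^ p = Complex.exp ((ρ : ℂ) * Complex.log ((y ^ q : ℝ) : ℂ)) := by
    intro y hy hy1
    have h2 : (y : ℂ) ^ p = Complex.exp ((ρ : ℂ) * Complex.log ((y ^ q : ℝ) : ℂ)) := by
      rw [← Complex.ofReal_log (by positivity), Real.log_pow]
      push_cast
      rw [← mul_assoc, hρ, Complex.ofReal_log hy.le, Complex.exp_int_mul, Complex.exp_log (by exact_mod_cast hy.ne')]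
    refine ⟨?_, h2⟩
    rw [h2]
    have h1 := h (y ^ q) (by positivity) (pow_lt_one₀ hy.le hy1 hq0.ne')
    push_cast at h1 ⊢
    exact h1
  have hF0 : ∀ y ∈ Metric.ball (0 : ℂ) 1, F y = 0 := by
    intro y hy
    have h1 := PA.log_zero (f := fun w => C (F w)) (PA.ofFun hFan) (fun x hx hx1 => by
      rw [eval_C, hFe _ (by exact_mod_cast hx.ne'), (hreal x hx hx1).1, mul_zero]) y hy
    exact Polynomial.C_eq_zero.1 h1
  -- the root
  set y : ℝ := x ^ (1 / (q : ℝ)) with hy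
  have hy0 : 0 < y := Real.rpow_pos_of_pos hx _
  have hqR : (q : ℝ) ≠ 0 := by exact_mod_cast hq0.ne'
  have hyq : y ^ q = x := by
    rw [hy, ← Real.rpow_natCast, ← Real.rpow_mul hx.le, one_div, inv_mul_cancel₀ hqR, Real.rpow_one]
  have hy1 : y < 1 := Real.rpow_lt_one hx.le hx1 (by positivity)
  set ω : ℂ := Complex.exp (2 * Real.pi * Complex.I * k / q) with hω
  have hω0 : ω ≠ 0 := Complex.exp_ne_zero _
  have hω1 : ‖ω‖ = 1 := by
    have : (2 * Real.pi * Complex.I * k / q : ℂ) = ((2 * Real.pi * k / q : ℝ) : ℂ) * Complex.I := by push_cast; ring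
    rw [hω, this, Complex.norm_exp_ofReal_mul_I]
  have hωq : ω ^ q = 1 := by
    rw [hω, ← Complex.exp_nat_mul]
    have : (q : ℂ) * (2 * Real.pi * Complex.I * k / q) = k * (2 * Real.pi * Complex.I) := by field_simp
    rw [this, Complex.exp_int_mul_two_pi_mul_I]
  have hωp : ω ^ p = Complex.exp (2 * Real.pi * Complex.I * ρ * k) := by
    rw [hω, ← Complex.exp_int_mul]
    congr 1
    rw [← hρ]
    field_simp
  have hz0 : (y : ℂ) * ω ≠ 0 := mul_ne_zero (by exact_mod_cast hy0.ne') hω0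
  have h1 := hF0 ((y : ℂ) * ω) (by
    rw [Metric.mem_ball, dist_zero_right, norm_mul, hω1, mul_one, Complex.norm_real, Real.norm_of_nonneg hy0.le]
    exact hy1)
  rw [hFe _ hz0] at h1
  have h2 := (mul_eq_zero.1 h1).resolve_left (pow_ne_zero _ hz0)
  have h3 : ((y : ℂ) * ω) ^ q = (x : ℂ) := by
    rw [mul_pow, hωq, mul_one]
    exact_mod_cast hyq
  rw [h3, mul_zpow, hωp, (hreal y hy0 hy1).2, hyq, mul_comm] at h2
  exact h2

/-- the monodromy at `1` preserves the relations -/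
theorem refl_mem {K : ℕ → Matrix (Fin n) (Fin n) ℂ} {N2 : Matrix (Fin n) (Fin n) ℂ} {ρ : ℚ} (hρ : (ρ : ℂ) ≠ 0)
    (h2 : N2 * N2 = (ρ : ℂ) • N2) (hg : ∀ i j, PG fun k => K k i j) {Y : ℂ → Matrix (Fin n) (Fin n) ℂ}
    {M Mi : Matrix (Fin n) (Fin n) ℂ} (hMi : M * Mi = 1)
    (hY : ∀ x : ℝ, 0 < x → x < 1 → Y x = Zf N2 ρ K (1 - (x : ℂ)) * M) (k : ℤ) :
    Mi * Wt N2 ρ (Complex.exp (2 * Real.pi * Complex.I * ρ * k)) * M ∈ Gal Y := by
  intro P hP x hx hx1
  have hlog : AnalyticOnNhd ℂ (fun w : ℂ => Complex.log (1 - w)) (Metric.ball 0 1) := by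
    intro w hw
    rw [Metric.mem_ball, dist_zero_right] at hw
    refine AnalyticAt.clog (analyticAt_const.sub analyticAt_id) ?_
    left
    have h1 : w.re ≤ ‖w‖ := Complex.re_le_norm _
    rw [Complex.sub_re, Complex.one_re]
    linarith
  set Wp : Matrix (Fin n) (Fin n) ℂ[X] := (1 - (ρ : ℂ)⁻¹ • N2).map (fun a => (C a : ℂ[X])) +
    (X : ℂ[X]) • ((ρ : ℂ)⁻¹ • N2).map (fun a => (C a : ℂ[X])) with hWp
  have hWe : ∀ t : ℂ, Wp.map (Polynomial.eval t) = Wt N2 ρ t := by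
    intro t
    unfold Wt
    ext i j
    rw [hWp, Matrix.map_apply, Matrix.add_apply, Matrix.smul_apply, Matrix.map_apply, Matrix.map_apply, smul_eq_mul,
      eval_add, eval_mul, eval_C, eval_C, eval_X, Matrix.add_apply, Matrix.smul_apply, Matrix.smul_apply, Matrix.smul_apply,
      smul_eq_mul, smul_eq_mul]
  set f : ℂ → ℂ[X] := fun w => evp P (C (1 - w)) (C (Complex.log (1 - w))) ((Hf K w).map C * Wp * M.map C) with hf
  have hPA : PA (Metric.ball 0 1) f := by
    refine PA.aeval (fun o => ?_) P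
    rcases o with _ | _ | x
    · exact PA.ofFun (analyticOnNhd_const.sub analyticOnNhd_id)
    · exact PA.ofFun hlog
    · simp only [pt, Option.elim_some, Matrix.mul_apply, Matrix.map_apply]
      exact PA.sum _ fun l _ => (PA.sum _ fun k _ => (PA.ofFun (Hf_an' hg _ _)).mul (PA.const _)).mul (PA.const _)
  have hfe : ∀ (w t : ℂ), (f w).eval t = ev P (1 - w) (Complex.log (1 - w)) (Hf K w * Wt N2 ρ t * M) := by
    intro w t
    rw [hf]
    simp only
    rw [eval_evp, map_mul_eval, map_mul_eval, map_C_eval, map_C_eval, hWe, eval_C, eval_C]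
  have h3 := frac_zero hPA (ρ := ρ) (fun y hy hy1 => by
    rw [hfe]
    have h4 := hP (1 - y) (by linarith) (by linarith)
    rw [hY (1 - y) (by linarith) (by linarith)] at h4
    push_cast at h4
    unfold Zf at h4
    rw [sub_sub_cancel] at h4
    exact h4) k (1 - x) (by linarith) (by linarith)
  rw [hfe] at h3
  push_cast at h3
  rw [sub_sub_cancel, ← Complex.ofReal_one, ← Complex.ofReal_sub] at h3
  rw [hY x hx hx1]
  unfold Zf
  have e2 : Hf K (1 - (x : ℂ)) * Wt N2 ρ (Complex.exp (ρ * Complex.log (1 - x))) * M *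
      (Mi * Wt N2 ρ (Complex.exp (2 * Real.pi * Complex.I * ρ * k)) * M) =
      Hf K (1 - (x : ℂ)) * Wt N2 ρ (Complex.exp (2 * Real.pi * Complex.I * ρ * k) * Complex.exp (ρ * Complex.log (1 - x))) * M := by
    calc _ = Hf K (1 - (x : ℂ)) * (Wt N2 ρ (Complex.exp (ρ * Complex.log (1 - x))) * (M * Mi) *
            Wt N2 ρ (Complex.exp (2 * Real.pi * Complex.I * ρ * k))) * M := by simp only [Matrix.mul_assoc]
      _ = _ := by rw [hMi, mul_one, Wt_mul hρ h2, mul_comm (Complex.exp (ρ * Complex.log (1 - x)))]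
  rw [e2]
  push_cast at h3 ⊢
  exact h3

end Pool.Agent.E8helper53.HGM
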