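import Pool.Agent.Y119.HY.Gal

/-!
# The infinitesimal transformations which preserve the relations between the solutions of a linear system
-/

set_option autoImplicit false

open Filter Topology Matrix Polynomial

namespace Pool.Agent.E8helper53.HGM

open Pool.Agent.Y119.HY

variable {n : ℕ}

/-- the pairing of a tangent vector with the differential -/
noncomputable def dq (D : Matrix (Fin n) (Fin n) ℂ) (P : MvPolynomial (Vr n) ℂ) (z L : ℂ)
    (X : Matrix (Fin n) (Fin n) ℂ) : ℂ :=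
  ∑ x : Fin n × Fin n, D x.1 x.2 * ev (MvPolynomial.pderiv (some (some x)) P) z L X

lemma dq_add (D : Matrix (Fin n) (Fin n) ℂ) (P Q : MvPolynomial (Vr n) ℂ) (z L : ℂ) (X : Matrix (Fin n) (Fin n) ℂ) :
    dq D (P + Q) z L X = dq D P z L X + dq D Q z L X := by
  unfold dq ev
  rw [← Finset.sum_add_distrib]
  refine Finset.sum_congr rfl fun x _ => ?_
  rw [map_add, map_add, mul_add]

/-- the derivative along a curve -/
theorem ev_curve {M : ℂ → Matrix (Fin n) (Fin n) ℂ} {M' : Matrix (Fin n) (Fin n) ℂ} {s₀ : ℂ} (hM : HD M M' s₀)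
    (P : MvPolynomial (Vr n) ℂ) (z L : ℂ) :
    HasDerivAt (fun s => ev P z L (M s)) (dq M' P z L (M s₀)) s₀ := by
  induction P using MvPolynomial.induction_on with
  | C a =>
    have h1 : dq M' (MvPolynomial.C a) z L (M s₀) = 0 := by
      unfold dq ev
      refine Finset.sum_eq_zero fun x _ => ?_
      rw [MvPolynomial.pderiv_C, map_zero, mul_zero]
    rw [h1]
    unfold ev
    simp only [MvPolynomial.eval_C]
    exact hasDerivAt_const _ _
  | add p q hp hq =>
    rw [dq_add]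
    have h1 := hp.add hq
    unfold ev at h1 ⊢
    simp only [map_add]
    exact h1
  | mul_X p i hp =>
    have h2 : HasDerivAt (fun s => pt z L (M s) i) (match i with
        | none => 0
        | some none => 0
        | some (some x) => M' x.1 x.2) s₀ := by
      rcases i with _ | _ | x
      · exact hasDerivAt_const _ _
      · exact hasDerivAt_const _ _
      · exact hM x.1 x.2
    have h3 := hp.mul h2
    have h4 : (fun s => ev (p * MvPolynomial.X i) z L (M s)) = fun s => ev p z L (M s) * pt z L (M s) i := by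
      funext s
      unfold ev
      rw [map_mul, MvPolynomial.eval_X]
    rw [h4]
    refine h3.congr_deriv ?_
    unfold dq ev
    simp only [MvPolynomial.pderiv_mul, map_add, map_mul, MvPolynomial.eval_X, mul_add]
    rw [Finset.sum_add_distrib, Finset.sum_mul]
    congr 1
    · refine Finset.sum_congr rfl fun x _ => ?_
      ring
    · rcases i with _ | _ | y
      · rw [mul_zero, Finset.sum_eq_zero]
        intro x _
        rw [MvPolynomial.pderiv_X_of_ne (by simp), map_zero, mul_zero, mul_zero]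
      · rw [mul_zero, Finset.sum_eq_zero]
        intro x _
        rw [MvPolynomial.pderiv_X_of_ne (by simp), map_zero, mul_zero, mul_zero]
      · rw [Finset.sum_eq_single y]
        · rw [MvPolynomial.pderiv_X_self, map_one, mul_one, mul_comm]
        · intro x _ hx
          rw [MvPolynomial.pderiv_X_of_ne (by simpa using Ne.symm hx), map_zero, mul_zero, mul_zero]
        · intro h
          exact absurd (Finset.mem_univ _) h

/-- the infinitesimal transformations -/
def Lie (Y : ℂ → Matrix (Fin n) (Fin n) ℂ) : Submodule ℂ (Matrix (Fin n) (Fin n) ℂ) where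
  carrier := {X | ∀ P ∈ Rel Y, ∀ x : ℝ, 0 < x → x < 1 → dq (Y (x : ℂ) * X) P (x : ℂ) (Complex.log x) (Y (x : ℂ)) = 0}
  zero_mem' := by
    intro P _ x _ _
    unfold dq
    refine Finset.sum_eq_zero fun y _ => ?_
    rw [Matrix.mul_zero, Matrix.zero_apply, zero_mul]
  add_mem' := by
    intro X Z hX hZ P hP x hx hx1
    have h1 := hX P hP x hx hx1
    have h2 := hZ P hP x hx hx1
    unfold dq at h1 h2 ⊢
    have h3 : ∑ y : Fin n × Fin n, (Y (x : ℂ) * (X + Z)) y.1 y.2 * ev (MvPolynomial.pderiv (some (some y)) P) (x : ℂ)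
        (Complex.log x) (Y (x : ℂ)) = (∑ y : Fin n × Fin n, (Y (x : ℂ) * X) y.1 y.2 *
          ev (MvPolynomial.pderiv (some (some y)) P) (x : ℂ) (Complex.log x) (Y (x : ℂ))) +
        ∑ y : Fin n × Fin n, (Y (x : ℂ) * Z) y.1 y.2 *
          ev (MvPolynomial.pderiv (some (some y)) P) (x : ℂ) (Complex.log x) (Y (x : ℂ)) := by
      rw [← Finset.sum_add_distrib]
      refine Finset.sum_congr rfl fun y _ => ?_
      rw [Matrix.mul_add, Matrix.add_apply, add_mul]
    rw [h3, h1, h2, add_zero]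
  smul_mem' := by
    intro c X hX P hP x hx hx1
    have h1 := hX P hP x hx hx1
    unfold dq at h1 ⊢
    rw [← mul_zero c, ← h1, Finset.mul_sum]
    refine Finset.sum_congr rfl fun y _ => ?_
    rw [Matrix.mul_smul, Matrix.smul_apply, smul_eq_mul, mul_assoc]

lemma mem_Lie {Y : ℂ → Matrix (Fin n) (Fin n) ℂ} {X : Matrix (Fin n) (Fin n) ℂ} : X ∈ Lie Y ↔
    ∀ P ∈ Rel Y, ∀ x : ℝ, 0 < x → x < 1 → dq (Y (x : ℂ) * X) P (x : ℂ) (Complex.log x) (Y (x : ℂ)) = 0 := Iff.rfl

/-- tangent vectors of curves -/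
theorem curve_mem {Y : ℂ → Matrix (Fin n) (Fin n) ℂ} {g : ℂ → Matrix (Fin n) (Fin n) ℂ} {X : Matrix (Fin n) (Fin n) ℂ}
    {s₀ : ℂ} (hg : HD g X s₀) (h1 : g s₀ = 1) (hmem : ∀ᶠ s in 𝓝 s₀, g s ∈ Gal Y) : X ∈ Lie Y := by
  rw [mem_Lie]
  intro P hP x hx hx1
  have h2 : HD (fun s => Y (x : ℂ) * g s) (Y (x : ℂ) * X) s₀ := by
    refine ((HD.const (Y (x : ℂ)) s₀).mul hg).congr ?_
    rw [Matrix.zero_mul, zero_add]
  have h3 := ev_curve h2 P (x : ℂ) (Complex.log x)
  rw [h1, mul_one] at h3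
  refine h3.unique ?_
  refine (hasDerivAt_const s₀ (0 : ℂ)).congr_of_eventuallyEq ?_
  filter_upwards [hmem] with s hs
  exact hs P hP x hx hx1

/-- the derivation as a polynomial -/
noncomputable def dvp (X : Matrix (Fin n) (Fin n) ℂ) (P : MvPolynomial (Vr n) ℂ) : MvPolynomial (Vr n) ℂ :=
  ∑ x : Fin n × Fin n, (∑ k, MvPolynomial.X (some (some (x.1, k))) * MvPolynomial.C (X k x.2)) *
    MvPolynomial.pderiv (some (some x)) P

lemma ev_dvp (X : Matrix (Fin n) (Fin n) ℂ) (P : MvPolynomial (Vr n) ℂ) (z L : ℂ) (Y : Matrix (Fin n) (Fin n) ℂ) :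
    ev (dvp X P) z L Y = dq (Y * X) P z L Y := by
  unfold dvp dq ev
  rw [map_sum]
  refine Finset.sum_congr rfl fun x _ => ?_
  rw [map_mul, map_sum]
  congr 1
  rw [Matrix.mul_apply]
  refine Finset.sum_congr rfl fun k _ => ?_
  rw [map_mul, MvPolynomial.eval_X, MvPolynomial.eval_C]
  rfl

/-- conjugation -/
theorem conj_mem_Lie {Y : ℂ → Matrix (Fin n) (Fin n) ℂ} {g gi X : Matrix (Fin n) (Fin n) ℂ} (hg : g ∈ Gal Y)
    (hgi : gi ∈ Gal Y) (h1 : g * gi = 1) (hX : X ∈ Lie Y) : g * X * gi ∈ Lie Y := by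
  rw [mem_Lie] at hX ⊢
  intro P hP x hx hx1
  have h2 : sb 0 gi P ∈ Rel Y := fun y hy hy1 => by rw [ev_sb, add_zero]; exact hgi P hP y hy hy1
  have h3 : dvp X (sb 0 gi P) ∈ Rel Y := fun y hy hy1 => by
    rw [ev_dvp]
    exact hX _ h2 y hy hy1
  have h4 := hg _ h3 x hx hx1
  rw [ev_dvp] at h4
  -- the curve
  have hc : HD (fun s : ℂ => Y (x : ℂ) * g * (1 + s • X)) (Y (x : ℂ) * g * X) 0 := by
    intro i j
    have e1 : ∀ s : ℂ, (Y (x : ℂ) * g * (1 + s • X)) i j = (Y (x : ℂ) * g) i j + s * (Y (x : ℂ) * g * X) i j := by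
      intro s
      rw [mul_add, mul_one, mul_smul_comm, Matrix.add_apply, Matrix.smul_apply, smul_eq_mul]
    simp only [e1]
    have := ((hasDerivAt_id (0 : ℂ)).mul_const ((Y (x : ℂ) * g * X) i j)).const_add ((Y (x : ℂ) * g) i j)
    simpa using this
  have h5 := ev_curve hc (sb 0 gi P) (x : ℂ) (Complex.log x)
  have hc' : HD (fun s : ℂ => Y (x : ℂ) * g * (1 + s • X) * gi) (Y (x : ℂ) * g * X * gi) 0 := by
    refine (hc.mul (HD.const gi 0)).congr ?_
    rw [Matrix.mul_zero, add_zero]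
  have h6 := ev_curve hc' P (x : ℂ) (Complex.log x)
  have e2 : (fun s : ℂ => ev (sb 0 gi P) (x : ℂ) (Complex.log x) (Y (x : ℂ) * g * (1 + s • X))) =
      fun s : ℂ => ev P (x : ℂ) (Complex.log x) (Y (x : ℂ) * g * (1 + s • X) * gi) := by
    funext s
    rw [ev_sb, add_zero]
  rw [e2] at h5
  have h7 := h5.unique h6
  simp only [zero_smul, add_zero, mul_one] at h7
  rw [h4] at h7
  have e3 : Y (x : ℂ) * g * gi = Y (x : ℂ) := by rw [Matrix.mul_assoc, h1, mul_one]
  rw [e3] at h7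
  have e4 : Y (x : ℂ) * (g * X * gi) = Y (x : ℂ) * g * X * gi := by simp only [Matrix.mul_assoc]
  rw [e4]
  exact h7.symm

end Pool.Agent.E8helper53.HGM
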