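import Pool.Agent.E8helper53.HGM.Pair

/-!
# The dimension of the space of infinitesimal transformations
-/

set_option autoImplicit false

open Filter Topology Matrix

namespace Pool.Agent.E8helper53.HGM

open Pool.Agent.Y119.HY

variable {n : ℕ}

/-- the elements of rank one -/
noncomputable def Xr (U V : Matrix (Fin n) (Fin n) ℂ) (η : ℂ) (i : Fin n) : Matrix (Fin n) (Fin n) ℂ :=
  U * Matrix.single i i η * V

lemma Xr_mul (U V : Matrix (Fin n) (Fin n) ℂ) (η : ℂ) (i j : Fin n) :
    Xr U V η i * Xr U V η j = U * Matrix.single i j (η * (V * U) i j * η) * V := by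
  unfold Xr
  calc U * Matrix.single i i η * V * (U * Matrix.single j j η * V)
      = U * (Matrix.single i i η * (V * U) * Matrix.single j j η) * V := by simp only [Matrix.mul_assoc]
    _ = _ := by rw [Matrix.single_mul_mul_single]

lemma Xr_mul3 (U V : Matrix (Fin n) (Fin n) ℂ) (η : ℂ) (i j : Fin n) :
    Xr U V η i * Xr U V η j * Xr U V η i = (η ^ 2 * (V * U) i j * (V * U) j i) • Xr U V η i := by
  rw [Xr_mul]
  unfold Xr
  calc U * Matrix.single i j (η * (V * U) i j * η) * V * (U * Matrix.single i i η * V)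
      = U * (Matrix.single i j (η * (V * U) i j * η) * (V * U) * Matrix.single i i η) * V := by simp only [Matrix.mul_assoc]
    _ = U * Matrix.single i i (η * (V * U) i j * η * (V * U) j i * η) * V := by rw [Matrix.single_mul_mul_single]
    _ = _ := by
      rw [← smul_mul_assoc, ← mul_smul_comm, Matrix.smul_single, smul_eq_mul]
      congr 3
      ring

lemma Xr_sq (U V : Matrix (Fin n) (Fin n) ℂ) (η : ℂ) (i : Fin n) :
    Xr U V η i * Xr U V η i = (η * (V * U) i i) • Xr U V η i := by
  rw [Xr_mul]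
  unfold Xr
  rw [← smul_mul_assoc, ← mul_smul_comm, Matrix.smul_single, smul_eq_mul]
  

section dims

variable {Y : ℂ → Matrix (Fin n) (Fin n) ℂ} {U V Ui Vi : Matrix (Fin n) (Fin n) ℂ} {η : ℂ}

lemma inj_UV (hU : Ui * U = 1) (hV : V * Vi = 1) {m : Matrix (Fin n) (Fin n) ℂ} (h : U * m * V = 0) : m = 0 := by
  calc m = (Ui * U) * m * (V * Vi) := by rw [hU, hV, one_mul, mul_one]
    _ = Ui * (U * m * V) * Vi := by simp only [Matrix.mul_assoc]
    _ = 0 := by rw [h, mul_zero, zero_mul]

lemma li_UV (hU : Ui * U = 1) (hV : V * Vi = 1) {ι : Type} [Fintype ι] (v : ι → Lie Y) (m : ι → Matrix (Fin n) (Fin n) ℂ)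
    (hv : ∀ x, (v x : Matrix (Fin n) (Fin n) ℂ) = U * m x * V)
    (hm : ∀ c : ι → ℂ, ∑ x, c x • m x = 0 → c = 0) : Fintype.card ι ≤ Module.finrank ℂ (Lie Y) := by
  refine LinearIndependent.fintype_card_le_finrank (b := v) ?_
  rw [Fintype.linearIndependent_iff]
  intro c hc
  have h1 : U * (∑ x, c x • m x) * V = 0 := by
    have h2 := congrArg (fun w : Lie Y => (w : Matrix (Fin n) (Fin n) ℂ)) hc
    simp only [Submodule.coe_sum, Submodule.coe_smul, hv, Submodule.coe_zero] at h2
    rw [Finset.mul_sum, Finset.sum_mul, ← h2]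
    refine Finset.sum_congr rfl fun x _ => ?_
    rw [mul_smul_comm, smul_mul_assoc]
  exact fun i => congrFun (hm c (inj_UV hU hV h1)) i

/-- the orthogonal type -/
theorem dim_O (hU : Ui * U = 1) (hV : V * Vi = 1) (hη : η ≠ 0) (hG : ∀ i j : Fin n, i ≠ j → (V * U) i j ≠ 0)
    (h : ∀ i j : Fin n, i < j → Xr U V η i * Xr U V η j - Xr U V η j * Xr U V η i ∈ Lie Y) :
    Fintype.card {x : Fin n × Fin n // x.1 < x.2} ≤ Module.finrank ℂ (Lie Y) := by
  classical
  set G := V * U with hGdef
  refine li_UV hU hV (fun x : {x : Fin n × Fin n // x.1 < x.2} => ⟨_, h x.1.1 x.1.2 x.2⟩)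
    (fun x => Matrix.single x.1.1 x.1.2 (η * G x.1.1 x.1.2 * η) - Matrix.single x.1.2 x.1.1 (η * G x.1.2 x.1.1 * η))
    (fun x => ?_) fun c hc => ?_
  · show Xr U V η x.1.1 * Xr U V η x.1.2 - Xr U V η x.1.2 * Xr U V η x.1.1 = _
    rw [Xr_mul, Xr_mul, mul_sub, sub_mul]
  · funext x
    have h1 := congrFun (congrFun hc x.1.1) x.1.2
    rw [Matrix.sum_apply, Finset.sum_eq_single x] at h1
    · rw [Matrix.smul_apply, Matrix.sub_apply, Matrix.single_apply_same, Matrix.single_apply_of_ne, sub_zero,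
        smul_eq_mul, Matrix.zero_apply] at h1
      · have h2 : η * G x.1.1 x.1.2 * η ≠ 0 := mul_ne_zero (mul_ne_zero hη (hG _ _ (ne_of_lt x.2))) hη
        exact (mul_eq_zero.1 h1).resolve_right h2
      · intro h3
        exact absurd h3.1 (ne_of_gt x.2)
    · intro y _ hy
      rw [Matrix.smul_apply, Matrix.sub_apply, Matrix.single_apply_of_ne, Matrix.single_apply_of_ne, sub_zero, smul_zero]
      · rintro ⟨h3, h4⟩
        have h5 := x.2
        have h6 := y.2
        rw [← h3, ← h4] at h5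
        exact absurd h5 (not_lt.2 h6.le)
      · rintro ⟨h3, h4⟩
        exact hy (Subtype.ext (Prod.ext h3 h4))
    · intro h3
      exact absurd (Finset.mem_univ _) h3

/-- the symplectic type -/
theorem dim_Sp (hU : Ui * U = 1) (hV : V * Vi = 1) (hη : η ≠ 0) (hG : ∀ i j : Fin n, i ≠ j → (V * U) i j ≠ 0)
    (h1 : ∀ i : Fin n, Xr U V η i ∈ Lie Y)
    (h : ∀ i j : Fin n, i < j → Xr U V η i * Xr U V η j - Xr U V η j * Xr U V η i ∈ Lie Y) :
    Fintype.card {x : Fin n × Fin n // x.1 ≤ x.2} ≤ Module.finrank ℂ (Lie Y) := by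
  classical
  set G := V * U with hGdef
  refine li_UV hU hV (fun x : {x : Fin n × Fin n // x.1 ≤ x.2} => if h3 : x.1.1 < x.1.2 then ⟨_, h x.1.1 x.1.2 h3⟩ else
      ⟨_, h1 x.1.1⟩)
    (fun x => if x.1.1 < x.1.2 then
      Matrix.single x.1.1 x.1.2 (η * G x.1.1 x.1.2 * η) - Matrix.single x.1.2 x.1.1 (η * G x.1.2 x.1.1 * η) else
      Matrix.single x.1.1 x.1.1 η)
    (fun x => ?_) fun c hc => ?_
  · by_cases h3 : x.1.1 < x.1.2
    · rw [dif_pos h3, if_pos h3]
      show Xr U V η x.1.1 * Xr U V η x.1.2 - Xr U V η x.1.2 * Xr U V η x.1.1 = _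
      rw [Xr_mul, Xr_mul, mul_sub, sub_mul]
    · rw [dif_neg h3, if_neg h3]
      rfl
  · funext x
    have h2 := congrFun (congrFun hc x.1.1) x.1.2
    rw [Matrix.sum_apply, Finset.sum_eq_single x] at h2
    · rw [Matrix.smul_apply, smul_eq_mul, Matrix.zero_apply] at h2
      refine (mul_eq_zero.1 h2).resolve_right ?_
      by_cases h3 : x.1.1 < x.1.2
      · rw [if_pos h3, Matrix.sub_apply, Matrix.single_apply_same, Matrix.single_apply_of_ne, sub_zero]
        · exact mul_ne_zero (mul_ne_zero hη (hG _ _ (ne_of_lt h3))) hη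
        · intro h4
          exact absurd h4.1 (ne_of_gt h3)
      · have h4 : x.1.1 = x.1.2 := le_antisymm x.2 (not_lt.1 h3)
        rw [if_neg h3, ← h4, Matrix.single_apply_same]
        exact hη
    · intro y _ hy
      rw [Matrix.smul_apply]
      by_cases h3 : y.1.1 < y.1.2
      · rw [if_pos h3, Matrix.sub_apply, Matrix.single_apply_of_ne, Matrix.single_apply_of_ne, sub_zero, smul_zero]
        · rintro ⟨h4, h5⟩
          have h6 := x.2
          rw [← h4, ← h5] at h6
          exact absurd h3 (not_lt.2 h6)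
        · rintro ⟨h4, h5⟩
          exact hy (Subtype.ext (Prod.ext h4 h5))
      · have h4 : y.1.1 = y.1.2 := le_antisymm y.2 (not_lt.1 h3)
        rw [if_neg h3, Matrix.single_apply_of_ne, smul_zero]
        rintro ⟨h5, h6⟩
        exact hy (Subtype.ext (Prod.ext h5 (by rw [← h4]; exact h6)))
    · intro h3
      exact absurd (Finset.mem_univ _) h3

/-- the general type -/
theorem dim_S (hU : Ui * U = 1) (hV : V * Vi = 1) (hη : η ≠ 0) (hG : ∀ i j : Fin n, i ≠ j → (V * U) i j ≠ 0) (i₀ : Fin n)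
    {l : ℂ} (hl : l ≠ 0) (t : Fin n → Fin n → ℂ)
    (h1 : ∀ i : Fin n, i ≠ i₀ → Xr U V η i - Xr U V η i₀ ∈ Lie Y)
    (h : ∀ i j : Fin n, i ≠ j → l • (Xr U V η i * Xr U V η j) - t i j • Xr U V η i ∈ Lie Y) :
    Fintype.card {x : Fin n × Fin n // x ≠ (i₀, i₀)} ≤ Module.finrank ℂ (Lie Y) := by
  classical
  set G := V * U with hGdef
  have hne : ∀ x : {x : Fin n × Fin n // x ≠ (i₀, i₀)}, ¬ x.1.1 ≠ x.1.2 → x.1.1 ≠ i₀ := by
    intro x hx h2
    push Not at hx
    exact x.2 (Prod.ext h2 (by rw [← hx]; exact h2))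
  refine li_UV hU hV (fun x : {x : Fin n × Fin n // x ≠ (i₀, i₀)} => if h3 : x.1.1 ≠ x.1.2 then ⟨_, h x.1.1 x.1.2 h3⟩ else
      ⟨_, h1 x.1.1 (hne x h3)⟩)
    (fun x => if x.1.1 ≠ x.1.2 then
      Matrix.single x.1.1 x.1.2 (l * (η * G x.1.1 x.1.2 * η)) - Matrix.single x.1.1 x.1.1 (t x.1.1 x.1.2 * η) else
      Matrix.single x.1.1 x.1.1 η - Matrix.single i₀ i₀ η)
    (fun x => ?_) fun c hc => ?_
  · by_cases h3 : x.1.1 ≠ x.1.2
    · rw [dif_pos h3, if_pos h3]
      show l • (Xr U V η x.1.1 * Xr U V η x.1.2) - t x.1.1 x.1.2 • Xr U V η x.1.1 = _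
      rw [Xr_mul, mul_sub, sub_mul]
      unfold Xr
      rw [← smul_mul_assoc, ← mul_smul_comm, Matrix.smul_single, smul_eq_mul, ← smul_mul_assoc, ← mul_smul_comm,
        Matrix.smul_single, smul_eq_mul]
    · rw [dif_neg h3, if_neg h3, mul_sub, sub_mul]
      rfl
  · -- off the diagonal
    have hoff : ∀ x : {x : Fin n × Fin n // x ≠ (i₀, i₀)}, x.1.1 ≠ x.1.2 → c x = 0 := by
      intro x hx
      have h2 := congrFun (congrFun hc x.1.1) x.1.2
      rw [Matrix.sum_apply, Finset.sum_eq_single x] at h2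
      · rw [Matrix.smul_apply, smul_eq_mul, Matrix.zero_apply] at h2
        refine (mul_eq_zero.1 h2).resolve_right ?_
        rw [if_pos hx, Matrix.sub_apply, Matrix.single_apply_same, Matrix.single_apply_of_ne, sub_zero]
        · exact mul_ne_zero hl (mul_ne_zero (mul_ne_zero hη (hG _ _ hx)) hη)
        · intro h4
          exact hx h4.2
      · intro y _ hy
        rw [Matrix.smul_apply]
        by_cases h3 : y.1.1 ≠ y.1.2
        · rw [if_pos h3, Matrix.sub_apply, Matrix.single_apply_of_ne, Matrix.single_apply_of_ne, sub_zero, smul_zero]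
          · rintro ⟨h4, h5⟩
            exact hx (by rw [← h4, ← h5])
          · rintro ⟨h4, h5⟩
            exact hy (Subtype.ext (Prod.ext h4 h5))
        · rw [if_neg h3, Matrix.sub_apply, Matrix.single_apply_of_ne, Matrix.single_apply_of_ne, sub_zero, smul_zero]
          · rintro ⟨h4, h5⟩
            exact hx (by rw [← h4, ← h5])
          · rintro ⟨h4, h5⟩
            exact hx (by rw [← h4, ← h5])
      · intro h3
        exact absurd (Finset.mem_univ _) h3
    funext x
    by_cases hx : x.1.1 ≠ x.1.2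
    · exact hoff x hx
    · have hx0 := hne x hx
      push Not at hx
      have h2 := congrFun (congrFun hc x.1.1) x.1.1
      rw [Matrix.sum_apply, Finset.sum_eq_single x] at h2
      · rw [Matrix.smul_apply, smul_eq_mul, Matrix.zero_apply] at h2
        refine (mul_eq_zero.1 h2).resolve_right ?_
        rw [if_neg (by push Not; exact hx), Matrix.sub_apply, Matrix.single_apply_same, Matrix.single_apply_of_ne, sub_zero]
        · exact hη
        · intro h4
          exact hx0 h4.1.symm
      · intro y _ hy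
        rw [Matrix.smul_apply]
        by_cases h3 : y.1.1 ≠ y.1.2
        · rw [hoff y h3, zero_smul]
        · push Not at h3
          rw [if_neg (by push Not; exact h3), Matrix.sub_apply, Matrix.single_apply_of_ne, Matrix.single_apply_of_ne,
            sub_zero, smul_zero]
          · intro h4
            exact hx0 h4.1.symm
          · rintro ⟨h4, h5⟩
            exact hy (Subtype.ext (Prod.ext h4 (by rw [← h3, ← hx]; exact h4)))
      · intro h3
        exact absurd (Finset.mem_univ _) h3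

end dims

lemma card_le_pairs (n : ℕ) : Fintype.card {x : Fin n × Fin n // x.1 < x.2} = n * (n - 1) / 2 ∧
    Fintype.card {x : Fin n × Fin n // x.1 ≤ x.2} = n * (n + 1) / 2 := by
  classical
  have h1 : Fintype.card {x : Fin n × Fin n // x.1 < x.2} = ∑ i : Fin n, (n - 1 - (i : ℕ)) := by
    rw [Fintype.card_subtype, ← Finset.univ_product_univ, Finset.card_filter, Finset.sum_product]
    refine Finset.sum_congr rfl fun i _ => ?_
    rw [← Finset.card_filter]
    have : (Finset.univ.filter fun j : Fin n => i < j) = Finset.Ioi i := by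
      ext j
      simp
    rw [this, Fin.card_Ioi]
  have h2 : Fintype.card {x : Fin n × Fin n // x.1 ≤ x.2} = ∑ i : Fin n, (n - (i : ℕ)) := by
    rw [Fintype.card_subtype, ← Finset.univ_product_univ, Finset.card_filter, Finset.sum_product]
    refine Finset.sum_congr rfl fun i _ => ?_
    rw [← Finset.card_filter]
    have : (Finset.univ.filter fun j : Fin n => i ≤ j) = Finset.Ici i := by
      ext j
      simp
    rw [this, Fin.card_Ici]
  have h3 : ∀ n : ℕ, ∑ i : Fin n, (n - 1 - (i : ℕ)) = n * (n - 1) / 2 := by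
    intro n
    rw [← Finset.sum_range (fun i => n - 1 - i), Finset.sum_range_reflect (fun i => i) n, Finset.sum_range_id]
  refine ⟨by rw [h1, h3], ?_⟩
  have h4 : ∀ n : ℕ, ∑ i : Fin n, (n - (i : ℕ)) = n * (n + 1) / 2 := by
    intro n
    have h5 := h3 (n + 1)
    rw [Fin.sum_univ_castSucc] at h5
    simp only [Fin.val_castSucc, Fin.val_last, Nat.add_sub_cancel, Nat.sub_self, add_zero] at h5
    rw [h5, mul_comm]
  rw [h2, h4]

lemma card_ne_pair {n : ℕ} (i₀ : Fin n) : Fintype.card {x : Fin n × Fin n // x ≠ (i₀, i₀)} = n * n - 1 := by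
  classical
  rw [Fintype.card_subtype_compl, Fintype.card_prod, Fintype.card_fin]
  simp

end Pool.Agent.E8helper53.HGM
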