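import Pool.Agent.E8helper53.HGM.Rank
import Pool.Agent.E8helper53.HGM.ArH
import Pool.Agent.Results.MP_cbf1af_ag.AllTuplesDegenerating

/-!
# All tuples of fibres of hypergeometric families
-/

set_option autoImplicit false

open PowerSeries Module

namespace Pool.Agent.E8helper53.HGM

open Pool.Agent.Y119.HY Pool.Agent.Y113 Pool.Agent.Results.MP_cbf1af_ag.AllTuplesDegenerating

variable {n : ℕ}

lemma sdc_gcond {f : ℚ⟦X⟧} (h : SDc f) : GCond f := by
  obtain ⟨a, ha⟩ := h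
  exact ⟨2 ^ a, ha.1, ha.2⟩

/-- the residue at zero -/
def Nz (n : ℕ) : Matrix (Fin n) (Fin n) ℤ := Matrix.of fun i j => if (i : ℕ) = j + 1 then 1 else 0

lemma Nz_map (n : ℕ) : (Nz n).map (Int.castRingHom ℚ) = (Am n).transpose := by
  ext i j
  unfold Nz Am
  rw [Matrix.map_apply, Matrix.transpose_apply, Matrix.of_apply, Matrix.of_apply]
  split_ifs <;> simp

lemma Nz_nil (n : ℕ) : Nz n ^ n = 0 := by
  have h1 : ((Nz n) ^ n).map (Int.castRingHom ℚ) = 0 := by
    have h2 := map_pow (RingHom.mapMatrix (Int.castRingHom ℚ)) (Nz n) n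
    rw [RingHom.mapMatrix_apply, RingHom.mapMatrix_apply, Nz_map, ← Matrix.transpose_pow, Am_nil, Matrix.transpose_zero] at h2
    exact h2
  ext i j
  have h2 := congrFun (congrFun h1 i) j
  rw [Matrix.map_apply, Matrix.zero_apply] at h2
  have h3 : (((Nz n ^ n) i j : ℤ) : ℚ) = 0 := h2
  rw [Matrix.zero_apply]
  exact_mod_cast h3

lemma SR_Hm {Q : Polynomial ℚ} (hQ : QG n Q) (i j : Fin n) (r : ℝ) (h0 : 0 < r) (h1 : r < 1) : Y37.GF.SR r (Hm n Q i j) := by
  have h := ((sol_c' hQ).growth Ac_nil i j).summable h0.le h1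
  unfold Y37.GF.SR
  refine h.congr fun k => ?_
  rw [coeff_Hm]
  unfold Hc
  rw [cm_apply]
  congr 1
  have e1 : ((Hq n Q k i j : ℚ) : ℂ) = (((Hq n Q k i j : ℚ) : ℝ) : ℂ) := by push_cast; rfl
  rw [e1, Complex.norm_real, Real.norm_eq_abs]

lemma Hf_E (Q : Polynomial ℚ) (x : ℝ) (i j : Fin n) : Hf (Hc n Q) (x : ℂ) i j = ((Y37.GF.E (Hm n Q i j) x : ℝ) : ℂ) := by
  unfold Hf Y37.GF.E Pool.Agent.Y119.HY.ps
  rw [Matrix.of_apply, Complex.ofReal_tsum]
  refine tsum_congr fun k => ?_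
  rw [coeff_Hm]
  unfold Hc
  simp only [cm_apply]
  push_cast
  rfl

/-- the differential equation with integral coefficients -/
lemma ode_Z {Q : Polynomial ℚ} (hQ : QG n Q) : ∃ (T : Polynomial ℤ) (A : Matrix (Fin n) (Fin n) (Polynomial ℤ)), T ≠ 0 ∧
    ∀ i j, toQ T * (X * PowerSeries.derivative ℚ ((Hm n Q).transpose i j) + ∑ k, C (Nz n i k : ℚ) * (Hm n Q).transpose k j) =
      ∑ k, (Hm n Q).transpose i k * toQ (A k j) := by
  obtain ⟨b, c, hb, hc⟩ := exists_den Q n
  refine ⟨Polynomial.C (b : ℤ) * (1 - Polynomial.X), Matrix.of fun k j =>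
    Polynomial.C ((b : ℤ) * (if (k : ℕ) = j + 1 then 1 else 0)) * (1 - Polynomial.X) +
      Polynomial.X * Polynomial.C (if (j : ℕ) + 1 = n then c k else 0), ?_, fun i j => ?_⟩
  · refine mul_ne_zero ?_ ?_
    · rw [Ne, Polynomial.C_eq_zero]
      exact_mod_cast hb.ne'
    · intro h
      have := congrArg (Polynomial.eval 0) h
      simp at this
  · have h1 := ode_H hQ j i
    unfold Dm at h1
    have e1 : toQ (Polynomial.C (b : ℤ) * (1 - Polynomial.X)) = C (b : ℚ) * (1 - X) := by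
      unfold toQ
      simp only [Polynomial.map_mul, Polynomial.map_C, Polynomial.map_sub, Polynomial.map_one,
          Polynomial.map_X, Polynomial.coe_mul, Polynomial.coe_C, Polynomial.coe_sub,
          Polynomial.coe_one, Polynomial.coe_X]
      congr 2
    have e2 : ∀ k : Fin n, toQ ((Matrix.of fun k j : Fin n =>
        Polynomial.C ((b : ℤ) * (if (k : ℕ) = j + 1 then 1 else 0)) * (1 - Polynomial.X) +
        Polynomial.X * Polynomial.C (if (j : ℕ) + 1 = n then c k else 0)) k j) =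
        C (b : ℚ) * (C (Am n j k) * (1 - X) + X * C (Pool.Agent.Y119.HY.Bm n Q j k)) := by
      intro k
      have h2 : (((if (j : ℕ) + 1 = n then c k else 0 : ℤ)) : ℚ) = b * Pool.Agent.Y119.HY.Bm n Q j k := by
        unfold Pool.Agent.Y119.HY.Bm
        rw [Matrix.of_apply]
        split_ifs
        · exact hc k k.2
        · simp
      have h3 : ((((b : ℤ) * (if (k : ℕ) = j + 1 then 1 else 0) : ℤ)) : ℚ) = b * Am n j k := by
        unfold Am
        rw [Matrix.of_apply]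
        split_ifs <;> simp
      rw [Matrix.of_apply]
      have h4 : toQ (Polynomial.C ((b : ℤ) * (if (k : ℕ) = j + 1 then 1 else 0)) * (1 - Polynomial.X) +
          Polynomial.X * Polynomial.C (if (j : ℕ) + 1 = n then c k else 0)) =
          C ((((b : ℤ) * (if (k : ℕ) = j + 1 then 1 else 0) : ℤ)) : ℚ) * (1 - X) +
            X * C (((if (j : ℕ) + 1 = n then c k else 0 : ℤ)) : ℚ) := by
        unfold toQ
        simp only [Polynomial.map_add, Polynomial.map_mul, Polynomial.map_C, Polynomial.map_sub, Polynomial.map_one,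
          Polynomial.map_X, Polynomial.coe_add, Polynomial.coe_mul, Polynomial.coe_C, Polynomial.coe_sub,
          Polynomial.coe_one, Polynomial.coe_X]
        rfl
      rw [h4, h2, h3, map_mul, map_mul]
      ring
    have e3 : ∑ k, C (Nz n i k : ℚ) * (Hm n Q).transpose k j = ∑ k, Hm n Q j k * C (Am n k i) := by
      refine Finset.sum_congr rfl fun k _ => ?_
      have h2 := congrFun (congrFun (Nz_map n) i) k
      rw [Matrix.map_apply, Matrix.transpose_apply] at h2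
      have h3 : ((Nz n i k : ℤ) : ℚ) = Am n k i := h2
      rw [h3, Matrix.transpose_apply, mul_comm]
    have e4 : ∑ k, (Hm n Q).transpose i k * toQ ((Matrix.of fun k j : Fin n =>
        Polynomial.C ((b : ℤ) * (if (k : ℕ) = j + 1 then 1 else 0)) * (1 - Polynomial.X) +
        Polynomial.X * Polynomial.C (if (j : ℕ) + 1 = n then c k else 0)) k j) =
        C (b : ℚ) * ((1 - X) * ∑ k, C (Am n j k) * Hm n Q k i + X * ∑ k, C (Pool.Agent.Y119.HY.Bm n Q j k) * Hm n Q k i) := by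
      rw [Finset.mul_sum, Finset.mul_sum, ← Finset.sum_add_distrib, Finset.mul_sum]
      refine Finset.sum_congr rfl fun k _ => ?_
      rw [e2, Matrix.transpose_apply]
      ring
    rw [e1, e3, e4, Matrix.transpose_apply]
    linear_combination C (b : ℚ) * h1

/-- **the rank** -/
theorem rk_le {Q : Polynomial ℚ} (hQ : QG n Q) (hs : Q.coeff (n - 1) = 0 ∨ ∀ m : ℤ, Q.coeff (n - 1) ≠ m) :
    rk n (Q.coeff (n - 1)) ≤ rank (Hm n Q).transpose := by
  classical
  set Z := (Hm n Q).transpose with hZ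
  set U : Set ℕ := {d : ℕ | ∃ T : Fin d → Fin n × Fin n, AlgebraicIndependent (Polynomial ℚ) (fun i => Z (T i).1 (T i).2)} with hU
  have hbdd : BddAbove U := by
    refine ⟨Fintype.card (Fin n × Fin n), ?_⟩
    rintro d ⟨T, hT⟩
    have h1 : Function.Injective T := by
      intro i j hij
      exact hT.injective (by
        show Z (T i).1 (T i).2 = Z (T j).1 (T j).2
        rw [hij])
    simpa using Fintype.card_le_of_injective T h1
  have hne : U.Nonempty := by
    refine ⟨0, fun i => i.elim0, ?_⟩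
    rw [algebraicIndependent_empty_type_iff]
    intro p q hpq
    have h1 : ((p : Polynomial ℚ) : ℚ⟦X⟧) = (q : ℚ⟦X⟧) := by
      simpa [PowerSeries.algebraMap_apply'] using hpq
    exact_mod_cast h1
  obtain ⟨T, hT⟩ : rank Z ∈ U := Nat.sSup_mem hne hbdd
  refine (lie_dim hQ hs).trans ?_
  refine rank_ge (N := cm (Am n)) Ac_nil (Hs := fun i j => Hm n Q i j) (fun i j r h0 h1 => SR_Hm hQ i j r h0 h1) (fun x hx hx1 => ?_)
    (fun x hx hx1 => ?_) (fun i => ((T i).2, (T i).1)) hT fun e he => ?_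
  · unfold Yf
    rw [Matrix.mul_assoc, E_mul_neg Ac_nil, mul_one]
    ext i j
    rw [Matrix.of_apply, Hf_E]
  · obtain ⟨G, hG⟩ := exists_sol (nil_dual (Ac_nil (n := n))) (-(cm (Bm n Q)).transpose)
    exact ⟨_, dual_pair Ac_nil (sol_c' hQ) hG (real_mem_Lens hx hx1)⟩
  · have h1 := he.comp _ (finSuccEquiv (rank Z)).injective
    have h2 : rank Z + 1 ≤ rank Z := le_csSup hbdd ⟨(Fin.cons (e.2, e.1) T : Fin (rank Z + 1) → Fin n × Fin n), by
      convert h1 using 1
      funext i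
      refine Fin.cases ?_ (fun i => ?_) i
      · simp [finSuccEquiv_zero, hZ]
      · simp [finSuccEquiv_succ, hZ]⟩
    omega

/-- fewer numbers -/
lemma TrdegGe.mono {k r r' δ : ℕ} (h : r' ≤ r) {K : IntermediateField ℚ ℂ} {L : Fin k → ℂ}
    {P : Fin k → Matrix (Fin n) (Fin n) ℂ} (ht : TrdegGe r δ K L P) : TrdegGe r' δ K L P := by
  classical
  obtain ⟨σ, hσ, hr⟩ := ht
  refine ⟨fun i => σ (Fin.castLE h i), fun i j hij => (Fin.castLE_injective h) (hσ hij), fun Q hQ h0 => ?_⟩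
  have h1 := hr (MvPolynomial.rename (Fin.castLE h) Q) (fun i => ?_) (by
    rw [MvPolynomial.aeval_rename]
    exact h0)
  · exact MvPolynomial.rename_injective _ (Fin.castLE_injective h) (by rw [h1, map_zero])
  · rw [MvPolynomial.degreeOf_le_iff]
    intro m hm
    rw [MvPolynomial.support_rename_of_injective (Fin.castLE_injective h), Finset.mem_image] at hm
    obtain ⟨m', hm', rfl⟩ := hm
    by_cases hi : i ∈ Set.range (Fin.castLE h)
    · obtain ⟨i', rfl⟩ := hi
      rw [Finsupp.mapDomain_apply (Fin.castLE_injective h)]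
      exact (MvPolynomial.degreeOf_le_iff.1 (hQ i')) m' hm'
    · rw [Finsupp.mapDomain_of_notMem_range _ _ hi]
      exact Nat.zero_le _

/-- **All tuples.** -/
theorem all_tuples (hn : 2 ≤ n) {β : Fin n → ℚ} (hβ : ∀ j, ∀ m : ℤ, β j ≠ m) (hs : ∑ j, β j = 0 ∨ ∀ m : ℤ, ∑ j, β j ≠ m) :
    ∃ G : ℕ, ∀ k δ D : ℕ,
      (∃ (c : ℝ) (M₀ : ℕ), 0 < c ∧ ∀ M : ℕ, M₀ ≤ M → ∀ Ω : Matrix (Fin n) (Fin n) ℂ, IsUnit Ω →
        Bound Ω (Nz n) (Hm n (QP β)).transpose G k δ D ((k - 1) * (rk n (∑ j, β j) + 1)) c M) ∧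
      ∀ Ω : Matrix (Fin n) (Fin n) ℂ, IsUnit Ω → ∀ (s : ℕ) (ω : Fin s → ℂ),
        (∀ i j, IsAlgebraic (Algebra.adjoin ℚ (Set.range ω)) (Ω i j)) →
        ∃ (c : ℝ) (M₀ : ℕ), 0 < c ∧ ∀ M : ℕ, M₀ ≤ M →
          Bound Ω (Nz n) (Hm n (QP β)).transpose G k δ D (k * (rk n (∑ j, β j) + 1) - (s + 1)) c M := by
  have hQ := QP_QG hn hβ
  have hc : (QP β).coeff (n - 1) = ∑ j, β j := QP_coeff (by omega) β
  have hrk := rk_le hQ (by rw [hc]; exact hs)
  rw [hc] at hrk
  obtain ⟨T, A, hT, hode⟩ := ode_Z hQ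
  have hSH : ∀ i j : Fin n, SDc (Hm n (QP β) i j) := fun i j => sdc_hps' hn hβ i j
  obtain ⟨G, hG⟩ := result n T A (Nz n) (Hm n (QP β)).transpose (Wm n (QP β)).transpose hT (Nz_nil n) hode
    (fun i j => by
      rw [Matrix.transpose_apply, coeff_Hm, Hq_zero, Matrix.one_apply]
      simp only [eq_comm])
    (by rw [← Matrix.transpose_mul, Hm_mul_Wm hQ, Matrix.transpose_one])
    (fun i j => sdc_gcond (hSH j i)) (fun i j => sdc_gcond (sdc_Wm hSH j i))
  refine ⟨G, fun k δ D => ?_⟩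
  obtain ⟨h1, h2⟩ := hG k δ D
  refine ⟨?_, fun Ω hΩ s ω hω => ?_⟩
  · obtain ⟨c, M₀, hc0, hb⟩ := h1
    refine ⟨c, M₀, hc0, fun M hM Ω hΩ m hm hsep K _ hK R S => ?_⟩
    exact TrdegGe.mono (Nat.mul_le_mul_left _ (by omega)) (hb M hM Ω hΩ m hm hsep K hK R S)
  · obtain ⟨c, M₀, hc0, hb⟩ := h2 Ω hΩ s ω hω
    refine ⟨c, M₀, hc0, fun M hM m hm hsep K _ hK R S => ?_⟩
    exact TrdegGe.mono (Nat.sub_le_sub_right (Nat.mul_le_mul_left _ (by omega)) _) (hb M hM m hm hsep K hK R S)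

end Pool.Agent.E8helper53.HGM
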