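import Pool.Agent.E8helper53.HGM.Mem2
import Pool.Agent.E8helper53.HGM.Dim
import Mathlib.Analysis.Complex.Cardinality

/-!
# Conjugates of the pseudo-reflection in general position
-/

set_option autoImplicit false

open Filter Topology Matrix

namespace Pool.Agent.E8helper53.HGM

open Pool.Agent.Y119.HY

variable {n : ℕ}

/-- the linear form -/
noncomputable def lf (φ : Fin n → ℂ) : (Fin n → ℂ) →ₗ[ℂ] ℂ where
  toFun v := φ ⬝ᵥ v
  map_add' := dotProduct_add φ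
  map_smul' c v := by simp [dotProduct_smul]

lemma lf_apply (φ v : Fin n → ℂ) : lf φ v = φ ⬝ᵥ v := rfl

lemma lf_ne {φ : Fin n → ℂ} (h : φ ≠ 0) : lf φ ≠ 0 := by
  intro h0
  apply h
  funext i
  have h1 := LinearMap.congr_fun h0 (Pi.single i 1)
  rw [lf_apply] at h1
  simpa using h1

/-- the conjugates of the vector -/
noncomputable def UU (N : Matrix (Fin n) (Fin n) ℂ) (a : Fin n → ℂ) (c : Fin n → ℂ) : Matrix (Fin n) (Fin n) ℂ :=
  Matrix.of fun i j => (E N (c j) *ᵥ a) i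

/-- the conjugates of the form -/
noncomputable def VV (N : Matrix (Fin n) (Fin n) ℂ) (φ : Fin n → ℂ) (c : Fin n → ℂ) : Matrix (Fin n) (Fin n) ℂ :=
  Matrix.of fun i j => (φ ᵥ* E N (-(c i))) j

variable {N : Matrix (Fin n) (Fin n) ℂ} {a φ : Fin n → ℂ}

lemma VU_apply (hN : N ^ n = 0) (c : Fin n → ℂ) (i j : Fin n) :
    (VV N φ c * UU N a c) i j = (pl N a (lf φ)).eval (c j - c i) := by
  rw [pl_eval, lf_apply]
  have h1 : (VV N φ c * UU N a c) i j = (φ ᵥ* E N (-(c i))) ⬝ᵥ (E N (c j) *ᵥ a) := rfl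
  rw [h1, ← dotProduct_mulVec, mulVec_mulVec, ← E_add hN]
  congr 3
  ring

lemma Xr_eq (η : ℂ) (c : Fin n → ℂ) (i : Fin n) :
    Xr (UU N a c) (VV N φ c) η i = η • vecMulVec (E N (c i) *ᵥ a) (φ ᵥ* E N (-(c i))) := by
  have h1 : Matrix.single i i η = vecMulVec (Pi.single i η) (Pi.single i 1) := by
    ext p q
    rw [vecMulVec_apply, Matrix.single_apply, Pi.single_apply, Pi.single_apply]
    by_cases h2 : i = p <;> by_cases h3 : i = q <;> simp [h2, h3, eq_comm]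
  unfold Xr
  rw [h1, vec_sandwich]
  have h2 : UU N a c *ᵥ Pi.single i η = η • (E N (c i) *ᵥ a) := by
    funext p
    rw [Matrix.mulVec_single]
    show (MulOpposite.op η • (UU N a c).col i) p = _
    rw [Pi.smul_apply, MulOpposite.smul_eq_mul_unop, MulOpposite.unop_op, mul_comm]
    rfl
  have h3 : Pi.single i 1 ᵥ* VV N φ c = φ ᵥ* E N (-(c i)) := by
    rw [Matrix.single_one_vecMul]
    rfl
  rw [h2, h3, smul_vecMulVec]

lemma conj_refl (hN : N ^ n = 0) {S : Submonoid (Matrix (Fin n) (Fin n) ℂ)}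
    (hE : ∀ c : ℂ, ∀ g ∈ S, E N c * g * E N (-c) ∈ S) {s : ℂ} (h : 1 + s • vecMulVec a φ ∈ S) (c : ℂ) :
    1 + s • vecMulVec (E N c *ᵥ a) (φ ᵥ* E N (-c)) ∈ S := by
  have h1 := hE c _ h
  rw [mul_add, mul_one, add_mul, E_mul_neg hN, mul_smul_comm, smul_mul_assoc, vec_sandwich] at h1
  exact h1

lemma pl_deg (v : Fin n → ℂ) (l : (Fin n → ℂ) →ₗ[ℂ] ℂ) (hn : 0 < n) : (pl N v l).natDegree < n := by
  have h1 : (pl N v l).natDegree ≤ n - 1 := by
    unfold pl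
    refine Polynomial.natDegree_sum_le_of_forall_le _ _ fun i _ => ?_
    refine (Polynomial.natDegree_monomial_le _).trans ?_
    have := i.2
    omega
  omega

lemma det_U (hN : N ^ n = 0) (hv : (N ^ (n - 1)) *ᵥ a ≠ 0) {c : Fin n → ℂ} (hc : Function.Injective c) :
    (UU N a c).det ≠ 0 := by
  intro h0
  obtain ⟨v, hv0, hv1⟩ := Matrix.exists_vecMul_eq_zero_iff.2 h0
  refine pl_ne hN hv (lf_ne hv0) ?_
  have hn : 0 < n := by
    rcases Nat.eq_zero_or_pos n with h | h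
    · subst h
      exact absurd (Subsingleton.elim _ _) hv0
    · exact h
  refine Polynomial.eq_zero_of_natDegree_lt_card_of_eval_eq_zero _ hc (fun j => ?_) (by
    rw [Fintype.card_fin]
    exact pl_deg _ _ hn)
  rw [pl_eval, lf_apply]
  exact congrFun hv1 j

lemma det_V (hN : N ^ n = 0) (hv : (N.transpose ^ (n - 1)) *ᵥ φ ≠ 0) {c : Fin n → ℂ} (hc : Function.Injective c) :
    (VV N φ c).det ≠ 0 := by
  intro h0
  obtain ⟨v, hv0, hv1⟩ := Matrix.exists_mulVec_eq_zero_iff.2 h0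
  have hNt : N.transpose ^ n = 0 := by rw [← transpose_pow, hN, transpose_zero]
  refine pl_ne hNt hv (lf_ne hv0) ?_
  have hn : 0 < n := by
    rcases Nat.eq_zero_or_pos n with h | h
    · subst h
      exact absurd (Subsingleton.elim _ _) hv0
    · exact h
  refine Polynomial.eq_zero_of_natDegree_lt_card_of_eval_eq_zero (f := fun i => -(c i)) _ (fun i j h => hc (neg_injective h))
    (fun j => ?_) (by
    rw [Fintype.card_fin]
    exact pl_deg _ _ hn)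
  rw [pl_eval, lf_apply, E_transpose, mulVec_transpose, dotProduct_comm]
  exact congrFun hv1 j

/-- avoiding countably many polynomials -/
lemma avoid {ι : Type} [Countable ι] (R : ι → Polynomial ℂ) (h : ∀ i, R i ≠ 0) : ∃ t : ℂ, ∀ i, (R i).eval t ≠ 0 := by
  by_contra hcon
  push Not at hcon
  have h1 : (Set.univ : Set ℂ) ⊆ ⋃ i, {t | (R i).IsRoot t} := by
    intro t _
    obtain ⟨i, hi⟩ := hcon t
    exact Set.mem_iUnion.2 ⟨i, hi⟩
  exact not_countable_complex ((Set.countable_iUnion fun i => (Polynomial.finite_setOfPred_isRoot (h i)).countable).mono h1)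

lemma top_ne (htop : φ ⬝ᵥ (N ^ (n - 1) *ᵥ a) ≠ 0) : (N ^ (n - 1)) *ᵥ a ≠ 0 ∧ (N.transpose ^ (n - 1)) *ᵥ φ ≠ 0 := by
  constructor
  · intro h
    apply htop
    rw [h, dotProduct_zero]
  · intro h
    apply htop
    rw [dotProduct_mulVec, ← mulVec_transpose, transpose_pow, h, zero_dotProduct]

lemma comp_ne {P : Polynomial ℂ} (hP : P ≠ 0) {m : ℂ} (hm : m ≠ 0) : P.comp (Polynomial.C m * Polynomial.X) ≠ 0 := by
  intro h
  rcases Polynomial.comp_eq_zero_iff.1 h with h1 | h1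
  · exact hP h1
  · have h2 := congrArg Polynomial.natDegree h1.2
    rw [Polynomial.natDegree_C_mul_X _ hm, Polynomial.natDegree_C] at h2
    exact one_ne_zero h2

/-- roots of unity are countable -/
lemma countable_unity : Countable {ζ : ℂ // ∃ k : ℕ, 0 < k ∧ ζ ^ k = 1} := by
  have h1 : {ζ : ℂ | ∃ k : ℕ, 0 < k ∧ ζ ^ k = 1} ⊆ ⋃ k : ℕ, {ζ | (Polynomial.X ^ (k + 1) - Polynomial.C (1 : ℂ)).IsRoot ζ} := by
    rintro ζ ⟨k, hk, hk1⟩
    refine Set.mem_iUnion.2 ⟨k - 1, ?_⟩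
    show Polynomial.eval _ _ = _
    rw [Nat.sub_add_cancel hk]
    simp [hk1]
  exact (Set.countable_iUnion fun k => (Polynomial.finite_setOfPred_isRoot
    (Polynomial.X_pow_sub_C_ne_zero (Nat.succ_pos k) (1 : ℂ))).countable).mono h1

/-- **The unipotent case.** -/
theorem lie_uni (hN : N ^ n = 0) {Y : ℂ → Matrix (Fin n) (Fin n) ℂ}
    (hE : ∀ c : ℂ, ∀ g ∈ Gal Y, E N c * g * E N (-c) ∈ Gal Y) (htop : φ ⬝ᵥ (N ^ (n - 1) *ᵥ a) ≠ 0)
    (h0 : φ ⬝ᵥ a = 0) (hmem : ∀ s : ℂ, 1 + s • vecMulVec a φ ∈ Gal Y) :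
    n * (n + 1) / 2 ≤ Module.finrank ℂ (Lie Y) := by
  obtain ⟨ha, hφ⟩ := top_ne htop
  have hP : pl N a (lf φ) ≠ 0 := pl_ne hN ha (lf_ne (by
    intro h
    apply htop
    rw [h, zero_dotProduct]))
  obtain ⟨t, ht⟩ := avoid (ι := {m : ℤ // m ≠ 0}) (fun m => (pl N a (lf φ)).comp (Polynomial.C (m.1 : ℂ) * Polynomial.X))
    (fun m => comp_ne hP (by exact_mod_cast m.2))
  have ht' : ∀ m : ℤ, m ≠ 0 → (pl N a (lf φ)).eval ((m : ℂ) * t) ≠ 0 := fun m hm => by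
    have := ht ⟨m, hm⟩
    simpa [Polynomial.eval_comp] using this
  have hP0 : (pl N a (lf φ)).eval 0 = 0 := by
    rw [pl_eval, lf_apply, E_zero hN, one_mulVec, h0]
  have ht0 : t ≠ 0 := by
    intro h
    apply ht' 1 one_ne_zero
    rw [h, mul_zero, hP0]
  set c : Fin n → ℂ := fun i => ((i : ℕ) : ℂ) * t with hc
  have hcinj : Function.Injective c := by
    intro i j hij
    have h1 : ((i : ℕ) : ℂ) = ((j : ℕ) : ℂ) := mul_right_cancel₀ ht0 hij
    exact Fin.ext (by exact_mod_cast h1)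
  have hG : ∀ i j : Fin n, i ≠ j → (VV N φ c * UU N a c) i j ≠ 0 := by
    intro i j hij
    rw [VU_apply hN]
    have h1 : c j - c i = (((j : ℕ) : ℤ) - ((i : ℕ) : ℤ) : ℤ) * t := by
      rw [hc]
      push_cast
      ring
    rw [h1]
    refine ht' _ ?_
    intro h2
    exact hij (Fin.ext (by omega))
  have hU : (UU N a c)⁻¹ * UU N a c = 1 := nonsing_inv_mul _ (Ne.isUnit (det_U hN ha hcinj))
  have hV : VV N φ c * (VV N φ c)⁻¹ = 1 := mul_nonsing_inv _ (Ne.isUnit (det_V hN hφ hcinj))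
  have hX : ∀ (i : Fin n) (s : ℂ), 1 + s • Xr (UU N a c) (VV N φ c) 1 i ∈ Gal Y := by
    intro i s
    rw [Xr_eq, one_smul]
    exact conj_refl hN hE (hmem s) (c i)
  have hXL : ∀ i : Fin n, Xr (UU N a c) (VV N φ c) 1 i ∈ Lie Y := by
    intro i
    refine curve_mem (g := fun s : ℂ => 1 + s • Xr (UU N a c) (VV N φ c) 1 i) (s₀ := 0) (fun p q => ?_) (by simp)
      (Filter.Eventually.of_forall fun s => hX i s)
    have h2 := ((hasDerivAt_id (0 : ℂ)).mul_const (Xr (UU N a c) (VV N φ c) 1 i p q)).const_add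
      ((1 : Matrix (Fin n) (Fin n) ℂ) p q)
    refine h2.congr_deriv ?_
    simp
  have hsq : ∀ i : Fin n, Xr (UU N a c) (VV N φ c) 1 i * Xr (UU N a c) (VV N φ c) 1 i = 0 := by
    intro i
    rw [Xr_sq, VU_apply hN, sub_self, hP0, mul_zero, zero_smul]
  rw [← (card_le_pairs n).2]
  refine dim_Sp hU hV one_ne_zero hG hXL fun i j _ => ?_
  have h1 := hX i 1
  have h2 := hX i (-1)
  rw [one_smul] at h1
  rw [neg_one_smul] at h2
  have h3 := conj_mem_Lie h1 h2 (by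
    rw [mul_add, mul_one, add_mul, one_mul, mul_neg, hsq]
    simp) (hXL j)
  have h4 := Xr_mul3 (UU N a c) (VV N φ c) 1 i j
  have h5 : Xr (UU N a c) (VV N φ c) 1 i * Xr (UU N a c) (VV N φ c) 1 j -
      Xr (UU N a c) (VV N φ c) 1 j * Xr (UU N a c) (VV N φ c) 1 i =
      (1 + Xr (UU N a c) (VV N φ c) 1 i) * Xr (UU N a c) (VV N φ c) 1 j * (1 + -Xr (UU N a c) (VV N φ c) 1 i) -
      Xr (UU N a c) (VV N φ c) 1 j + (1 ^ 2 * (VV N φ c * UU N a c) i j * (VV N φ c * UU N a c) j i) •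
        Xr (UU N a c) (VV N φ c) 1 i := by
    rw [← h4]
    noncomm_ring
  rw [h5]
  exact (Lie Y).add_mem ((Lie Y).sub_mem h3 (hXL j)) ((Lie Y).smul_mem _ (hXL i))

/-- two roots with given sum and product -/
lemma two_roots (s p : ℂ) : ∃ μ μ' : ℂ, μ + μ' = s ∧ μ * μ' = p := by
  obtain ⟨d, hd⟩ := IsAlgClosed.exists_pow_nat_eq (s ^ 2 - 4 * p) (n := 2) two_pos
  refine ⟨(s + d) / 2, (s - d) / 2, by ring, ?_⟩
  linear_combination (-1 / 4 : ℂ) * hd

/-- **The case which is not unipotent.** -/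
theorem lie_non (hn : 2 ≤ n) (hN : N ^ n = 0) {Y : ℂ → Matrix (Fin n) (Fin n) ℂ}
    (hE : ∀ c : ℂ, ∀ g ∈ Gal Y, E N c * g * E N (-c) ∈ Gal Y) (htop : φ ⬝ᵥ (N ^ (n - 1) *ᵥ a) ≠ 0)
    {σ lam : ℂ} (hσ : σ ≠ 0) (h0 : φ ⬝ᵥ a = σ) {q : ℕ} (hq : 0 < q) (hlq : lam ^ q = 1) (hl1 : lam ≠ 1)
    (hmem : ∀ k : ℤ, 1 + ((lam ^ k - 1) / σ) • vecMulVec a φ ∈ Gal Y) :
    n * (n - 1) / 2 ≤ Module.finrank ℂ (Lie Y) ∧ (lam ≠ -1 → n * n - 1 ≤ Module.finrank ℂ (Lie Y)) := by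
  obtain ⟨ha, hφ⟩ := top_ne htop
  have hφ0 : φ ≠ 0 := by
    intro h
    apply htop
    rw [h, zero_dotProduct]
  set P := pl N a (lf φ) with hPdef
  have hP : P ≠ 0 := pl_ne hN ha (lf_ne hφ0)
  have hlam0 : lam ≠ 0 := by
    intro h
    rw [h, zero_pow hq.ne'] at hlq
    exact zero_ne_one hlq
  set η : ℂ := (lam - 1) / σ with hη
  have hη0 : η ≠ 0 := div_ne_zero (sub_ne_zero.2 hl1) hσ
  have hPtop : P.coeff (n - 1) ≠ 0 := by
    have h1 := pl_coeff (N := N) a (lf φ) ⟨n - 1, by omega⟩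
    simp only at h1
    rw [hPdef, h1, lf_apply]
    exact div_ne_zero htop (by exact_mod_cast (n - 1).factorial_ne_zero)
  have hPd : P.natDegree = n - 1 := by
    refine le_antisymm ?_ (Polynomial.le_natDegree_of_ne_zero hPtop)
    have := pl_deg (N := N) a (lf φ) (by omega)
    rw [← hPdef] at this
    omega
  -- the polynomials to avoid
  have hcd : ∀ m : ℂ, m ≠ 0 → (P.comp (Polynomial.C m * Polynomial.X)).natDegree = n - 1 := by
    intro m hm
    rw [Polynomial.natDegree_comp, Polynomial.natDegree_C_mul_X _ hm, mul_one, hPd]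
  have hTd : ∀ m : ℂ, m ≠ 0 → (P.comp (Polynomial.C m * Polynomial.X) * P.comp (Polynomial.C (-m) * Polynomial.X)).natDegree ≠ 0 := by
    intro m hm
    rw [Polynomial.natDegree_mul (comp_ne hP hm) (comp_ne hP (neg_ne_zero.2 hm)), hcd m hm, hcd _ (neg_ne_zero.2 hm)]
    omega
  have := countable_unity
  obtain ⟨t, ht⟩ := avoid (ι := {m : ℤ // m ≠ 0} × Option {ζ : ℂ // ∃ k : ℕ, 0 < k ∧ ζ ^ k = 1})
    (fun x => match x.2 with
      | none => P.comp (Polynomial.C (x.1.1 : ℂ) * Polynomial.X)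
      | some ζ => Polynomial.C (ζ.1 ^ 2 - 2 * lam * ζ.1 + lam ^ 2) - Polynomial.C (η ^ 2 * ζ.1) *
        (P.comp (Polynomial.C (x.1.1 : ℂ) * Polynomial.X) * P.comp (Polynomial.C (-(x.1.1 : ℂ)) * Polynomial.X))) (by
    rintro ⟨m, o⟩
    have hm : ((m.1 : ℤ) : ℂ) ≠ 0 := by exact_mod_cast m.2
    rcases o with _ | ζ
    · exact comp_ne hP hm
    · intro h
      have hζ0 : ζ.1 ≠ 0 := by
        intro h1
        obtain ⟨k, hk, hk1⟩ := ζ.2
        rw [h1, zero_pow hk.ne'] at hk1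
        exact zero_ne_one hk1
      have h1 := congrArg Polynomial.natDegree (sub_eq_zero.1 h)
      rw [Polynomial.natDegree_C, Polynomial.natDegree_C_mul (mul_ne_zero (pow_ne_zero _ hη0) hζ0)] at h1
      exact hTd _ hm h1.symm)
  have ht1 : ∀ m : ℤ, m ≠ 0 → P.eval ((m : ℂ) * t) ≠ 0 := fun m hm => by
    have := ht (⟨m, hm⟩, none)
    simpa [Polynomial.eval_comp] using this
  have ht2 : ∀ m : ℤ, m ≠ 0 → ∀ ζ : ℂ, (∃ k : ℕ, 0 < k ∧ ζ ^ k = 1) →
      (ζ ^ 2 - 2 * lam * ζ + lam ^ 2) - η ^ 2 * ζ * (P.eval ((m : ℂ) * t) * P.eval (-(m : ℂ) * t)) ≠ 0 := fun m hm ζ hζ => by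
    have := ht (⟨m, hm⟩, some ⟨ζ, hζ⟩)
    simpa [Polynomial.eval_comp] using this
  have hP0 : P.eval 0 = σ := by
    rw [hPdef, pl_eval, lf_apply, E_zero hN, one_mulVec, h0]
  have ht0 : t ≠ 0 := by
    intro h
    obtain ⟨μ, μ', e1, e2⟩ := two_roots 2 1
    apply ht2 1 one_ne_zero (lam ^ 2) ⟨q, hq, by rw [← pow_mul, mul_comm, pow_mul, hlq, one_pow]⟩
    rw [h, mul_zero, mul_zero, hP0, hη]
    field_simp
    ring
  set c : Fin n → ℂ := fun i => ((i : ℕ) : ℂ) * t with hc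
  have hcinj : Function.Injective c := by
    intro i j hij
    have h1 : ((i : ℕ) : ℂ) = ((j : ℕ) : ℂ) := mul_right_cancel₀ ht0 hij
    exact Fin.ext (by exact_mod_cast h1)
  have hcd' : ∀ i j : Fin n, c j - c i = (((j : ℕ) : ℤ) - ((i : ℕ) : ℤ) : ℤ) * t := by
    intro i j
    rw [hc]
    push_cast
    ring
  have hG : ∀ i j : Fin n, i ≠ j → (VV N φ c * UU N a c) i j ≠ 0 := by
    intro i j hij
    rw [VU_apply hN, hcd', ← hPdef]
    refine ht1 _ ?_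
    intro h2
    exact hij (Fin.ext (by omega))
  have hU : (UU N a c)⁻¹ * UU N a c = 1 := nonsing_inv_mul _ (Ne.isUnit (det_U hN ha hcinj))
  have hV : VV N φ c * (VV N φ c)⁻¹ = 1 := mul_nonsing_inv _ (Ne.isUnit (det_V hN hφ hcinj))
  set l : ℂ := lam - 1 with hl
  have hl0 : l ≠ 0 := sub_ne_zero.2 hl1
  have hl1' : 1 + l = lam := by rw [hl]; ring
  have hX : ∀ i : Fin n, 1 + Xr (UU N a c) (VV N φ c) η i ∈ Gal Y := by
    intro i
    rw [Xr_eq]
    refine conj_refl hN hE ?_ (c i)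
    have := hmem 1
    rw [zpow_one] at this
    exact this
  have hXi : ∀ i : Fin n, 1 - (1 + l)⁻¹ • Xr (UU N a c) (VV N φ c) η i ∈ Gal Y := by
    intro i
    have h1 := conj_refl hN hE (hmem (-1)) (c i)
    rw [Xr_eq, hl1', sub_eq_add_neg, ← neg_smul, smul_smul]
    have e1 : -lam⁻¹ * η = (lam ^ (-1 : ℤ) - 1) / σ := by
      rw [hη, _root_.zpow_neg_one]
      field_simp
      ring
    rw [e1]
    exact h1
  have hXX : ∀ i : Fin n, Xr (UU N a c) (VV N φ c) η i * Xr (UU N a c) (VV N φ c) η i = l • Xr (UU N a c) (VV N φ c) η i := by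
    intro i
    rw [Xr_sq, VU_apply hN, sub_self, ← hPdef, hP0, hη]
    congr 1
    field_simp
  obtain ⟨τ, hτ⟩ : ∃ τ : Fin n → Fin n → ℂ, ∀ i j, τ i j = η ^ 2 * (VV N φ c * UU N a c) i j * (VV N φ c * UU N a c) j i :=
    ⟨_, fun _ _ => rfl⟩
  have hτs : ∀ i j, τ i j = τ j i := by
    intro i j
    rw [hτ, hτ]
    ring
  have h3 : ∀ i j : Fin n, Xr (UU N a c) (VV N φ c) η i * Xr (UU N a c) (VV N φ c) η j * Xr (UU N a c) (VV N φ c) η i =
      τ i j • Xr (UU N a c) (VV N φ c) η i := by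
    intro i j
    rw [hτ, Xr_mul3]
  have hcomm : ∀ i j : Fin n, i ≠ j → Xr (UU N a c) (VV N φ c) η i * Xr (UU N a c) (VV N φ c) η j -
      Xr (UU N a c) (VV N φ c) η j * Xr (UU N a c) (VV N φ c) η i ∈ Lie Y := by
    intro i j hij
    obtain ⟨μ, μ', e1, e2⟩ := two_roots (2 * (1 + l) + τ i j) ((1 + l) ^ 2)
    refine pair_mem (hXX i) (hXX j) (h3 i j) (by rw [hτs]; exact h3 j i) (hX i) (hX j) hq (by rw [hl1']; exact hlq) e1 e2
      fun k hk hk1 => ?_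
    apply ht2 (((j : ℕ) : ℤ) - ((i : ℕ) : ℤ)) (by
      intro h2
      exact hij (Fin.ext (by omega))) μ ⟨k, hk, hk1⟩
    have e3 : τ i j = η ^ 2 * (P.eval ((((j : ℕ) : ℤ) - ((i : ℕ) : ℤ) : ℤ) * t) *
        P.eval (-(((((j : ℕ) : ℤ) - ((i : ℕ) : ℤ) : ℤ)) : ℂ) * t)) := by
      rw [hτ, VU_apply hN, VU_apply hN, hcd', hcd', ← hPdef]
      have e4 : ((((i : ℕ) : ℤ) - ((j : ℕ) : ℤ) : ℤ) : ℂ) * t = -(((((j : ℕ) : ℤ) - ((i : ℕ) : ℤ) : ℤ)) : ℂ) * t := by
        push_cast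
        ring
      rw [e4]
      ring
    rw [hl1'] at e1 e2
    linear_combination μ * e1 - e2 + μ * e3
  constructor
  · rw [← (card_le_pairs n).1]
    exact dim_O hU hV hη0 hG fun i j hij => hcomm i j (ne_of_lt hij)
  · intro hlm
    have hl2 : 2 + l ≠ 0 := by
      intro h
      apply hlm
      rw [hl] at h
      linear_combination h
    have h4 : ∀ i j : Fin n, i ≠ j → l • (Xr (UU N a c) (VV N φ c) η j * Xr (UU N a c) (VV N φ c) η i) -
        τ i j • Xr (UU N a c) (VV N φ c) η i ∈ Lie Y ∧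
        l • (Xr (UU N a c) (VV N φ c) η i * Xr (UU N a c) (VV N φ c) η j) - τ i j • Xr (UU N a c) (VV N φ c) η i ∈ Lie Y :=
      fun i j hij => pair_mem2 (hXX i) (h3 i j) (by rw [hl1']; exact hlam0) hl2 (hX i) (hXi i) (hcomm i j hij)
    rw [← card_ne_pair (⟨0, by omega⟩ : Fin n)]
    refine dim_S hU hV hη0 hG ⟨0, by omega⟩ hl0 τ (fun i hi => ?_) fun i j hij => (h4 i j hij).2
    have h5 := (h4 i ⟨0, by omega⟩ hi).2
    have h6 := (h4 ⟨0, by omega⟩ i (Ne.symm hi)).1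
    have h7 := (Lie Y).sub_mem h6 h5
    have hτ0 : τ i ⟨0, by omega⟩ ≠ 0 := by
      rw [hτ]
      exact mul_ne_zero (mul_ne_zero (pow_ne_zero _ hη0) (hG _ _ hi)) (hG _ _ (Ne.symm hi))
    have h8 := (Lie Y).smul_mem (τ i ⟨0, by omega⟩)⁻¹ h7
    rw [hτs ⟨0, by omega⟩ i] at h8
    convert h8 using 1
    rw [sub_sub_sub_cancel_left, ← smul_sub, smul_smul, inv_mul_cancel₀ hτ0, one_smul]

end Pool.Agent.E8helper53.HGM
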