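import Pool.Agent.E8helper53.HGM.Gen

/-!
# The dimension of the infinitesimal transformations of the hypergeometric system
-/

set_option autoImplicit false

open Filter Topology Matrix

namespace Pool.Agent.E8helper53.HGM

open Pool.Agent.Y119.HY

variable {n : ℕ} {Q : Polynomial ℚ}

lemma uc_last (hn : 1 ≤ n) (a : Fin n → ℂ) : uc n ⬝ᵥ a = a ⟨n - 1, by omega⟩ := by
  unfold dotProduct uc
  rw [Finset.sum_eq_single ⟨n - 1, by omega⟩]
  · rw [if_pos (by simp only; omega), one_mul]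
  · intro b _ hb
    rw [if_neg, zero_mul]
    intro h
    exact hb (Fin.ext (by simp only; omega))
  · intro h
    exact absurd (Finset.mem_univ _) h

lemma top_val (hn : 2 ≤ n) {a φ : Fin n → ℂ} (h1 : φ ⬝ᵥ ec n ≠ 0) (h2 : uc n ⬝ᵥ a ≠ 0) :
    φ ⬝ᵥ (cm (Am n) ^ (n - 1) *ᵥ a) ≠ 0 := by
  rw [Ac_last hn, dotProduct_smul, smul_eq_mul]
  rw [uc_last (by omega)] at h2
  exact mul_ne_zero h2 h1

/-- the expected dimension -/
noncomputable def rk (n : ℕ) (σ : ℚ) : ℕ := by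
  classical
  exact if σ = 0 then n * (n + 1) / 2 else if (∃ m : ℤ, σ = m + 1 / 2) then n * (n - 1) / 2 else n * n - 1

theorem lie_dim (hQ : QG n Q) (hs : Q.coeff (n - 1) = 0 ∨ ∀ m : ℤ, Q.coeff (n - 1) ≠ m) :
    rk n (Q.coeff (n - 1)) ≤ Module.finrank ℂ (Lie (Yf (cm (Am n)) (Hc n Q))) := by
  classical
  have hn := hQ.two
  have hE : ∀ c : ℂ, ∀ g ∈ Gal (Yf (cm (Am n)) (Hc n Q)), E (cm (Am n)) c * g * E (cm (Am n)) (-c) ∈
      Gal (Yf (cm (Am n)) (Hc n Q)) := fun c g hg => conj_E Ac_nil (sol_c' hQ) c g hg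
  unfold rk
  rcases hs with hs | hs
  · rw [if_pos hs]
    obtain ⟨a, φ, h0, h1, h2, h3⟩ := refl_uni hQ hs
    exact lie_uni Ac_nil hE (top_val hn h1 h2) h0 h3
  · obtain ⟨a, φ, h0, h1, h2, h3⟩ := refl_non hQ hs
    obtain ⟨σ, hσ⟩ : ∃ σ : ℚ, σ = Q.coeff (n - 1) := ⟨_, rfl⟩
    rw [← hσ] at hs h0 h3 ⊢
    have hσ0 : (σ : ℂ) ≠ 0 := by
      have := hs 0
      rw [Int.cast_zero] at this
      exact_mod_cast this
    have hσ0' : σ ≠ 0 := by exact_mod_cast hσ0
    rw [if_neg hσ0']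
    set lam : ℂ := Complex.exp (2 * Real.pi * Complex.I * (σ : ℂ)) with hlam
    have hpi : (2 * Real.pi * Complex.I : ℂ) ≠ 0 := Complex.two_pi_I_ne_zero
    have hlq : lam ^ σ.den = 1 := by
      rw [hlam, ← Complex.exp_nat_mul]
      have h4 : (σ.den : ℂ) * (2 * Real.pi * Complex.I * (σ : ℂ)) = ((σ.num : ℤ) : ℂ) * (2 * Real.pi * Complex.I) := by
        have h5 : (σ : ℂ) * (σ.den : ℂ) = ((σ.num : ℤ) : ℂ) := by
          have := Rat.mul_den_eq_num σ
          exact_mod_cast this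
        rw [← h5]
        ring
      rw [h4, Complex.exp_int_mul_two_pi_mul_I]
    have hl1 : lam ≠ 1 := by
      intro h
      obtain ⟨m, hm⟩ := Complex.exp_eq_one_iff.1 h
      apply hs m
      have h4 : (σ : ℂ) = (m : ℂ) := by
        have h5 : (2 * Real.pi * Complex.I : ℂ) * (σ : ℂ) = (2 * Real.pi * Complex.I : ℂ) * (m : ℂ) := by
          rw [hm]
          ring
        exact mul_left_cancel₀ hpi h5
      exact_mod_cast h4
    have h4 := lie_non hn Ac_nil hE (top_val hn h1 h2) hσ0 h0 σ.den_pos hlq hl1 (fun k => by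
      have h5 := h3 k
      have h6 : Complex.exp (2 * Real.pi * Complex.I * (σ : ℂ) * k) = lam ^ k := by
        rw [hlam, ← Complex.exp_int_mul]
        congr 1
        ring
      rw [h6] at h5
      exact h5)
    by_cases hh : ∃ m : ℤ, σ = m + 1 / 2
    · rw [if_pos hh]
      exact h4.1
    · rw [if_neg hh]
      refine h4.2 fun h => hh ?_
      have h5 : Complex.exp (2 * Real.pi * Complex.I * (σ : ℂ) - Real.pi * Complex.I) = 1 := by
        rw [Complex.exp_sub, ← hlam, h, Complex.exp_pi_mul_I, div_self (by norm_num)]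
      obtain ⟨m, hm⟩ := Complex.exp_eq_one_iff.1 h5
      refine ⟨m, ?_⟩
      have h6 : (σ : ℂ) = (m : ℂ) + 1 / 2 := by
        have h7 : (2 * Real.pi * Complex.I : ℂ) * (σ : ℂ) = (2 * Real.pi * Complex.I : ℂ) * ((m : ℂ) + 1 / 2) := by
          linear_combination hm
        exact mul_left_cancel₀ hpi h7
      have h8 : (((σ : ℚ)) : ℂ) = (((m : ℚ) + 1 / 2 : ℚ) : ℂ) := by
        rw [h6]
        push_cast
        ring
      exact_mod_cast h8

end Pool.Agent.E8helper53.HGM
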