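import Pool.Agent.Y119.HY.Gal

/-!
# Local solutions at a point where the residue has rank one and is not nilpotent
-/

set_option autoImplicit false

open Filter Topology Matrix

namespace Pool.Agent.E8helper53.HGM

open Pool.Agent.Y119.HY

variable {n : ℕ}

section alg

variable {N0 : Matrix (Fin n) (Fin n) ℂ} {ρ : ℂ}

/-- the inverse of `κ + D` -/
noncomputable def RP (N0 : Matrix (Fin n) (Fin n) ℂ) (ρ κ : ℂ) (Y : Matrix (Fin n) (Fin n) ℂ) : Matrix (Fin n) (Fin n) ℂ :=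
  κ⁻¹ • ((ρ⁻¹ • N0) * Y * (ρ⁻¹ • N0) + (1 - ρ⁻¹ • N0) * Y * (1 - ρ⁻¹ • N0)) +
    (κ + ρ)⁻¹ • ((1 - ρ⁻¹ • N0) * Y * (ρ⁻¹ • N0)) + (κ - ρ)⁻¹ • ((ρ⁻¹ • N0) * Y * (1 - ρ⁻¹ • N0))

lemma DD_eq (hρ : ρ ≠ 0) (X : Matrix (Fin n) (Fin n) ℂ) : DD N0 X = ρ • (X * (ρ⁻¹ • N0)) - ρ • ((ρ⁻¹ • N0) * X) := by
  rw [DD_apply, mul_smul_comm, smul_mul_assoc, smul_smul, smul_smul, mul_inv_cancel₀ hρ, one_smul, one_smul]

lemma idem (hρ : ρ ≠ 0) (h : N0 * N0 = ρ • N0) : (ρ⁻¹ • N0) * (ρ⁻¹ • N0) = ρ⁻¹ • N0 := by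
  rw [smul_mul_smul_comm, h, smul_smul, mul_assoc, inv_mul_cancel₀ hρ, mul_one]

lemma RP_right (hρ : ρ ≠ 0) (h : N0 * N0 = ρ • N0) {κ : ℂ} (h0 : κ ≠ 0) (h1 : κ + ρ ≠ 0) (h2 : κ - ρ ≠ 0)
    (Y : Matrix (Fin n) (Fin n) ℂ) : κ • RP N0 ρ κ Y + DD N0 (RP N0 ρ κ Y) = Y := by
  have hi := idem hρ h
  rw [DD_eq hρ]
  unfold RP
  generalize (ρ⁻¹ • N0) = P at hi ⊢
  have a1 : ∀ A : Matrix (Fin n) (Fin n) ℂ, P * (P * A) = P * A := fun A => by rw [← mul_assoc, hi]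
  have e : κ • (κ⁻¹ • (P * Y * P + (1 - P) * Y * (1 - P)) + (κ + ρ)⁻¹ • ((1 - P) * Y * P) + (κ - ρ)⁻¹ • (P * Y * (1 - P))) +
      (ρ • ((κ⁻¹ • (P * Y * P + (1 - P) * Y * (1 - P)) + (κ + ρ)⁻¹ • ((1 - P) * Y * P) + (κ - ρ)⁻¹ • (P * Y * (1 - P))) * P) -
      ρ • (P * (κ⁻¹ • (P * Y * P + (1 - P) * Y * (1 - P)) + (κ + ρ)⁻¹ • ((1 - P) * Y * P) + (κ - ρ)⁻¹ • (P * Y * (1 - P))))) =
      (κ * κ⁻¹) • (P * Y * P + (1 - P) * Y * (1 - P)) + ((κ + ρ) * (κ + ρ)⁻¹) • ((1 - P) * Y * P) +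
        ((κ - ρ) * (κ - ρ)⁻¹) • (P * Y * (1 - P)) := by
    simp only [add_mul, mul_add, sub_mul, mul_sub, one_mul, mul_one, mul_smul_comm, smul_mul_assoc, mul_assoc, hi, a1]
    module
  rw [e, mul_inv_cancel₀ h0, mul_inv_cancel₀ h1, mul_inv_cancel₀ h2]
  simp only [sub_mul, mul_sub, one_mul, mul_one, mul_assoc]
  module

lemma RP_left (hρ : ρ ≠ 0) (h : N0 * N0 = ρ • N0) {κ : ℂ} (h0 : κ ≠ 0) (h1 : κ + ρ ≠ 0) (h2 : κ - ρ ≠ 0)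
    (Y : Matrix (Fin n) (Fin n) ℂ) : RP N0 ρ κ (κ • Y + DD N0 Y) = Y := by
  have hi := idem hρ h
  rw [DD_eq hρ]
  unfold RP
  generalize (ρ⁻¹ • N0) = P at hi ⊢
  have a1 : ∀ A : Matrix (Fin n) (Fin n) ℂ, P * (P * A) = P * A := fun A => by rw [← mul_assoc, hi]
  have e : κ⁻¹ • (P * (κ • Y + (ρ • (Y * P) - ρ • (P * Y))) * P + (1 - P) * (κ • Y + (ρ • (Y * P) - ρ • (P * Y))) * (1 - P)) +
      (κ + ρ)⁻¹ • ((1 - P) * (κ • Y + (ρ • (Y * P) - ρ • (P * Y))) * P) +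
      (κ - ρ)⁻¹ • (P * (κ • Y + (ρ • (Y * P) - ρ • (P * Y))) * (1 - P)) =
      (κ * κ⁻¹) • (P * Y * P + (1 - P) * Y * (1 - P)) + ((κ + ρ) * (κ + ρ)⁻¹) • ((1 - P) * Y * P) +
        ((κ - ρ) * (κ - ρ)⁻¹) • (P * Y * (1 - P)) := by
    simp only [add_mul, mul_add, sub_mul, mul_sub, one_mul, mul_one, mul_smul_comm, smul_mul_assoc, mul_assoc, hi, a1]
    module
  rw [e, mul_inv_cancel₀ h0, mul_inv_cancel₀ h1, mul_inv_cancel₀ h2]
  simp only [sub_mul, mul_sub, one_mul, mul_one, mul_assoc]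
  module

/-- existence -/
theorem exists_solp (hρ : ρ ≠ 0) (h : N0 * N0 = ρ • N0) (hk : ∀ k : ℕ, (k : ℂ) + 1 + ρ ≠ 0 ∧ (k : ℂ) + 1 - ρ ≠ 0)
    (N1 : Matrix (Fin n) (Fin n) ℂ) : ∃ H, Sol N0 N1 H := by
  set H : ℕ → Matrix (Fin n) (Fin n) ℂ := fun k => Nat.rec (motive := fun _ => Matrix (Fin n) (Fin n) ℂ) 1
    (fun k X => RP N0 ρ ((k : ℂ) + 1) ((k : ℂ) • X + (X * N0 - N0 * X) + N1 * X)) k with hH
  refine ⟨H, rfl, fun k => ?_⟩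
  have h1 : ((k : ℂ) + 1) ≠ 0 := by exact_mod_cast Nat.succ_ne_zero k
  have h2 : H (k + 1) = RP N0 ρ ((k : ℂ) + 1) ((k : ℂ) • H k + (H k * N0 - N0 * H k) + N1 * H k) := rfl
  have h3 := RP_right hρ h h1 (hk k).1 (hk k).2 ((k : ℂ) • H k + (H k * N0 - N0 * H k) + N1 * H k)
  rw [← h2, DD_apply] at h3
  exact h3

end alg

section growth

attribute [local instance] Matrix.linftyOpNormedAddCommGroup Matrix.linftyOpNormedRing Matrix.linftyOpNormedAlgebra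

variable {N0 : Matrix (Fin n) (Fin n) ℂ} {ρ : ℂ}

lemma inv_bound {δ : ℝ} (hδ : 0 < δ) {κ : ℝ} (hκ : 0 < κ) {r : ℂ} (h : δ ≤ ‖(κ : ℂ) + r‖) :
    ‖((κ : ℂ) + r)⁻¹‖ ≤ (1 + ‖r‖ / δ) / κ := by
  rw [norm_inv, le_div_iff₀ hκ]
  have h0 : 0 < ‖(κ : ℂ) + r‖ := lt_of_lt_of_le hδ h
  have h1 : κ ≤ ‖(κ : ℂ) + r‖ + ‖r‖ := by
    have h2 : ((κ : ℂ) + r) - r = κ := by ring
    have h3 := norm_sub_le ((κ : ℂ) + r) r
    rw [h2, Complex.norm_real, Real.norm_of_nonneg hκ.le] at h3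
    exact h3
  rw [inv_mul_le_iff₀ h0]
  have h4 : ‖r‖ ≤ ‖(κ : ℂ) + r‖ * (‖r‖ / δ) := by
    calc ‖r‖ = δ * (‖r‖ / δ) := by field_simp
      _ ≤ _ := mul_le_mul_of_nonneg_right h (by positivity)
  linarith

lemma RP_norm {δ : ℝ} (hδ : 0 < δ) (hk : ∀ k : ℕ, δ ≤ ‖(k : ℂ) + 1 + ρ‖ ∧ δ ≤ ‖(k : ℂ) + 1 - ρ‖) :
    ∃ K : ℝ, 0 ≤ K ∧ ∀ (k : ℕ) (Y : Matrix (Fin n) (Fin n) ℂ), ‖RP N0 ρ ((k : ℂ) + 1) Y‖ ≤ K / ((k : ℝ) + 1) * ‖Y‖ := by
  set P := ρ⁻¹ • N0 with hP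
  set M : ℝ := max ‖P‖ ‖1 - P‖ with hM
  have hM0 : 0 ≤ M := le_max_of_le_left (norm_nonneg _)
  have hM1 : ‖P‖ ≤ M := le_max_left _ _
  have hM2 : ‖1 - P‖ ≤ M := le_max_right _ _
  have hmul : ∀ A B Y : Matrix (Fin n) (Fin n) ℂ, ‖A‖ ≤ M → ‖B‖ ≤ M → ‖A * Y * B‖ ≤ M * M * ‖Y‖ := by
    intro A B Y hA hB
    calc ‖A * Y * B‖ ≤ ‖A * Y‖ * ‖B‖ := norm_mul_le _ _
      _ ≤ (‖A‖ * ‖Y‖) * ‖B‖ := mul_le_mul_of_nonneg_right (norm_mul_le _ _) (norm_nonneg _)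
      _ ≤ (M * ‖Y‖) * M := mul_le_mul (mul_le_mul_of_nonneg_right hA (norm_nonneg _)) hB (norm_nonneg _) (by positivity)
      _ = _ := by ring
  refine ⟨(4 + 2 * (‖ρ‖ / δ)) * (M * M), by positivity, fun k Y => ?_⟩
  have hkk : (0 : ℝ) < (k : ℝ) + 1 := by positivity
  have e0 : (((k : ℝ) + 1 : ℝ) : ℂ) = (k : ℂ) + 1 := by push_cast; rfl
  have b0 : ‖((k : ℂ) + 1)⁻¹‖ ≤ 1 / ((k : ℝ) + 1) := by
    rw [← e0, norm_inv, Complex.norm_real, Real.norm_of_nonneg hkk.le, one_div]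
  have b1 : ‖((k : ℂ) + 1 + ρ)⁻¹‖ ≤ (1 + ‖ρ‖ / δ) / ((k : ℝ) + 1) := by
    have h1 := inv_bound (r := ρ) hδ hkk (by rw [e0]; exact (hk k).1)
    rw [e0] at h1
    exact h1
  have b2 : ‖((k : ℂ) + 1 - ρ)⁻¹‖ ≤ (1 + ‖ρ‖ / δ) / ((k : ℝ) + 1) := by
    have h1 := inv_bound (r := -ρ) hδ hkk (by rw [e0, ← sub_eq_add_neg]; exact (hk k).2)
    rw [e0, ← sub_eq_add_neg, norm_neg] at h1
    exact h1
  have c0 : ‖P * Y * P + (1 - P) * Y * (1 - P)‖ ≤ 2 * (M * M * ‖Y‖) :=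
    (norm_add_le _ _).trans (by linarith [hmul P P Y hM1 hM1, hmul (1 - P) (1 - P) Y hM2 hM2])
  have c1 := hmul (1 - P) P Y hM2 hM1
  have c2 := hmul P (1 - P) Y hM1 hM2
  unfold RP
  rw [← hP]
  refine (norm_add_le _ _).trans ?_
  have d0 : ‖((k : ℂ) + 1)⁻¹ • (P * Y * P + (1 - P) * Y * (1 - P))‖ ≤ 1 / ((k : ℝ) + 1) * (2 * (M * M * ‖Y‖)) := by
    rw [norm_smul]
    exact mul_le_mul b0 c0 (norm_nonneg _) (by positivity)
  have d1 : ‖((k : ℂ) + 1 + ρ)⁻¹ • ((1 - P) * Y * P)‖ ≤ (1 + ‖ρ‖ / δ) / ((k : ℝ) + 1) * (M * M * ‖Y‖) := by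
    rw [norm_smul]
    exact mul_le_mul b1 c1 (norm_nonneg _) (by positivity)
  have d2 : ‖((k : ℂ) + 1 - ρ)⁻¹ • (P * Y * (1 - P))‖ ≤ (1 + ‖ρ‖ / δ) / ((k : ℝ) + 1) * (M * M * ‖Y‖) := by
    rw [norm_smul]
    exact mul_le_mul b2 c2 (norm_nonneg _) (by positivity)
  have d3 := norm_add_le (((k : ℂ) + 1)⁻¹ • (P * Y * P + (1 - P) * Y * (1 - P))) (((k : ℂ) + 1 + ρ)⁻¹ • ((1 - P) * Y * P))
  calc _ ≤ 1 / ((k : ℝ) + 1) * (2 * (M * M * ‖Y‖)) + (1 + ‖ρ‖ / δ) / ((k : ℝ) + 1) * (M * M * ‖Y‖) +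
        (1 + ‖ρ‖ / δ) / ((k : ℝ) + 1) * (M * M * ‖Y‖) := by linarith
    _ = _ := by field_simp; ring

/-- growth -/
theorem growthp (hρ : ρ ≠ 0) (h : N0 * N0 = ρ • N0) {δ : ℝ} (hδ : 0 < δ)
    (hk : ∀ k : ℕ, δ ≤ ‖(k : ℂ) + 1 + ρ‖ ∧ δ ≤ ‖(k : ℂ) + 1 - ρ‖) {N1 : Matrix (Fin n) (Fin n) ℂ}
    {H : ℕ → Matrix (Fin n) (Fin n) ℂ} (hH : Sol N0 N1 H) (i j : Fin n) : PG fun k => H k i j := by
  obtain ⟨K, hK0, hK⟩ := RP_norm (N0 := N0) (ρ := ρ) (n := n) hδ hk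
  have hk' : ∀ k : ℕ, (k : ℂ) + 1 + ρ ≠ 0 ∧ (k : ℂ) + 1 - ρ ≠ 0 := fun k =>
    ⟨norm_pos_iff.1 (lt_of_lt_of_le hδ (hk k).1), norm_pos_iff.1 (lt_of_lt_of_le hδ (hk k).2)⟩
  set K1 : ℝ := K * ‖N1 - 1‖ with hK1
  have hK10 : 0 ≤ K1 := by positivity
  set q : ℕ := ⌈K1⌉₊ with hq
  have hstep : ∀ k, ‖H (k + 1)‖ ≤ (1 + K1 / ((k : ℝ) + 1)) * ‖H k‖ := by
    intro k
    have h1 : ((k : ℂ) + 1) ≠ 0 := by exact_mod_cast Nat.succ_ne_zero k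
    have h2 : ((k : ℂ) + 1) • (H (k + 1) - H k) + DD N0 (H (k + 1) - H k) = (N1 - 1) * H k := by
      have h3 := hH.step k
      rw [DD_apply, sub_mul, mul_sub, sub_mul, one_mul]
      have h4 : ((k : ℂ) + 1) • (H (k + 1) - H k) = ((k : ℂ) + 1) • H (k + 1) - ((k : ℂ) • H k + H k) := by
        rw [smul_sub, add_smul (k : ℂ) 1 (H k), one_smul]
      rw [h4]
      calc _ = (((k : ℂ) + 1) • H (k + 1) + (H (k + 1) * N0 - N0 * H (k + 1))) - (k : ℂ) • H k - H k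
            - (H k * N0 - N0 * H k) := by abel
        _ = _ := by rw [h3]; abel
    have h5 := RP_left hρ h h1 (hk' k).1 (hk' k).2 (H (k + 1) - H k)
    rw [h2] at h5
    have h6 : ‖H (k + 1) - H k‖ ≤ K1 / ((k : ℝ) + 1) * ‖H k‖ := by
      rw [← h5]
      refine (hK k _).trans ?_
      calc K / ((k : ℝ) + 1) * ‖(N1 - 1) * H k‖ ≤ K / ((k : ℝ) + 1) * (‖N1 - 1‖ * ‖H k‖) :=
            mul_le_mul_of_nonneg_left (norm_mul_le _ _) (by positivity)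
        _ = _ := by rw [hK1]; ring
    calc ‖H (k + 1)‖ = ‖H k + (H (k + 1) - H k)‖ := by rw [add_sub_cancel]
      _ ≤ ‖H k‖ + ‖H (k + 1) - H k‖ := norm_add_le _ _
      _ ≤ _ := by linarith
  have hbd : ∀ k : ℕ, ‖H k‖ ≤ ‖H 0‖ * ((k : ℝ) + 1) ^ q := by
    intro k
    induction k with
    | zero => simp
    | succ k ih =>
      have hk : (0 : ℝ) < (k : ℝ) + 1 := by positivity
      have h1 : 1 + K1 / ((k : ℝ) + 1) ≤ (1 + 1 / ((k : ℝ) + 1)) ^ q := by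
        have h2 := one_add_mul_le_pow (a := 1 / ((k : ℝ) + 1)) (by have : (0 : ℝ) ≤ 1 / ((k : ℝ) + 1) := by positivity
                                                                   linarith) q
        refine le_trans ?_ h2
        have : K1 ≤ q := Nat.le_ceil _
        rw [mul_one_div]
        gcongr
      calc ‖H (k + 1)‖ ≤ (1 + K1 / ((k : ℝ) + 1)) * ‖H k‖ := hstep k
        _ ≤ (1 + 1 / ((k : ℝ) + 1)) ^ q * (‖H 0‖ * ((k : ℝ) + 1) ^ q) :=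
          mul_le_mul h1 ih (norm_nonneg _) (by positivity)
        _ = ‖H 0‖ * ((1 + 1 / ((k : ℝ) + 1)) * ((k : ℝ) + 1)) ^ q := by rw [mul_pow]; ring
        _ = ‖H 0‖ * (((k + 1 : ℕ) : ℝ) + 1) ^ q := by
          congr 2
          push_cast
          field_simp
  exact ⟨‖H 0‖, q, fun k => (entry_le _ i j).trans (hbd k)⟩

end growth

variable {N0 N1 : Matrix (Fin n) (Fin n) ℂ} {H : ℕ → Matrix (Fin n) (Fin n) ℂ} {ρ : ℂ}

lemma Hf_an' (hg : ∀ i j, PG fun k => H k i j) (i j : Fin n) :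
    AnalyticOnNhd ℂ (fun z => Hf H z i j) (Metric.ball 0 1) := ps_an (hg i j)

lemma Hf_ode' (hH : Sol N0 N1 H) (hg : ∀ i j, PG fun k => H k i j) {z : ℂ} (hz : ‖z‖ < 1) (hz0 : z ≠ 0) :
    HD (Hf H) ((1 / z) • (N0 * Hf H z - Hf H z * N0) + (1 / (1 - z)) • (N1 * Hf H z)) z := by
  intro i j
  have hd : HasDerivAt (ps fun k => H k i j) (deriv (ps fun k => H k i j) z) z :=
    ((ps_an (hg i j)) z (by rwa [Metric.mem_ball, dist_zero_right])).differentiableAt.hasDerivAt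
  have h1z : (1 - z) ≠ 0 := by
    intro h0
    have : z = 1 := (sub_eq_zero.1 h0).symm
    rw [this, norm_one] at hz
    exact lt_irrefl _ hz
  refine hd.congr_deriv ?_
  -- the sequences
  have hgl : PG fun k => (N0 * H k) i j := by
    simp only [Matrix.mul_apply]
    exact PG.sum _ fun l _ => (hg l j).smul _
  have hgr : PG fun k => (H k * N0) i j := by
    simp only [Matrix.mul_apply]
    refine PG.sum _ fun l _ => ?_
    simp only [mul_comm (H _ i l)]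
    exact (hg i l).smul _
  have hg1 : PG fun k => (N1 * H k) i j := by
    simp only [Matrix.mul_apply]
    exact PG.sum _ fun l _ => (hg l j).smul _
  have el : ps (fun k => (N0 * H k) i j) z = (N0 * Hf H z) i j := by
    simp only [Matrix.mul_apply]
    rw [ps_sum _ (fun l _ => (hg l j).smul _) hz]
    exact Finset.sum_congr rfl fun l _ => ps_smul _ _
  have er : ps (fun k => (H k * N0) i j) z = (Hf H z * N0) i j := by
    simp only [Matrix.mul_apply, mul_comm (H _ i _)]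
    rw [ps_sum _ (fun l _ => (hg i l).smul _) hz]
    refine Finset.sum_congr rfl fun l _ => ?_
    rw [ps_smul, mul_comm]
    rfl
  have e1 : ps (fun k => (N1 * H k) i j) z = (N1 * Hf H z) i j := by
    simp only [Matrix.mul_apply]
    rw [ps_sum _ (fun l _ => (hg l j).smul _) hz]
    exact Finset.sum_congr rfl fun l _ => ps_smul _ _
  set D : ℕ → ℂ := fun k => (k : ℂ) * H k i j + ((H k * N0) i j + (-1) * (N0 * H k) i j) with hD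
  have hDg : PG D := (hg i j).nat.add (hgr.add (hgl.smul (-1)))
  have eD : ps D z = z * deriv (ps fun k => H k i j) z + ((Hf H z * N0) i j - (N0 * Hf H z) i j) := by
    rw [hD, ps_add (hg i j).nat (hgr.add (hgl.smul (-1))) hz, ps_add hgr (hgl.smul (-1)) hz, ps_smul, el, er,
      ← ps_deriv (hg i j) hz]
    ring
  have hD0 : D 0 = 0 := by
    rw [hD]
    simp only
    rw [hH.zero]
    simp
  have hDs : ∀ k, D (k + 1) = D k + (N1 * H k) i j := by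
    intro k
    have := congrFun (congrFun (hH.step k) i) j
    simp only [Matrix.add_apply, Matrix.smul_apply, Matrix.sub_apply, smul_eq_mul] at this
    rw [hD]
    simp only
    push_cast
    linear_combination this
  have hfin : ps D z = z * (ps D z + (N1 * Hf H z) i j) := by
    conv_lhs => rw [ps_shift hDg hz, hD0, zero_add]
    congr 1
    simp only [hDs]
    rw [ps_add hDg hg1 hz, e1]
  simp only [Matrix.add_apply, Matrix.smul_apply, Matrix.sub_apply, smul_eq_mul]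
  rw [eD] at hfin
  have h2 : (1 - z) * (z * deriv (ps fun k => H k i j) z + ((Hf H z * N0) i j - (N0 * Hf H z) i j)) =
      z * (N1 * Hf H z) i j := by linear_combination hfin
  field_simp
  linear_combination h2

/-- the factor `z ^ N0`, with a parameter `t = z ^ ρ` -/
noncomputable def Wt (N0 : Matrix (Fin n) (Fin n) ℂ) (ρ t : ℂ) : Matrix (Fin n) (Fin n) ℂ :=
  (1 - ρ⁻¹ • N0) + t • (ρ⁻¹ • N0)

lemma Wt_mul (hρ : ρ ≠ 0) {N0 : Matrix (Fin n) (Fin n) ℂ} (h : N0 * N0 = ρ • N0) (s t : ℂ) :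
    Wt N0 ρ s * Wt N0 ρ t = Wt N0 ρ (s * t) := by
  have hi := idem hρ h
  unfold Wt
  generalize (ρ⁻¹ • N0) = P at hi ⊢
  simp only [add_mul, mul_add, sub_mul, mul_sub, one_mul, mul_one, mul_smul_comm, smul_mul_assoc, hi]
  module

lemma Wt_one (N0 : Matrix (Fin n) (Fin n) ℂ) (ρ : ℂ) : Wt N0 ρ 1 = 1 := by
  unfold Wt
  rw [one_smul, sub_add_cancel]

/-- the local solution -/
noncomputable def Zf (N0 : Matrix (Fin n) (Fin n) ℂ) (ρ : ℂ) (H : ℕ → Matrix (Fin n) (Fin n) ℂ) (z : ℂ) :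
    Matrix (Fin n) (Fin n) ℂ := Hf H z * Wt N0 ρ (Complex.exp (ρ * Complex.log z))

theorem Zf_ode (hρ : ρ ≠ 0) (h : N0 * N0 = ρ • N0) (hH : Sol N0 N1 H) (hg : ∀ i j, PG fun k => H k i j) {z : ℂ}
    (hz : ‖z‖ < 1) (hz0 : z ∈ Complex.slitPlane) : HD (Zf N0 ρ H) (Gm N0 N1 z * Zf N0 ρ H z) z := by
  have hz0' : z ≠ 0 := Complex.slitPlane_ne_zero hz0
  have h1 := Hf_ode' hH hg hz hz0'
  have h2 : HD (fun w => Wt N0 ρ (Complex.exp (ρ * Complex.log w)))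
      (z⁻¹ • (N0 * Wt N0 ρ (Complex.exp (ρ * Complex.log z)))) z := by
    intro i j
    have h3 : HasDerivAt (fun w => Complex.exp (ρ * Complex.log w)) (Complex.exp (ρ * Complex.log z) * (ρ * z⁻¹)) z :=
      ((Complex.hasDerivAt_log hz0).const_mul ρ).cexp
    have h4 := (h3.mul_const ((ρ⁻¹ • N0) i j)).const_add ((1 - ρ⁻¹ • N0) i j)
    refine h4.congr_deriv ?_
    have h5 : N0 * Wt N0 ρ (Complex.exp (ρ * Complex.log z)) = Complex.exp (ρ * Complex.log z) • N0 := by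
      unfold Wt
      have e1 : N0 * (ρ⁻¹ • N0) = N0 := by rw [mul_smul_comm, h, smul_smul, inv_mul_cancel₀ hρ, one_smul]
      rw [mul_add, mul_sub, mul_one, e1, sub_self, zero_add, mul_smul_comm, e1]
    rw [h5]
    simp only [Matrix.smul_apply, smul_eq_mul]
    field_simp
  refine (h1.mul h2).congr ?_
  unfold Gm Zf
  simp only [add_mul, smul_mul_assoc, sub_mul, mul_smul_comm, Matrix.mul_assoc, smul_sub, one_div]
  abel

end Pool.Agent.E8helper53.HGM
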