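import Pool.Agent.E8helper53.HGM.Sys

/-!
# The pseudo-reflection
-/

set_option autoImplicit false

open Filter Topology Matrix

namespace Pool.Agent.E8helper53.HGM

open Pool.Agent.Y119.HY

variable {n : ℕ} {Q : Polynomial ℚ}

lemma E_fix' {N : Matrix (Fin n) (Fin n) ℂ} {e : Fin n → ℂ} (he : N *ᵥ e = 0) (s : ℂ) : E N s *ᵥ e = e := by
  rcases n with _ | m
  · exact Subsingleton.elim _ _
  unfold E
  rw [Matrix.sum_mulVec, Finset.sum_range_succ']
  have h1 : ∀ i ∈ Finset.range m, ((s ^ (i + 1) / ((i + 1).factorial : ℂ)) • N ^ (i + 1)) *ᵥ e = 0 := by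
    intro i _
    rw [smul_mulVec, pow_succ N, ← mulVec_mulVec, he, mulVec_zero, smul_zero]
  rw [Finset.sum_eq_zero h1, zero_add, pow_zero, pow_zero, Nat.factorial_zero, Nat.cast_one, div_one, one_smul, one_mulVec]

/-- the derivative of a determinant -/
lemma HD_det {M : ℂ → Matrix (Fin n) (Fin n) ℂ} {M' : Matrix (Fin n) (Fin n) ℂ} {z : ℂ} (h : HD M M' z) :
    HasDerivAt (fun w => (M w).det) ((M z).adjugate * M').trace z := by
  have h2 : ∀ σ : Equiv.Perm (Fin n), HasDerivAt (fun t => ∏ i, M t (σ i) i)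
      (∑ i, (∏ j ∈ Finset.univ.erase i, M z (σ j) j) • M' (σ i) i) z := fun σ =>
    HasDerivAt.fun_finsetProd (u := Finset.univ) (f := fun i t => M t (σ i) i)
      (f' := fun i => M' (σ i) i) (fun i _ => h (σ i) i)
  have h3 : HasDerivAt (fun t => ∑ σ : Equiv.Perm (Fin n), ((Equiv.Perm.sign σ : ℤ) : ℂ) * ∏ i, M t (σ i) i)
      (∑ σ : Equiv.Perm (Fin n), ((Equiv.Perm.sign σ : ℤ) : ℂ) *
        ∑ i, (∏ j ∈ Finset.univ.erase i, M z (σ j) j) • M' (σ i) i) z :=
    HasDerivAt.fun_sum (fun σ _ => (h2 σ).const_mul _)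
  have h4 : (∑ σ : Equiv.Perm (Fin n), ((Equiv.Perm.sign σ : ℤ) : ℂ) *
        ∑ i, (∏ j ∈ Finset.univ.erase i, M z (σ j) j) • M' (σ i) i) = ((M z).adjugate * M').trace := by
    have h5 : ((M z).adjugate * M').trace = ∑ j, ((M z).updateCol j (fun i => M' i j)).det := by
      rw [Matrix.trace]
      refine Finset.sum_congr rfl fun j _ => ?_
      rw [← Matrix.cramer_apply, Matrix.cramer_eq_adjugate_mulVec]
      simp [Matrix.mulVec, dotProduct, Matrix.mul_apply]
    rw [h5]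
    simp only [Matrix.det_apply', Finset.mul_sum]
    rw [Finset.sum_comm]
    refine Finset.sum_congr rfl fun j _ => Finset.sum_congr rfl fun σ _ => ?_
    congr 1
    rw [← Finset.mul_prod_erase Finset.univ _ (Finset.mem_univ j)]
    simp only [Matrix.updateCol_self]
    rw [smul_eq_mul, mul_comm]
    congr 1
    refine Finset.prod_congr rfl fun i hi => ?_
    rw [Matrix.updateCol_ne (Finset.ne_of_mem_erase hi)]
  rw [h4] at h3
  refine h3.congr_of_eventuallyEq ?_
  filter_upwards with t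
  rw [Matrix.det_apply']

lemma an_det {M : ℂ → Matrix (Fin n) (Fin n) ℂ} {U : Set ℂ} (h : ∀ i j, AnalyticOnNhd ℂ (fun z => M z i j) U) :
    AnalyticOnNhd ℂ (fun z => (M z).det) U := by
  simp only [Matrix.det_apply']
  refine Finset.analyticOnNhd_fun_sum _ fun σ _ => AnalyticOnNhd.mul analyticOnNhd_const ?_
  exact Finset.analyticOnNhd_fun_prod _ fun i _ => h (σ i) i

lemma an_adj {M : ℂ → Matrix (Fin n) (Fin n) ℂ} {U : Set ℂ} (h : ∀ i j, AnalyticOnNhd ℂ (fun z => M z i j) U) (i j : Fin n) :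
    AnalyticOnNhd ℂ (fun z => (M z).adjugate i j) U := by
  simp only [Matrix.adjugate_apply]
  refine an_det fun a b => ?_
  by_cases ha : a = j
  · subst ha
    simp only [Matrix.updateRow_self]
    exact analyticOnNhd_const
  · simp only [Matrix.updateRow_ne ha]
    exact h a b

/-- the determinant of the holomorphic part -/
theorem det_one' {N0 N1 : Matrix (Fin n) (Fin n) ℂ} {K : ℕ → Matrix (Fin n) (Fin n) ℂ} (hK : Sol N0 N1 K)
    (hg : ∀ i j, PG fun k => K k i j) (ht : N1.trace = 0) {z : ℂ} (hz : z ∈ Metric.ball (0 : ℂ) 1) : (Hf K z).det = 1 := by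
  have han : AnalyticOnNhd ℂ (fun z => (Hf K z).det) (Metric.ball 0 1) := an_det (Hf_an' hg)
  have h0 : (0 : ℂ) ∈ Metric.ball (0 : ℂ) 1 := Metric.mem_ball_self one_pos
  have hd : ∀ w ∈ Metric.ball (0 : ℂ) 1, w ≠ 0 → deriv (fun z => (Hf K z).det) w = 0 := by
    intro w hw hw0
    rw [Metric.mem_ball, dist_zero_right] at hw
    rw [(HD_det (Hf_ode' hK hg hw hw0)).deriv]
    rw [mul_add, Matrix.mul_smul, Matrix.mul_smul, trace_add, trace_smul, trace_smul, mul_sub, trace_sub]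
    have e1 : ∀ N : Matrix (Fin n) (Fin n) ℂ, ((Hf K w).adjugate * (N * Hf K w)).trace = (Hf K w).det * N.trace := by
      intro N
      rw [← Matrix.mul_assoc, trace_mul_comm, ← Matrix.mul_assoc, Matrix.mul_adjugate, smul_mul_assoc, one_mul, trace_smul,
        smul_eq_mul]
    have e2 : ((Hf K w).adjugate * (Hf K w * N0)).trace = (Hf K w).det * N0.trace := by
      rw [← Matrix.mul_assoc, Matrix.adjugate_mul, smul_mul_assoc, one_mul, trace_smul, smul_eq_mul]
    rw [e1, e2, e1, ht]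
    simp
  have hd0 : ∀ w ∈ Metric.ball (0 : ℂ) 1, deriv (fun z => (Hf K z).det) w = 0 := by
    have h1 := han.deriv.eqOn_zero_of_preconnected_of_frequently_eq_zero (convex_ball _ _).isPreconnected h0 (by
      refine Filter.Eventually.frequently ?_
      have h2 : ∀ᶠ w in 𝓝[≠] (0 : ℂ), w ∈ Metric.ball (0 : ℂ) 1 := nhdsWithin_le_nhds (Metric.isOpen_ball.mem_nhds h0)
      filter_upwards [h2, self_mem_nhdsWithin] with w hw hw0
      exact hd w hw hw0)
    exact fun w hw => h1 hw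
  have h1 := Metric.isOpen_ball.is_const_of_deriv_eq_zero (convex_ball (0 : ℂ) 1).isPreconnected
    (fun w hw => (han w hw).differentiableAt.differentiableWithinAt) hd0 hz h0
  rw [h1]
  have h2 : Hf K 0 = 1 := by
    ext i j
    show ps (fun k => K k i j) 0 = _
    rw [ps_zero, hK.zero]
  rw [h2, det_one]

lemma Am_trace (n : ℕ) : (-(cm (Am n))).trace = 0 := by
  rw [trace_neg, neg_eq_zero, Matrix.trace]
  refine Finset.sum_eq_zero fun i _ => ?_
  rw [diag_apply, cm_apply]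
  unfold Am
  rw [Matrix.of_apply, if_neg (by omega)]
  simp

/-- the holomorphic solution is singular at `1` -/
theorem cyc_phi (hQ : QG n Q) {K : ℕ → Matrix (Fin n) (Fin n) ℂ} (hg : ∀ i j, PG fun k => K k i j)
    {Wf : ℂ → Matrix (Fin n) (Fin n) ℂ} {M : Matrix (Fin n) (Fin n) ℂ}
    (hW : ∀ w (v : Fin n → ℂ), cm (Bm n Q) *ᵥ v = 0 → Wf w *ᵥ v = v)
    (hY : ∀ z ∈ Lens, Yf (cm (Am n)) (Hc n Q) z = Hf K (1 - z) * Wf (1 - z) * M) :
    (qc n Q ᵥ* M) ⬝ᵥ ec n ≠ 0 := by
  intro h0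
  have hn := hQ.two
  have h1 : cm (Bm n Q) *ᵥ (M *ᵥ ec n) = 0 := by
    rw [Bm_vec, vecMulVec_mulVec]
    rw [← dotProduct_mulVec] at h0
    rw [h0]
    simp
  refine sing' hQ (fun z => (Hf K (1 - z) *ᵥ (M *ᵥ ec n)) ⟨0, by omega⟩) ?_ fun z hz => ?_
  · simp only [Matrix.mulVec, dotProduct]
    refine Finset.analyticOnNhd_fun_sum _ fun j _ => AnalyticOnNhd.mul ?_ analyticOnNhd_const
    intro z hz
    have h3 : AnalyticAt ℂ (fun w => Hf K w ⟨0, by omega⟩ j) (1 - z) := Hf_an' hg ⟨0, by omega⟩ j (1 - z) (by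
      rw [Metric.mem_ball, dist_comm, dist_eq_norm] at hz
      rwa [Metric.mem_ball, dist_zero_right])
    have h4 : AnalyticAt ℂ (fun w : ℂ => 1 - w) z := analyticAt_const.sub analyticAt_id
    exact h3.fun_comp h4
  · have h3 := congrArg (fun X : Matrix (Fin n) (Fin n) ℂ => X *ᵥ ec n) (hY z hz)
    unfold Yf at h3
    rw [← mulVec_mulVec, E_fix' (Ac_ec n), ← mulVec_mulVec, ← mulVec_mulVec, hW _ _ h1] at h3
    rw [← first_col hQ z, h3]

/-- the dual statement -/
theorem cyc_a (hQ : QG n Q) {K : ℕ → Matrix (Fin n) (Fin n) ℂ} (hg : ∀ i j, PG fun k => K k i j)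
    (hK : Sol (-(cm (Bm n Q))) (-(cm (Am n))) K)
    {Wf : ℂ → Matrix (Fin n) (Fin n) ℂ} {M Mi : Matrix (Fin n) (Fin n) ℂ} (hMi : Mi * M = 1)
    (hW : ∀ w (v : Fin n → ℂ), v ᵥ* cm (Bm n Q) = 0 → v ᵥ* Wf w = v)
    (hY : ∀ z ∈ Lens, Yf (cm (Am n)) (Hc n Q) z = Hf K (1 - z) * Wf (1 - z) * M) :
    uc n ⬝ᵥ (Mi *ᵥ uc n) ≠ 0 := by
  intro h0
  have hn := hQ.two
  obtain ⟨G, hG⟩ := exists_sol (nil_dual (Ac_nil (n := n))) (-(cm (Bm n Q)).transpose)
  set u : Fin n → ℂ := uc n ᵥ* Mi with hu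
  have h1 : u ᵥ* cm (Bm n Q) = 0 := by
    rw [Bm_vec, vecMul_vecMulVec, hu, ← dotProduct_mulVec, h0, zero_smul]
  have hdet : ∀ w ∈ Metric.ball (0 : ℂ) 1, (Hf K w).det = 1 := fun w hw => det_one' hK hg (Am_trace n) hw
  have hadj : ∀ w ∈ Metric.ball (0 : ℂ) 1, (Hf K w).adjugate * Hf K w = 1 := fun w hw => by
    rw [Matrix.adjugate_mul, hdet w hw, one_smul]
  refine dual_sing hQ hG (fun z => (u ᵥ* (Hf K (1 - z)).adjugate) ⟨0, by omega⟩) ?_ fun z hz => ?_
  · simp only [Matrix.vecMul, dotProduct]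
    refine Finset.analyticOnNhd_fun_sum _ fun j _ => AnalyticOnNhd.mul analyticOnNhd_const ?_
    intro z hz
    have h3 : AnalyticAt ℂ (fun w => (Hf K w).adjugate j ⟨0, by omega⟩) (1 - z) :=
      an_adj (Hf_an' hg) j ⟨0, by omega⟩ (1 - z) (by
        rw [Metric.mem_ball, dist_comm, dist_eq_norm] at hz
        rwa [Metric.mem_ball, dist_zero_right])
    have h4 : AnalyticAt ℂ (fun w : ℂ => 1 - w) z := analyticAt_const.sub analyticAt_id
    exact h3.fun_comp h4
  · have hz' : 1 - z ∈ Metric.ball (0 : ℂ) 1 := by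
      rw [Metric.mem_ball, dist_zero_right]
      exact (mem_Lens.1 hz).2
    have e1 := dual_pair Ac_nil (sol_c' hQ) hG hz
    have e2 : Yf (cm (Am n)) (Hc n Q) z * (Yf (-(cm (Am n)).transpose) G z).transpose = 1 := mul_eq_one_comm.1 e1
    have e3 : u ᵥ* (Hf K (1 - z)).adjugate ᵥ* Yf (cm (Am n)) (Hc n Q) z = uc n := by
      rw [hY z hz, vecMul_vecMul, ← Matrix.mul_assoc, ← Matrix.mul_assoc, hadj _ hz', one_mul, ← vecMul_vecMul, hW _ _ h1, hu,
        vecMul_vecMul, hMi, vecMul_one]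
    have e4 : u ᵥ* (Hf K (1 - z)).adjugate = uc n ᵥ* (Yf (-(cm (Am n)).transpose) G z).transpose := by
      generalize u ᵥ* (Hf K (1 - z)).adjugate = w at e3
      rw [← e3, vecMul_vecMul, e2, vecMul_one]
    have e5 : (-(cm (Am n)).transpose) *ᵥ uc n = 0 := by
      rw [neg_mulVec]
      have : (cm (Am n)).transpose *ᵥ uc n = 0 := by
        funext i
        rw [mv_apply]
        unfold uc
        refine Finset.sum_eq_zero fun j _ => ?_
        split_ifs with h
        · rw [transpose_apply, cm_apply]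
          unfold Am
          rw [Matrix.of_apply, if_neg (by have := i.2; omega)]
          simp
        · simp
      rw [this, neg_zero]
    have e6 : uc n ᵥ* (Yf (-(cm (Am n)).transpose) G z).transpose = Hf G z *ᵥ uc n := by
      rw [vecMul_transpose]
      unfold Yf
      rw [← mulVec_mulVec, E_fix' e5]
    rw [e4, e6]

end Pool.Agent.E8helper53.HGM
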