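import Pool.Agent.E8helper53.HGM.Mem

/-!
# The pseudo-reflection, existence
-/

set_option autoImplicit false

open Filter Topology Matrix

namespace Pool.Agent.E8helper53.HGM

open Pool.Agent.Y119.HY

variable {n : ℕ} {Q : Polynomial ℚ}

lemma vec_sandwich (Mi M : Matrix (Fin n) (Fin n) ℂ) (u q : Fin n → ℂ) :
    Mi * vecMulVec u q * M = vecMulVec (Mi *ᵥ u) (q ᵥ* M) := by
  rw [Matrix.mul_vecMulVec, Matrix.vecMulVec_mul]

/-- change of variable -/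
lemma flip_HD {A B : Matrix (Fin n) (Fin n) ℂ} {Z : ℂ → Matrix (Fin n) (Fin n) ℂ} {z : ℂ}
    (h1 : HD Z (Gm (-B) (-A) (1 - z) * Z (1 - z)) (1 - z)) : HD (fun w => Z (1 - w)) (Gm A B z * Z (1 - z)) z := by
  have h2 : HasDerivAt (fun w : ℂ => 1 - w) (-1) z := by
    simpa using (hasDerivAt_id z).const_sub 1
  refine (h1.comp h2).congr ?_
  rw [← smul_mul_assoc]
  congr 1
  unfold Gm
  rw [sub_sub_cancel, smul_neg, smul_neg]
  rw [← neg_add, neg_smul, one_smul, neg_neg, add_comm]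

/-- the unipotent case -/
theorem refl_uni (hQ : QG n Q) (hs : Q.coeff (n - 1) = 0) : ∃ a φ : Fin n → ℂ, φ ⬝ᵥ a = 0 ∧ φ ⬝ᵥ ec n ≠ 0 ∧
    uc n ⬝ᵥ a ≠ 0 ∧ ∀ c : ℂ, 1 + c • vecMulVec a φ ∈ Gal (Yf (cm (Am n)) (Hc n Q)) := by
  have hn := hQ.two
  have hB2 : cm (Bm n Q) * cm (Bm n Q) = 0 := by
    rw [Bc_sq (by omega) Q, hs]
    simp
  have hBn : (-(cm (Bm n Q))) ^ n = 0 := by
    have h1 : (-(cm (Bm n Q))) ^ 2 = 0 := by rw [pow_two, neg_mul_neg, hB2]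
    exact pow_eq_zero_of_le hn h1
  obtain ⟨K, hK⟩ := exists_sol hBn (-(cm (Am n)))
  have hg := hK.growth hBn
  obtain ⟨x₀, hx0, hx1, hu⟩ := small_inv (Hf_zero hK) hg
  have hdetE : ∀ s : ℂ, IsUnit (E (-(cm (Bm n Q))) s).det := by
    intro s
    refine isUnit_iff_exists_inv.2 ⟨(E (-(cm (Bm n Q))) (-s)).det, ?_⟩
    rw [← det_mul, E_mul_neg hBn, det_one]
  have huZ : IsUnit (Yf (-(cm (Bm n Q))) K (1 - (x₀ : ℂ))).det := by
    unfold Yf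
    rw [det_mul]
    exact hu.mul (hdetE _)
  obtain ⟨M, Mi, hM, hMi, hY⟩ := connect' Ac_nil (sol_c' hQ) (Z := fun z => Yf (-(cm (Bm n Q))) K (1 - z)) (fun z hz => by
    have hz' := symm_Lens hz
    exact flip_HD (Yf_ode hK hBn (mem_Lens.1 hz').1 (slit_Lens hz'))) (real_mem_Lens hx0 hx1) huZ
  refine ⟨Mi *ᵥ uc n, qc n Q ᵥ* M, ?_, ?_, ?_, fun c => ?_⟩
  · rw [← dotProduct_mulVec, mulVec_mulVec, hM, one_mulVec, qc_uc (by omega), hs]
    simp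
  · refine cyc_phi hQ hg (Wf := fun w => E (-(cm (Bm n Q))) (Complex.log w)) (fun w v hv => ?_) fun z hz => hY z hz
    refine E_fix' ?_ _
    rw [neg_mulVec, hv, neg_zero]
  · refine cyc_a hQ hg hK hMi (Wf := fun w => E (-(cm (Bm n Q))) (Complex.log w)) (fun w v hv => ?_) fun z hz => hY z hz
    have h1 : E (-(cm (Bm n Q))).transpose (Complex.log w) *ᵥ v = v := by
      refine E_fix' ?_ _
      rw [transpose_neg, neg_mulVec, mulVec_transpose, hv, neg_zero]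
    rw [E_transpose, mulVec_transpose] at h1
    exact h1
  · have h1 := conj_mem_Gal hBn hK (Y := Yf (cm (Am n)) (Hc n Q)) hM (fun x hx hx1 => hY x (real_mem_Lens hx hx1)) (-c)
    have h2 : E (-(cm (Bm n Q))) (-c) = 1 + c • cm (Bm n Q) := by
      have h3 : n = (n - 2) + 1 + 1 := by omega
      unfold E
      have h4 : Finset.range n = Finset.range ((n - 2) + 1 + 1) := by rw [← h3]
      rw [h4, Finset.sum_range_succ', Finset.sum_range_succ', Finset.sum_eq_zero, zero_add]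
      · simp
        rw [add_comm]
      · intro i _
        have h5 : (-(cm (Bm n Q))) ^ (i + 1 + 1) = 0 := by
          rw [pow_succ, pow_succ, Matrix.mul_assoc, neg_mul_neg, hB2, Matrix.mul_zero]
        rw [h5, smul_zero]
    rw [h2, mul_add, mul_one, add_mul, hMi, mul_smul_comm, smul_mul_assoc, Bm_vec, vec_sandwich] at h1
    exact h1

/-- the case of a pseudo-reflection which is not unipotent -/
theorem refl_non (hQ : QG n Q) (hs : ∀ m : ℤ, Q.coeff (n - 1) ≠ m) : ∃ a φ : Fin n → ℂ,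
    φ ⬝ᵥ a = ((Q.coeff (n - 1) : ℚ) : ℂ) ∧ φ ⬝ᵥ ec n ≠ 0 ∧ uc n ⬝ᵥ a ≠ 0 ∧
    ∀ k : ℤ, 1 + ((Complex.exp (2 * Real.pi * Complex.I * ((Q.coeff (n - 1) : ℚ) : ℂ) * k) - 1) /
      ((Q.coeff (n - 1) : ℚ) : ℂ)) • vecMulVec a φ ∈ Gal (Yf (cm (Am n)) (Hc n Q)) := by
  have hn := hQ.two
  obtain ⟨σ, hσ⟩ : ∃ σ : ℚ, σ = Q.coeff (n - 1) := ⟨_, rfl⟩
  rw [← hσ] at hs ⊢
  have hσ0 : (σ : ℂ) ≠ 0 := by
    have := hs 0
    rw [Int.cast_zero] at this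
    exact_mod_cast this
  have hρ0 : (((-σ : ℚ)) : ℂ) ≠ 0 := by
    push_cast
    exact neg_ne_zero.2 hσ0
  have hN2 : (-(cm (Bm n Q))) * (-(cm (Bm n Q))) = (((-σ : ℚ)) : ℂ) • (-(cm (Bm n Q))) := by
    rw [neg_mul_neg, Bc_sq (by omega) Q, ← hσ]
    push_cast
    rw [neg_smul_neg]
  -- the distance to the integers
  have hδ : ∀ m : ℤ, (1 / (σ.den : ℝ)) ≤ ‖(m : ℂ) + (σ : ℂ)‖ := by
    intro m
    have h1 : (m : ℚ) + σ ≠ 0 := by
      intro h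
      apply hs (-m)
      push_cast
      linarith
    have h2 : (m : ℂ) + (σ : ℂ) = (((m : ℚ) + σ : ℚ) : ℂ) := by push_cast; rfl
    have hd : (0 : ℝ) < (σ.den : ℝ) := by exact_mod_cast σ.den_pos
    rw [h2, Complex.norm_ratCast, div_le_iff₀ hd]
    have h3 : ((m : ℚ) + σ) * σ.den = ((m * σ.den + σ.num : ℤ) : ℚ) := by
      rw [add_mul, Rat.mul_den_eq_num]
      push_cast
      rfl
    have h4 : (m * σ.den + σ.num : ℤ) ≠ 0 := by
      intro h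
      rw [h, Int.cast_zero] at h3
      rcases mul_eq_zero.1 h3 with h5 | h5
      · exact h1 h5
      · exact σ.den_pos.ne' (by exact_mod_cast h5)
    have h5 : (1 : ℤ) ≤ |m * σ.den + σ.num| := Int.one_le_abs h4
    have h6 : |((((m : ℚ) + σ : ℚ)) : ℝ)| * (σ.den : ℝ) = |((m * σ.den + σ.num : ℤ) : ℝ)| := by
      rw [← abs_of_pos hd, ← abs_mul]
      congr 1
      exact_mod_cast h3
    rw [h6]
    exact_mod_cast h5
  have hd : (0 : ℝ) < (1 / (σ.den : ℝ)) := by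
    have : (0 : ℝ) < (σ.den : ℝ) := by exact_mod_cast σ.den_pos
    positivity
  have hk : ∀ k : ℕ, (1 / (σ.den : ℝ)) ≤ ‖(k : ℂ) + 1 + ((-σ : ℚ) : ℂ)‖ ∧
      (1 / (σ.den : ℝ)) ≤ ‖(k : ℂ) + 1 - ((-σ : ℚ) : ℂ)‖ := by
    intro k
    constructor
    · have h1 := hδ (-(k + 1))
      have h2 : (((-((k : ℤ) + 1) : ℤ)) : ℂ) + (σ : ℂ) = -((k : ℂ) + 1 + ((-σ : ℚ) : ℂ)) := by push_cast; ring
      rw [h2, norm_neg] at h1
      exact h1
    · have h1 := hδ (k + 1)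
      have h2 : ((((k : ℤ) + 1 : ℤ)) : ℂ) + (σ : ℂ) = ((k : ℂ) + 1 - ((-σ : ℚ) : ℂ)) := by push_cast; ring
      rw [h2] at h1
      exact h1
  have hk' : ∀ k : ℕ, (k : ℂ) + 1 + ((-σ : ℚ) : ℂ) ≠ 0 ∧ (k : ℂ) + 1 - ((-σ : ℚ) : ℂ) ≠ 0 := fun k =>
    ⟨norm_pos_iff.1 (lt_of_lt_of_le hd (hk k).1), norm_pos_iff.1 (lt_of_lt_of_le hd (hk k).2)⟩
  obtain ⟨K, hK⟩ := exists_solp hρ0 hN2 hk' (-(cm (Am n)))
  have hg := growthp hρ0 hN2 hd hk hK
  have hK0 : Hf K 0 = 1 := by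
    ext i j
    show ps (fun k => K k i j) 0 = _
    rw [ps_zero, hK.zero]
  obtain ⟨x₀, hx0, hx1, hu⟩ := small_inv hK0 hg
  have hdetW : ∀ s : ℂ, s ≠ 0 → IsUnit (Wt (-(cm (Bm n Q))) ((-σ : ℚ) : ℂ) s).det := by
    intro s hs
    refine isUnit_iff_exists_inv.2 ⟨(Wt (-(cm (Bm n Q))) ((-σ : ℚ) : ℂ) s⁻¹).det, ?_⟩
    rw [← det_mul, Wt_mul hρ0 hN2, mul_inv_cancel₀ hs, Wt_one, det_one]
  have huZ : IsUnit (Zf (-(cm (Bm n Q))) ((-σ : ℚ) : ℂ) K (1 - (x₀ : ℂ))).det := by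
    unfold Zf
    rw [det_mul]
    exact hu.mul (hdetW _ (Complex.exp_ne_zero _))
  obtain ⟨M, Mi, hM, hMi, hY⟩ := connect' Ac_nil (sol_c' hQ) (Z := fun z => Zf (-(cm (Bm n Q))) ((-σ : ℚ) : ℂ) K (1 - z))
    (fun z hz => by
      have hz' := symm_Lens hz
      exact flip_HD (Zf_ode hρ0 hN2 hK hg (mem_Lens.1 hz').1 (slit_Lens hz'))) (real_mem_Lens hx0 hx1) huZ
  refine ⟨Mi *ᵥ uc n, qc n Q ᵥ* M, ?_, ?_, ?_, fun k => ?_⟩
  · rw [← dotProduct_mulVec, mulVec_mulVec, hM, one_mulVec, qc_uc (by omega), hσ]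
  · refine cyc_phi hQ hg (Wf := fun w => Wt (-(cm (Bm n Q))) ((-σ : ℚ) : ℂ) (Complex.exp (((-σ : ℚ) : ℂ) * Complex.log w)))
      (fun w v hv => ?_) fun z hz => hY z hz
    unfold Wt
    rw [add_mulVec, sub_mulVec, one_mulVec, smul_mulVec, smul_mulVec, smul_mulVec, neg_mulVec, hv]
    simp
  · refine cyc_a hQ hg hK hMi (Wf := fun w => Wt (-(cm (Bm n Q))) ((-σ : ℚ) : ℂ)
      (Complex.exp (((-σ : ℚ) : ℂ) * Complex.log w))) (fun w v hv => ?_) fun z hz => hY z hz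
    unfold Wt
    rw [vecMul_add, vecMul_sub, vecMul_one, vecMul_smul, vecMul_smul, vecMul_smul, vecMul_neg, hv]
    simp
  · have h1 := refl_mem hρ0 hN2 hg (Y := Yf (cm (Am n)) (Hc n Q)) hM (fun x hx hx1 => hY x (real_mem_Lens hx hx1)) (-k)
    have h2 : Wt (-(cm (Bm n Q))) ((-σ : ℚ) : ℂ) (Complex.exp (2 * Real.pi * Complex.I * ((-σ : ℚ) : ℂ) * ((-k : ℤ) : ℂ))) =
        1 + ((Complex.exp (2 * Real.pi * Complex.I * (σ : ℂ) * k) - 1) / (σ : ℂ)) • cm (Bm n Q) := by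
      have e1 : (2 * Real.pi * Complex.I * ((-σ : ℚ) : ℂ) * ((-k : ℤ) : ℂ)) = 2 * Real.pi * Complex.I * (σ : ℂ) * k := by
        push_cast
        ring
      rw [e1]
      unfold Wt
      have e2 : (((-σ : ℚ) : ℂ))⁻¹ • (-(cm (Bm n Q))) = (σ : ℂ)⁻¹ • cm (Bm n Q) := by
        push_cast
        rw [inv_neg, neg_smul_neg]
      rw [e2, div_eq_mul_inv]
      module
    rw [h2, mul_add, mul_one, add_mul, hMi, mul_smul_comm, smul_mul_assoc, Bm_vec, vec_sandwich] at h1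
    exact h1

end Pool.Agent.E8helper53.HGM
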