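import Pool.Agent.E8helper53.HGM.Der

/-!
# Pairs of pseudo-reflections
-/

set_option autoImplicit false

open Filter Topology Matrix Polynomial

namespace Pool.Agent.E8helper53.HGM

open Pool.Agent.Y119.HY

variable {n : ℕ}

/-- evaluation along `X₀ + w X₁ + w⁻¹ X₂` is a Laurent polynomial in `w` -/
lemma laurent (P : MvPolynomial (Vr n) ℂ) (z L : ℂ) (X₀ X₁ X₂ : Matrix (Fin n) (Fin n) ℂ) :
    ∃ (D : ℕ) (p : ℂ[X]), ∀ w : ℂ, w ≠ 0 → ev P z L (X₀ + w • X₁ + w⁻¹ • X₂) * w ^ D = p.eval w := by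
  induction P using MvPolynomial.induction_on with
  | C a =>
    refine ⟨0, C a, fun w _ => ?_⟩
    unfold ev
    simp
  | add p q hp hq =>
    obtain ⟨D₁, p₁, h₁⟩ := hp
    obtain ⟨D₂, p₂, h₂⟩ := hq
    refine ⟨D₁ + D₂, p₁ * X ^ D₂ + p₂ * X ^ D₁, fun w hw => ?_⟩
    have e : ev (p + q) z L (X₀ + w • X₁ + w⁻¹ • X₂) = ev p z L (X₀ + w • X₁ + w⁻¹ • X₂) +
        ev q z L (X₀ + w • X₁ + w⁻¹ • X₂) := by
      unfold ev
      rw [map_add]
    rw [e, eval_add, eval_mul, eval_mul, eval_pow, eval_pow, eval_X, ← h₁ w hw, ← h₂ w hw]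
    ring
  | mul_X p i hp =>
    obtain ⟨D₁, p₁, h₁⟩ := hp
    have e : ∀ Y : Matrix (Fin n) (Fin n) ℂ, ev (p * MvPolynomial.X i) z L Y = ev p z L Y * pt z L Y i := by
      intro Y
      unfold ev
      rw [map_mul, MvPolynomial.eval_X]
    rcases i with _ | _ | x
    · refine ⟨D₁, p₁ * C z, fun w hw => ?_⟩
      rw [e, eval_mul, ← h₁ w hw, eval_C]
      simp only [pt, Option.elim_none]
      ring
    · refine ⟨D₁, p₁ * C L, fun w hw => ?_⟩
      rw [e, eval_mul, ← h₁ w hw, eval_C]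
      simp only [pt, Option.elim_none, Option.elim_some]
      ring
    · refine ⟨D₁ + 1, p₁ * (C (X₀ x.1 x.2) * X + C (X₁ x.1 x.2) * X ^ 2 + C (X₂ x.1 x.2)), fun w hw => ?_⟩
      rw [e, eval_mul, ← h₁ w hw]
      simp only [pt, Option.elim_some, Matrix.add_apply, Matrix.smul_apply, smul_eq_mul, eval_add, eval_mul, eval_C,
        eval_X, eval_pow]
      rw [pow_succ]
      field_simp

/-- one parameter groups from the powers of one element -/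
lemma one_param {Y : ℂ → Matrix (Fin n) (Fin n) ℂ} {X₀ X₁ X₂ : Matrix (Fin n) (Fin n) ℂ} {ν : ℂ} (hν0 : ν ≠ 0)
    (hν : ∀ k : ℕ, 0 < k → ν ^ k ≠ 1) (h : ∀ k : ℕ, X₀ + (ν ^ k) • X₁ + (ν ^ k)⁻¹ • X₂ ∈ Gal Y) (w : ℂ) (hw : w ≠ 0) :
    X₀ + w • X₁ + w⁻¹ • X₂ ∈ Gal Y := by
  intro P hP x hx hx1
  obtain ⟨D, p, hp⟩ := laurent P (x : ℂ) (Complex.log x) (Y (x : ℂ) * X₀) (Y (x : ℂ) * X₁) (Y (x : ℂ) * X₂)
  have e : ∀ w : ℂ, Y (x : ℂ) * (X₀ + w • X₁ + w⁻¹ • X₂) = Y (x : ℂ) * X₀ + w • (Y (x : ℂ) * X₁) + w⁻¹ • (Y (x : ℂ) * X₂) := by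
    intro w
    rw [mul_add, mul_add, mul_smul_comm, mul_smul_comm]
  have hinj : Function.Injective fun k : ℕ => ν ^ k := by
    intro a b hab
    simp only at hab
    rcases lt_trichotomy a b with h1 | h1 | h1
    · exfalso
      apply hν (b - a) (by omega)
      have h2 : ν ^ a * ν ^ (b - a) = ν ^ a * 1 := by rw [← pow_add, Nat.add_sub_cancel' h1.le, mul_one, hab]
      exact mul_left_cancel₀ (pow_ne_zero _ hν0) h2
    · exact h1
    · exfalso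
      apply hν (a - b) (by omega)
      have h2 : ν ^ b * ν ^ (a - b) = ν ^ b * 1 := by rw [← pow_add, Nat.add_sub_cancel' h1.le, mul_one, hab]
      exact mul_left_cancel₀ (pow_ne_zero _ hν0) h2
  have hp0 : p = 0 := by
    refine Polynomial.eq_zero_of_infinite_isRoot p (Set.Infinite.mono ?_ (Set.infinite_range_of_injective hinj))
    rintro _ ⟨k, rfl⟩
    show p.eval (ν ^ k) = 0
    rw [← hp _ (pow_ne_zero _ hν0), ← e]
    rw [h k P hP x hx hx1, zero_mul]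
  have h1 := hp w hw
  rw [hp0, eval_zero, ← e] at h1
  exact (mul_eq_zero.1 h1).resolve_right (pow_ne_zero _ hw)

/-- **Two pseudo-reflections.** -/
theorem pair_aux {Y : ℂ → Matrix (Fin n) (Fin n) ℂ} {X Z : Matrix (Fin n) (Fin n) ℂ} {l τ μ μ' : ℂ} {q : ℕ}
    (hXX : X * X = l • X) (hZZ : Z * Z = l • Z) (hXZX : X * Z * X = τ • X) (hZXZ : Z * X * Z = τ • Z)
    (hX : 1 + X ∈ Gal Y) (hZ : 1 + Z ∈ Gal Y) (hq : 0 < q) (hl : (1 + l) ^ q = 1)
    (hs : μ + μ' = 2 * (1 + l) + τ) (hd : μ * μ' = (1 + l) ^ 2) (hμ : ∀ k : ℕ, 0 < k → μ ^ k ≠ 1) :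
    (2 - (μ + μ')) • ((l ^ 2 - τ)⁻¹ • (l • (X + Z) - X * Z - Z * X)) + (2 : ℂ) • (X + Z + X * Z) ∈ Lie Y := by
  have hl0 : (1 + l) ≠ 0 := by
    intro h0
    rw [h0, zero_pow hq.ne'] at hl
    exact zero_ne_one hl
  have hμ0 : μ ≠ 0 := by
    intro h0
    rw [h0, zero_mul] at hd
    exact pow_ne_zero 2 hl0 hd.symm
  have hμ'0 : μ' ≠ 0 := by
    intro h0
    rw [h0, mul_zero] at hd
    exact pow_ne_zero 2 hl0 hd.symm
  have hl2 : ((1 + l) ^ 2) ^ q = 1 := by rw [← pow_mul, mul_comm, pow_mul, hl, one_pow]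
  have hμq : ∀ k : ℕ, (μ ^ q) ^ k * (μ' ^ q) ^ k = 1 := by
    intro k
    rw [← mul_pow, ← mul_pow, hd, hl2, one_pow]
  have hμ1 : μ ≠ 1 := fun h => hμ 1 one_pos (by rw [h, one_pow])
  have hμ'1 : μ' ≠ 1 := by
    intro h
    apply hμ q hq
    have h1 := hμq 1
    rw [h, one_pow, one_pow, mul_one, pow_one] at h1
    exact h1
  have hne : μ - μ' ≠ 0 := by
    intro h
    have h1 : μ = μ' := sub_eq_zero.1 h
    have h2 := hμq 1
    rw [← h1, pow_one, ← pow_add] at h2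
    exact hμ (q + q) (by omega) h2
  have hm0 : l ^ 2 - τ ≠ 0 := by
    intro h
    have h1 : (1 - μ) * (1 - μ') = 0 := by linear_combination h - hs + hd
    rcases mul_eq_zero.1 h1 with h2 | h2
    · exact hμ1 (sub_eq_zero.1 h2).symm
    · exact hμ'1 (sub_eq_zero.1 h2).symm
  set R : Matrix (Fin n) (Fin n) ℂ := (l ^ 2 - τ)⁻¹ • (l • (X + Z) - X * Z - Z * X) with hR
  set G : Matrix (Fin n) (Fin n) ℂ := X + Z + X * Z with hG
  have a1 : ∀ A : Matrix (Fin n) (Fin n) ℂ, X * (X * A) = l • (X * A) := fun A => by rw [← mul_assoc, hXX, smul_mul_assoc]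
  have a2 : ∀ A : Matrix (Fin n) (Fin n) ℂ, Z * (Z * A) = l • (Z * A) := fun A => by rw [← mul_assoc, hZZ, smul_mul_assoc]
  have a3 : X * (Z * X) = τ • X := by rw [← mul_assoc, hXZX]
  have a4 : Z * (X * Z) = τ • Z := by rw [← mul_assoc, hZXZ]
  -- `G R = G` and `R = l R' ...`
  have hGR : G * R = G := by
    have h1 : G * (l • (X + Z) - X * Z - Z * X) = (l ^ 2 - τ) • G := by
      rw [hG]
      simp only [mul_add, add_mul, mul_sub, mul_smul_comm, mul_assoc, hXX, hZZ, a1, a2, a3, a4]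
      module
    rw [hR, mul_smul_comm, h1, smul_smul, inv_mul_cancel₀ hm0, one_smul]
  have hGG : G * G = (μ + μ' - 2) • G - (l ^ 2 - τ) • R := by
    rw [hR, smul_smul, mul_inv_cancel₀ hm0, one_smul, hs, hG]
    simp only [mul_add, add_mul, mul_smul_comm, mul_assoc, hXX, hZZ, a1, a2, a3, a4]
    module
  obtain ⟨Pp, hPp⟩ : ∃ A : Matrix (Fin n) (Fin n) ℂ, A = (μ - μ')⁻¹ • ((1 - μ') • R + G) := ⟨_, rfl⟩
  obtain ⟨Pm, hPm⟩ : ∃ A : Matrix (Fin n) (Fin n) ℂ, A = -((μ - μ')⁻¹ • ((1 - μ) • R + G)) := ⟨_, rfl⟩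
  have hgP : (1 + G) * Pp = μ • Pp := by
    have h1 : (1 + G) * ((1 - μ') • R + G) = μ • ((1 - μ') • R + G) := by
      rw [add_mul, one_mul, mul_add, mul_smul_comm, hGR, hGG]
      have h2 : l ^ 2 - τ = (1 - μ) * (1 - μ') := by linear_combination hs - hd
      rw [h2]
      module
    rw [hPp, mul_smul_comm, h1, smul_comm]
  have hgM : (1 + G) * Pm = μ' • Pm := by
    have h1 : (1 + G) * ((1 - μ) • R + G) = μ' • ((1 - μ) • R + G) := by
      rw [add_mul, one_mul, mul_add, mul_smul_comm, hGR, hGG]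
      have h2 : l ^ 2 - τ = (1 - μ) * (1 - μ') := by linear_combination hs - hd
      rw [h2]
      module
    rw [hPm, mul_neg, mul_smul_comm, h1, smul_neg, smul_comm]
  have hg1 : 1 + G = 1 + (μ - 1) • Pp + (μ' - 1) • Pm := by
    have h1 : G = (μ - 1) • Pp + (μ' - 1) • Pm := by
      rw [hPp, hPm]
      have h2 : (μ - 1) • (μ - μ')⁻¹ • ((1 - μ') • R + G) + (μ' - 1) • -((μ - μ')⁻¹ • ((1 - μ) • R + G)) =
          ((μ - μ')⁻¹ * (μ - μ')) • G := by module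
      rw [h2, inv_mul_cancel₀ hne, one_smul]
    rw [add_assoc, ← h1]
  have hpow : ∀ k : ℕ, (1 + G) ^ k = 1 + (μ ^ k - 1) • Pp + (μ' ^ k - 1) • Pm := by
    intro k
    induction k with
    | zero => simp
    | succ k ih =>
      rw [pow_succ', ih, mul_add, mul_add, mul_one, mul_smul_comm, mul_smul_comm, hgP, hgM]
      nth_rewrite 1 [hg1]
      module
  have hgmem : (1 + G) ∈ Gal Y := by
    have h1 : 1 + G = (1 + X) * (1 + Z) := by
      rw [hG, add_mul, one_mul, mul_add, mul_one]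
      abel
    rw [h1]
    exact (Gal Y).mul_mem hX hZ
  have hfam : ∀ w : ℂ, w ≠ 0 → (1 - Pp - Pm) + w • Pp + w⁻¹ • Pm ∈ Gal Y := by
    refine one_param (ν := μ ^ q) (pow_ne_zero _ hμ0) (fun k hk => ?_) fun k => ?_
    · rw [← pow_mul]
      exact hμ _ (Nat.mul_pos hq hk)
    · have h1 := (Gal Y).pow_mem hgmem (q * k)
      rw [hpow, pow_mul, pow_mul] at h1
      have h2 : (μ' ^ q) ^ k = ((μ ^ q) ^ k)⁻¹ := by
        rw [eq_comm, inv_eq_iff_eq_inv, ← one_div, eq_div_iff (pow_ne_zero _ (pow_ne_zero _ hμ'0))]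
        exact hμq k
      rw [h2] at h1
      convert h1 using 1
      module
  -- the derivative
  have hHD : HD (fun w : ℂ => (1 - Pp - Pm) + w • Pp + w⁻¹ • Pm) (Pp - Pm) 1 := by
    intro i j
    have h1 : HasDerivAt (fun w : ℂ => (1 - Pp - Pm) i j + w * Pp i j + w⁻¹ * Pm i j) (Pp i j - Pm i j) 1 := by
      have h2 := (((hasDerivAt_id (1 : ℂ)).mul_const (Pp i j)).const_add ((1 - Pp - Pm) i j)).add
        ((hasDerivAt_inv (one_ne_zero : (1 : ℂ) ≠ 0)).mul_const (Pm i j))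
      refine h2.congr_deriv ?_
      simp
      ring
    exact h1
  have hmem : Pp - Pm ∈ Lie Y := by
    refine curve_mem hHD ?_ ?_
    · rw [inv_one, one_smul, one_smul]
      abel
    · filter_upwards [isOpen_ne.mem_nhds (one_ne_zero : (1 : ℂ) ≠ 0)] with w hw
      exact hfam w hw
  have h1 : (μ - μ') • (Pp - Pm) = (2 - (μ + μ')) • R + (2 : ℂ) • G := by
    have h2 : (μ - μ') • (Pp - Pm) = ((μ - μ') * (μ - μ')⁻¹) • ((2 - (μ + μ')) • R + (2 : ℂ) • G) := by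
      rw [hPp, hPm]
      module
    rw [h2, mul_inv_cancel₀ hne, one_smul]
  rw [← h1]
  exact (Lie Y).smul_mem _ hmem

/-- **Two pseudo-reflections, the commutator.** -/
theorem pair_mem {Y : ℂ → Matrix (Fin n) (Fin n) ℂ} {X Z : Matrix (Fin n) (Fin n) ℂ} {l τ μ μ' : ℂ} {q : ℕ}
    (hXX : X * X = l • X) (hZZ : Z * Z = l • Z) (hXZX : X * Z * X = τ • X) (hZXZ : Z * X * Z = τ • Z)
    (hX : 1 + X ∈ Gal Y) (hZ : 1 + Z ∈ Gal Y) (hq : 0 < q) (hl : (1 + l) ^ q = 1)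
    (hs : μ + μ' = 2 * (1 + l) + τ) (hd : μ * μ' = (1 + l) ^ 2) (hμ : ∀ k : ℕ, 0 < k → μ ^ k ≠ 1) :
    X * Z - Z * X ∈ Lie Y := by
  have h1 := pair_aux hXX hZZ hXZX hZXZ hX hZ hq hl hs hd hμ
  have h2 := pair_aux hZZ hXX hZXZ hXZX hZ hX hq hl hs hd hμ
  have h3 := (Lie Y).smul_mem (1 / 2 : ℂ) ((Lie Y).sub_mem h1 h2)
  convert h3 using 1
  module

/-- the conjugate of the commutator -/
theorem pair_mem2 {Y : ℂ → Matrix (Fin n) (Fin n) ℂ} {X Z : Matrix (Fin n) (Fin n) ℂ} {l τ : ℂ}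
    (hXX : X * X = l • X) (hXZX : X * Z * X = τ • X) (hl0 : 1 + l ≠ 0) (hl2 : 2 + l ≠ 0)
    (hX : 1 + X ∈ Gal Y) (hXi : 1 - (1 + l)⁻¹ • X ∈ Gal Y) (hmem : X * Z - Z * X ∈ Lie Y) :
    l • (Z * X) - τ • X ∈ Lie Y ∧ l • (X * Z) - τ • X ∈ Lie Y := by
  have a1 : ∀ A : Matrix (Fin n) (Fin n) ℂ, X * (X * A) = l • (X * A) := fun A => by rw [← mul_assoc, hXX, smul_mul_assoc]
  have a3 : X * (Z * X) = τ • X := by rw [← mul_assoc, hXZX]
  have hinv : (1 + X) * (1 - (1 + l)⁻¹ • X) = 1 := by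
    rw [mul_sub, mul_one, mul_smul_comm, add_mul, one_mul, hXX]
    have h1 : (1 : Matrix (Fin n) (Fin n) ℂ) + X - (1 + l)⁻¹ • (X + l • X) = 1 + (1 - (1 + l)⁻¹ * (1 + l)) • X := by module
    rw [h1, inv_mul_cancel₀ hl0, sub_self, zero_smul, add_zero]
  have h1 := conj_mem_Lie hX hXi hinv hmem
  have h2 : (1 + X) * (X * Z - Z * X) * (1 - (1 + l)⁻¹ • X) =
      (1 + l) • (X * Z) - (1 + l)⁻¹ • (Z * X) - (τ * (1 + (1 + l)⁻¹)) • X := by
    have e1 : (1 + X) * (X * Z - Z * X) * (1 - (1 + l)⁻¹ • X) = (1 + l) • (X * Z) - (1 - l * (1 + l)⁻¹) • (Z * X) -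
        (τ + τ * ((1 + l) * (1 + l)⁻¹ - l * (1 + l)⁻¹)) • X := by
      simp only [mul_add, add_mul, mul_sub, sub_mul, mul_smul_comm, smul_mul_assoc, mul_assoc, hXX, a1, a3, mul_one, one_mul]
      module
    have e2 : 1 - l * (1 + l)⁻¹ = (1 + l)⁻¹ := by field_simp; ring
    rw [e1, mul_inv_cancel₀ hl0, e2]
    module
  rw [h2] at h1
  have h3 := (Lie Y).sub_mem h1 ((Lie Y).smul_mem (1 + l) hmem)
  have h4 : (1 + l) • (X * Z) - (1 + l)⁻¹ • (Z * X) - (τ * (1 + (1 + l)⁻¹)) • X - (1 + l) • (X * Z - Z * X) =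
      ((1 + (1 + l)⁻¹)) • (l • (Z * X) - τ • X) := by
    have e1 : (1 + l) - (1 + l)⁻¹ = (1 + (1 + l)⁻¹) * l := by field_simp; ring
    have e2 : (1 + l) • (X * Z) - (1 + l)⁻¹ • (Z * X) - (τ * (1 + (1 + l)⁻¹)) • X - (1 + l) • (X * Z - Z * X) =
      ((1 + l) - (1 + l)⁻¹) • (Z * X) - (τ * (1 + (1 + l)⁻¹)) • X := by module
    rw [e2, e1]
    module
  rw [h4] at h3
  have hne : 1 + (1 + l)⁻¹ ≠ 0 := by
    intro h
    apply hl2
    field_simp at h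
    linear_combination h
  have h5 := (Lie Y).smul_mem (1 + (1 + l)⁻¹)⁻¹ h3
  rw [smul_smul, inv_mul_cancel₀ hne, one_smul] at h5
  refine ⟨h5, ?_⟩
  have h6 := (Lie Y).add_mem h5 ((Lie Y).smul_mem l hmem)
  convert h6 using 1
  module

end Pool.Agent.E8helper53.HGM
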