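import Pool.Agent.E8helper53.HGM.LieD
import Pool.Agent.Y37.GF.PS

/-!
# The transcendence degree of the entries of the holomorphic solution
-/

set_option autoImplicit false

open Filter Topology Matrix

namespace Pool.Agent.E8helper53.HGM

open Pool.Agent.Y119.HY

variable {n d : ℕ}

/-! ### evaluation of convergent power series -/

/-- a nonzero power series does not vanish at small positive numbers -/
lemma small_ne {F : PowerSeries ℚ} (hF : F ≠ 0) {r : ℝ} (hr : 0 < r) (h : Y37.GF.SR r F) :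
    ∃ x : ℝ, 0 < x ∧ x ≤ r ∧ Y37.GF.E F x ≠ 0 := by
  classical
  have h1 : ∃ k, PowerSeries.coeff k F ≠ 0 := by
    by_contra hcon
    push Not at hcon
    exact hF (PowerSeries.ext fun k => by simpa using hcon k)
  set k := Nat.find h1 with hk
  have hk1 : PowerSeries.coeff k F ≠ 0 := Nat.find_spec h1
  have hk2 : ∀ m < k, PowerSeries.coeff m F = 0 := fun m hm => by
    have := Nat.find_min h1 hm
    push Not at this
    exact this
  set A : ℝ := ∑' m : ℕ, |((PowerSeries.coeff m F : ℚ) : ℝ)| * r ^ m with hA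
  have hA0 : 0 ≤ A := tsum_nonneg fun m => by positivity
  set f : ℝ := |((PowerSeries.coeff k F : ℚ) : ℝ)| with hf
  have hf0 : 0 < f := abs_pos.2 (by exact_mod_cast hk1)
  obtain ⟨x, hx0, hx1⟩ := exists_between (show (0 : ℝ) < min r (f * r ^ (k + 1) / (A + 1)) from lt_min hr (by positivity))
  have hxr : x ≤ r := (hx1.trans_le (min_le_left _ _)).le
  have hxA : x * (A + 1) < f * r ^ (k + 1) := by
    have := hx1.trans_le (min_le_right _ _)
    rwa [lt_div_iff₀ (by positivity)] at this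
  refine ⟨x, hx0, hxr, fun h0 => ?_⟩
  have hsx : Summable fun m : ℕ => ((PowerSeries.coeff m F : ℚ) : ℝ) * x ^ m := h.summ (by rwa [abs_of_pos hx0])
  have h2 : Y37.GF.E F x = ((PowerSeries.coeff k F : ℚ) : ℝ) * x ^ k +
      ∑' m : ℕ, ((PowerSeries.coeff (m + (k + 1)) F : ℚ) : ℝ) * x ^ (m + (k + 1)) := by
    unfold Y37.GF.E
    rw [← hsx.sum_add_tsum_nat_add (k + 1), Finset.sum_range_succ, Finset.sum_eq_zero, zero_add]
    intro m hm
    rw [hk2 m (Finset.mem_range.1 hm)]
    simp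
  have h3 : ‖∑' m : ℕ, ((PowerSeries.coeff (m + (k + 1)) F : ℚ) : ℝ) * x ^ (m + (k + 1))‖ ≤ (x / r) ^ (k + 1) * A := by
    have hs : Summable fun m : ℕ => |((PowerSeries.coeff m F : ℚ) : ℝ)| * r ^ m := h
    have hs1 : Summable fun m : ℕ => |((PowerSeries.coeff (m + (k + 1)) F : ℚ) : ℝ)| * r ^ (m + (k + 1)) :=
      (summable_nat_add_iff (k + 1)).2 hs
    have hs2 := hs1.mul_left ((x / r) ^ (k + 1))
    have hb : ∀ m : ℕ, ‖((PowerSeries.coeff (m + (k + 1)) F : ℚ) : ℝ) * x ^ (m + (k + 1))‖ ≤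
        (x / r) ^ (k + 1) * (|((PowerSeries.coeff (m + (k + 1)) F : ℚ) : ℝ)| * r ^ (m + (k + 1))) := by
      intro m
      rw [norm_mul, Real.norm_eq_abs, norm_pow, Real.norm_of_nonneg hx0.le, ← mul_assoc, mul_comm ((x / r) ^ (k + 1)), mul_assoc]
      refine mul_le_mul_of_nonneg_left ?_ (abs_nonneg _)
      rw [div_pow, pow_add x m (k + 1), pow_add r m (k + 1)]
      have e1 : x ^ (k + 1) / r ^ (k + 1) * (r ^ m * r ^ (k + 1)) = x ^ (k + 1) * r ^ m := by
        field_simp
      rw [e1, mul_comm]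
      exact mul_le_mul_of_nonneg_left (pow_le_pow_left₀ hx0.le hxr m) (by positivity)
    refine (tsum_of_norm_bounded hs2.hasSum hb).trans ?_
    rw [tsum_mul_left]
    refine mul_le_mul_of_nonneg_left ?_ (by positivity)
    have h4 := hs.sum_add_tsum_nat_add (k + 1)
    have h5 : 0 ≤ ∑ i ∈ Finset.range (k + 1), |((PowerSeries.coeff i F : ℚ) : ℝ)| * r ^ i :=
      Finset.sum_nonneg fun i _ => by positivity
    rw [hA]
    linarith
  rw [h2] at h0
  have h4 : ‖((PowerSeries.coeff k F : ℚ) : ℝ) * x ^ k‖ ≤ (x / r) ^ (k + 1) * A := by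
    have : ((PowerSeries.coeff k F : ℚ) : ℝ) * x ^ k =
      -∑' m : ℕ, ((PowerSeries.coeff (m + (k + 1)) F : ℚ) : ℝ) * x ^ (m + (k + 1)) := by linarith
    rw [this, norm_neg]
    exact h3
  rw [norm_mul, Real.norm_eq_abs, norm_pow, Real.norm_of_nonneg hx0.le, ← hf, div_pow, div_mul_eq_mul_div,
    le_div_iff₀ (by positivity), pow_succ x k] at h4
  have h5 : f * r ^ (k + 1) * x ^ k ≤ (x * A) * x ^ k := by
    calc f * r ^ (k + 1) * x ^ k = f * x ^ k * r ^ (k + 1) := by ring
      _ ≤ x ^ k * x * A := h4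
      _ = _ := by ring
  have h6 := le_of_mul_le_mul_right h5 (by positivity)
  have h7 : x * A ≤ x * (A + 1) := mul_le_mul_of_nonneg_left (by linarith) hx0.le
  linarith

/-- evaluation of the coefficients -/
noncomputable def chi (z : ℂ) (w : Fin d → ℂ) : MvPolynomial (Fin d) (Polynomial ℚ) →+* ℂ :=
  MvPolynomial.eval₂Hom (Polynomial.eval₂RingHom (algebraMap ℚ ℂ) z) w

/-- evaluation of the coefficients, power series -/
noncomputable def phi (h : Fin d → PowerSeries ℚ) : MvPolynomial (Fin d) (Polynomial ℚ) →+* PowerSeries ℚ :=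
  (MvPolynomial.aeval h : MvPolynomial (Fin d) (Polynomial ℚ) →ₐ[Polynomial ℚ] PowerSeries ℚ).toRingHom

lemma phi_val {h : Fin d → PowerSeries ℚ} {r x : ℝ} (hr : 0 ≤ r) (hh : ∀ i, Y37.GF.SR r (h i)) (hx : |x| ≤ r)
    (P : MvPolynomial (Fin d) (Polynomial ℚ)) :
    Y37.GF.SR r (phi h P) ∧ ((Y37.GF.E (phi h P) x : ℝ) : ℂ) = chi (x : ℂ) (fun i => ((Y37.GF.E (h i) x : ℝ) : ℂ)) P := by
  induction P using MvPolynomial.induction_on with
  | C p =>
    have h1 : phi h (MvPolynomial.C p) = (p : PowerSeries ℚ) := by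
      unfold phi
      show MvPolynomial.aeval h (MvPolynomial.C p) = _
      rw [← MvPolynomial.algebraMap_eq, AlgHom.commutes, PowerSeries.algebraMap_apply']
      simp
    rw [h1]
    refine ⟨Y37.GF.SR.poly p r, ?_⟩
    rw [Y37.GF.E_poly]
    unfold chi
    rw [MvPolynomial.coe_eval₂Hom, MvPolynomial.eval₂_C, Polynomial.coe_eval₂RingHom]
    rw [Polynomial.aeval_def]
    have h2 : ((Polynomial.eval₂ (algebraMap ℚ ℝ) x p : ℝ) : ℂ) = Complex.ofRealHom (Polynomial.eval₂ (algebraMap ℚ ℝ) x p) := rfl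
    rw [h2, Polynomial.hom_eval₂]
    congr 1
  | add p q hp hq =>
    rw [map_add, map_add]
    refine ⟨hp.1.add hr hq.1, ?_⟩
    rw [Y37.GF.E_add hp.1 hq.1 hx]
    push_cast
    rw [hp.2, hq.2]
  | mul_X p i hp =>
    have h1 : phi h (MvPolynomial.X i) = h i := by
      unfold phi
      show MvPolynomial.aeval h (MvPolynomial.X i) = _
      rw [MvPolynomial.aeval_X]
    rw [map_mul, map_mul, h1]
    refine ⟨hp.1.mul hr (hh i), ?_⟩
    rw [Y37.GF.E_mul hp.1 (hh i) hx]
    push_cast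
    rw [hp.2]
    congr 1
    unfold chi
    rw [MvPolynomial.coe_eval₂Hom, MvPolynomial.eval₂_X]

lemma phi_val2 {h : Fin d → PowerSeries ℚ} {a : PowerSeries ℚ} {r x : ℝ} (hr : 0 ≤ r) (hh : ∀ i, Y37.GF.SR r (h i))
    (ha : Y37.GF.SR r a) (hx : |x| ≤ r) (P : Polynomial (MvPolynomial (Fin d) (Polynomial ℚ))) :
    Y37.GF.SR r (P.eval₂ (phi h) a) ∧ ((Y37.GF.E (P.eval₂ (phi h) a) x : ℝ) : ℂ) =
      (P.map (chi (x : ℂ) (fun i => ((Y37.GF.E (h i) x : ℝ) : ℂ)))).eval ((Y37.GF.E a x : ℝ) : ℂ) := by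
  induction P using Polynomial.induction_on' with
  | add p q hp hq =>
    rw [Polynomial.eval₂_add, Polynomial.map_add, Polynomial.eval_add]
    refine ⟨hp.1.add hr hq.1, ?_⟩
    rw [Y37.GF.E_add hp.1 hq.1 hx]
    push_cast
    rw [hp.2, hq.2]
  | monomial k c =>
    rw [Polynomial.eval₂_monomial, Polynomial.map_monomial, Polynomial.eval_monomial]
    have h1 := phi_val hr hh hx c
    refine ⟨h1.1.mul hr (ha.pow hr k), ?_⟩
    rw [Y37.GF.E_mul h1.1 (ha.pow hr k) hx, Y37.GF.E_pow hr ha hx]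
    push_cast
    rw [h1.2]

/-! ### relations -/

/-- the entries of `Y * E N (-L)` -/
noncomputable def ent (N : Matrix (Fin n) (Fin n) ℂ) (p : Fin n × Fin n) : MvPolynomial (Vr n) ℂ :=
  ∑ k, MvPolynomial.X (some (some (p.1, k))) *
    ∑ i ∈ Finset.range n, (-MvPolynomial.X (some none)) ^ i * MvPolynomial.C ((N ^ i) k p.2 / (i.factorial : ℂ))

lemma ev_ent (N : Matrix (Fin n) (Fin n) ℂ) (p : Fin n × Fin n) (z L : ℂ) (Y : Matrix (Fin n) (Fin n) ℂ) :
    ev (ent N p) z L Y = (Y * E N (-L)) p.1 p.2 := by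
  unfold ev ent
  rw [map_sum, Matrix.mul_apply]
  refine Finset.sum_congr rfl fun k _ => ?_
  rw [map_mul, MvPolynomial.eval_X, map_sum]
  congr 1
  unfold E
  rw [Matrix.sum_apply]
  refine Finset.sum_congr rfl fun i _ => ?_
  rw [map_mul, map_pow, map_neg, MvPolynomial.eval_X, MvPolynomial.eval_C, Matrix.smul_apply, smul_eq_mul]
  simp only [pt, Option.elim_none, Option.elim_some]
  ring

/-- the relation -/
noncomputable def thS (N : Matrix (Fin n) (Fin n) ℂ) (T : Fin d → Fin n × Fin n) :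
    MvPolynomial (Fin d) (Polynomial ℚ) →+* MvPolynomial (Vr n) ℂ :=
  MvPolynomial.eval₂Hom (Polynomial.eval₂RingHom (algebraMap ℚ (MvPolynomial (Vr n) ℂ)) (MvPolynomial.X none)) fun i => ent N (T i)

lemma ev_thS (N : Matrix (Fin n) (Fin n) ℂ) (T : Fin d → Fin n × Fin n) (z L : ℂ) (Y : Matrix (Fin n) (Fin n) ℂ) :
    (MvPolynomial.eval (pt z L Y)).comp (thS N T) = chi z fun i => (Y * E N (-L)) (T i).1 (T i).2 := by
  refine MvPolynomial.ringHom_ext' ?_ fun i => ?_
  · refine Polynomial.ringHom_ext (fun a => ?_) ?_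
    · simp [thS, chi]
    · simp [thS, chi, pt]
  · have h1 := ev_ent N (T i) z L Y
    unfold ev at h1
    simp only [thS, chi, RingHom.comp_apply, MvPolynomial.coe_eval₂Hom, MvPolynomial.eval₂_X]
    exact h1

/-- the relation with the last variable -/
noncomputable def thP (N : Matrix (Fin n) (Fin n) ℂ) (T : Fin d → Fin n × Fin n) (e : Fin n × Fin n)
    (P : Polynomial (MvPolynomial (Fin d) (Polynomial ℚ))) : MvPolynomial (Vr n) ℂ :=
  P.eval₂ (thS N T) (ent N e)

lemma ev_thP (N : Matrix (Fin n) (Fin n) ℂ) (T : Fin d → Fin n × Fin n) (e : Fin n × Fin n)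
    (P : Polynomial (MvPolynomial (Fin d) (Polynomial ℚ))) (z L : ℂ) (Y : Matrix (Fin n) (Fin n) ℂ) :
    ev (thP N T e P) z L Y =
      (P.map (chi z fun i => (Y * E N (-L)) (T i).1 (T i).2)).eval ((Y * E N (-L)) e.1 e.2) := by
  unfold ev thP
  have h1 := ev_ent N e z L Y
  unfold ev at h1
  rw [Polynomial.hom_eval₂, ev_thS, Polynomial.eval_map, h1]

/-- a relation whose derivative does not vanish -/
lemma exists_rel {h : Fin d → PowerSeries ℚ} (hh : AlgebraicIndependent (Polynomial ℚ) h) {a : PowerSeries ℚ}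
    (ha : ¬ AlgebraicIndependent (Polynomial ℚ) (fun o : Option (Fin d) => o.elim a h)) :
    ∃ P : Polynomial (MvPolynomial (Fin d) (Polynomial ℚ)), P.eval₂ (phi h) a = 0 ∧ P.derivative.eval₂ (phi h) a ≠ 0 := by
  classical
  rw [hh.option_iff_transcendental a, Transcendental, not_not] at ha
  obtain ⟨p, hp0, hp1⟩ := ha
  -- pull back
  have hinj : Function.Injective (phi h) := hh
  have hP : ∃ P : Polynomial (MvPolynomial (Fin d) (Polynomial ℚ)), P ≠ 0 ∧ P.eval₂ (phi h) a = 0 := by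
    have hsurj : ∀ b : Algebra.adjoin (Polynomial ℚ) (Set.range h), ∃ s : MvPolynomial (Fin d) (Polynomial ℚ), phi h s = b := by
      rintro ⟨b, hb⟩
      rw [Algebra.adjoin_range_eq_range_aeval] at hb
      obtain ⟨s, hs⟩ := hb
      exact ⟨s, hs⟩
    choose g hg using hsurj
    have hgz : g 0 = 0 := hinj (by rw [hg, map_zero]; rfl)
    refine ⟨∑ k ∈ Finset.range (p.natDegree + 1), Polynomial.monomial k (g (p.coeff k)), ?_, ?_⟩
    · intro h0
      apply hp0
      ext1 k
      rw [Polynomial.coeff_zero]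
      by_cases hk : k < p.natDegree + 1
      · have h1 := congrArg (fun q => Polynomial.coeff q k) h0
        simp only [Polynomial.finsetSum_coeff, Polynomial.coeff_monomial, Polynomial.coeff_zero] at h1
        rw [Finset.sum_eq_single k] at h1
        · rw [if_pos rfl] at h1
          have h2 := hg (p.coeff k)
          rw [h1, map_zero] at h2
          exact Subtype.ext h2.symm
        · intro j _ hj
          rw [if_neg hj]
        · intro h2
          exact absurd (Finset.mem_range.2 hk) h2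
      · exact Polynomial.coeff_eq_zero_of_natDegree_lt (by omega)
    · rw [Polynomial.eval₂_finsetSum]
      have h1 : Polynomial.aeval a p = ∑ k ∈ Finset.range (p.natDegree + 1), (p.coeff k : PowerSeries ℚ) * a ^ k := by
        rw [Polynomial.aeval_eq_sum_range]
        rfl
      rw [← hp1, h1]
      refine Finset.sum_congr rfl fun k _ => ?_
      rw [Polynomial.eval₂_monomial, hg]
  -- minimal degree
  have hex : ∃ m : ℕ, ∃ P : Polynomial (MvPolynomial (Fin d) (Polynomial ℚ)), P ≠ 0 ∧ P.eval₂ (phi h) a = 0 ∧ P.natDegree = m := by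
    obtain ⟨P, hP0, hP1⟩ := hP
    exact ⟨_, P, hP0, hP1, rfl⟩
  obtain ⟨P, hP0, hP1, hPd⟩ := Nat.find_spec hex
  refine ⟨P, hP1, fun hcon => ?_⟩
  have hdeg : 0 < P.natDegree := by
    rcases Nat.eq_zero_or_pos P.natDegree with h0 | h0
    · exfalso
      rw [Polynomial.eq_C_of_natDegree_eq_zero h0, Polynomial.eval₂_C] at hP1
      have h1 : P.coeff 0 = 0 := hinj (by rw [hP1, map_zero])
      apply hP0
      rw [Polynomial.eq_C_of_natDegree_eq_zero h0, h1, map_zero]
    · exact h0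
  have hder : P.derivative ≠ 0 := by
    intro h0
    have h1 := Polynomial.derivative_eq_zero.1 h0
    omega
  have hlt := Polynomial.natDegree_derivative_lt hdeg.ne'
  exact Nat.find_min hex (by rw [← hPd]; exact hlt) ⟨_, hder, hcon, rfl⟩

/-- **The rank.** -/
theorem rank_ge {N : Matrix (Fin n) (Fin n) ℂ} (hN : N ^ n = 0) {Hs : Fin n → Fin n → PowerSeries ℚ}
    (hSR : ∀ i j, ∀ r : ℝ, 0 < r → r < 1 → Y37.GF.SR r (Hs i j)) {Y : ℂ → Matrix (Fin n) (Fin n) ℂ}
    (hY : ∀ x : ℝ, 0 < x → x < 1 → Y (x : ℂ) * E N (-Complex.log x) = Matrix.of fun i j => ((Y37.GF.E (Hs i j) x : ℝ) : ℂ))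
    (hinv : ∀ x : ℝ, 0 < x → x < 1 → ∃ W : Matrix (Fin n) (Fin n) ℂ, W * Y x = 1)
    (T : Fin d → Fin n × Fin n) (hT : AlgebraicIndependent (Polynomial ℚ) fun i => Hs (T i).1 (T i).2)
    (hmax : ∀ e : Fin n × Fin n, ¬ AlgebraicIndependent (Polynomial ℚ)
      (fun o : Option (Fin d) => o.elim (Hs e.1 e.2) fun i => Hs (T i).1 (T i).2)) :
    Module.finrank ℂ (Lie Y) ≤ d := by
  classical
  choose P hP1 hP2 using fun e => exists_rel hT (hmax e)
  set h : Fin d → PowerSeries ℚ := fun i => Hs (T i).1 (T i).2 with hh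
  -- the point
  set F : PowerSeries ℚ := ∏ e : Fin n × Fin n, (P e).derivative.eval₂ (phi h) (Hs e.1 e.2) with hF
  have hF0 : F ≠ 0 := Finset.prod_ne_zero_iff.2 fun e _ => hP2 e
  have hr : (0 : ℝ) < 1 / 2 := by norm_num
  have hr1 : (1 / 2 : ℝ) < 1 := by norm_num
  have hSRh : ∀ (r : ℝ), 0 < r → r < 1 → ∀ i, Y37.GF.SR r (h i) := fun r h1 h2 i => hSR _ _ r h1 h2
  have hSRd : ∀ e : Fin n × Fin n, Y37.GF.SR (1 / 2) ((P e).derivative.eval₂ (phi h) (Hs e.1 e.2)) := fun e =>
    (phi_val2 (x := 0) hr.le (hSRh _ hr hr1) (hSR _ _ _ hr hr1) (by rw [abs_zero]; exact hr.le) _).1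
  obtain ⟨x, hx0, hx1, hx2⟩ := small_ne hF0 hr (Y37.GF.SR.prod _ hr.le fun e _ => hSRd e)
  have hx1' : x < 1 := by linarith
  have hxa : |x| ≤ 1 / 2 := by rwa [abs_of_pos hx0]
  rw [hF, Y37.GF.E_prod _ hr.le (fun e _ => hSRd e) hxa] at hx2
  have hx3 : ∀ e : Fin n × Fin n, Y37.GF.E ((P e).derivative.eval₂ (phi h) (Hs e.1 e.2)) x ≠ 0 := fun e h0 =>
    hx2 (Finset.prod_eq_zero (Finset.mem_univ e) h0)
  -- the relations
  have hrel : ∀ e, thP N T e (P e) ∈ Rel Y := by
    intro e y hy hy1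
    rw [ev_thP]
    have h1 := (phi_val2 (x := y) hy.le (hSRh _ hy hy1) (hSR e.1 e.2 _ hy hy1) (by rw [abs_of_pos hy]) (P e)).2
    rw [hP1] at h1
    have h2 : Y37.GF.E (0 : PowerSeries ℚ) y = 0 := by
      unfold Y37.GF.E
      simp
    rw [h2, Complex.ofReal_zero] at h1
    rw [hY y hy hy1]
    exact h1.symm
  -- the map
  set L : Lie Y →ₗ[ℂ] (Fin d → ℂ) :=
    { toFun := fun X i => (Y (x : ℂ) * (X : Matrix (Fin n) (Fin n) ℂ) * E N (-Complex.log x)) (T i).1 (T i).2
      map_add' := fun X Z => by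
        funext i
        simp only [Submodule.coe_add, Matrix.mul_add, Matrix.add_mul, Matrix.add_apply, Pi.add_apply]
      map_smul' := fun c X => by
        funext i
        simp only [Submodule.coe_smul, Matrix.mul_smul, Matrix.smul_mul, Matrix.smul_apply, Pi.smul_apply, RingHom.id_apply] } with hL
  have hLinj : Function.Injective L := by
    rw [injective_iff_map_eq_zero]
    intro X hX
    have hz : ∀ e : Fin n × Fin n, (Y (x : ℂ) * (X : Matrix (Fin n) (Fin n) ℂ) * E N (-Complex.log x)) e.1 e.2 = 0 := by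
      intro e
      set b := (Y (x : ℂ) * (X : Matrix (Fin n) (Fin n) ℂ) * E N (-Complex.log x)) e.1 e.2 with hb
      -- the curve
      have hc : HD (fun s : ℂ => Y (x : ℂ) * (1 + s • (X : Matrix (Fin n) (Fin n) ℂ))) (Y (x : ℂ) * (X : Matrix (Fin n) (Fin n) ℂ)) 0 := by
        intro i j
        have e1 : ∀ s : ℂ, (Y (x : ℂ) * (1 + s • (X : Matrix (Fin n) (Fin n) ℂ))) i j =
            (Y (x : ℂ)) i j + s * (Y (x : ℂ) * (X : Matrix (Fin n) (Fin n) ℂ)) i j := by
          intro s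
          rw [mul_add, mul_one, mul_smul_comm, Matrix.add_apply, Matrix.smul_apply, smul_eq_mul]
        simp only [e1]
        have := ((hasDerivAt_id (0 : ℂ)).mul_const ((Y (x : ℂ) * (X : Matrix (Fin n) (Fin n) ℂ)) i j)).const_add ((Y (x : ℂ)) i j)
        simpa using this
      have h1 := ev_curve hc (thP N T e (P e)) (x : ℂ) (Complex.log x)
      simp only [zero_smul, add_zero, mul_one] at h1
      rw [mem_Lie.1 X.2 _ (hrel e) x hx0 hx1'] at h1
      -- the same function
      have hcoord : ∀ (s : ℂ) (p : Fin n × Fin n), (Y (x : ℂ) * (1 + s • (X : Matrix (Fin n) (Fin n) ℂ)) *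
          E N (-Complex.log x)) p.1 p.2 = ((Y37.GF.E (Hs p.1 p.2) x : ℝ) : ℂ) +
          s * (Y (x : ℂ) * (X : Matrix (Fin n) (Fin n) ℂ) * E N (-Complex.log x)) p.1 p.2 := by
        intro s p
        rw [mul_add, mul_one, mul_smul_comm, add_mul, smul_mul_assoc, hY x hx0 hx1', Matrix.add_apply, Matrix.smul_apply,
          smul_eq_mul, Matrix.of_apply]
      have hT0 : ∀ i, (Y (x : ℂ) * (X : Matrix (Fin n) (Fin n) ℂ) * E N (-Complex.log x)) (T i).1 (T i).2 = 0 :=
        fun i => congrFun hX i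
      set p := (P e).map (chi (x : ℂ) (fun i => ((Y37.GF.E (h i) x : ℝ) : ℂ))) with hp
      have h2 : (fun s : ℂ => ev (thP N T e (P e)) (x : ℂ) (Complex.log x) (Y (x : ℂ) * (1 + s • (X : Matrix (Fin n) (Fin n) ℂ)))) =
          fun s : ℂ => p.eval (((Y37.GF.E (Hs e.1 e.2) x : ℝ) : ℂ) + s * b) := by
        funext s
        rw [ev_thP, hcoord, ← hb, hp]
        congr 3
        funext i
        rw [hcoord, hT0, mul_zero, add_zero]
      rw [h2] at h1
      have h3 : HasDerivAt (fun s : ℂ => p.eval (((Y37.GF.E (Hs e.1 e.2) x : ℝ) : ℂ) + s * b))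
          (p.derivative.eval (((Y37.GF.E (Hs e.1 e.2) x : ℝ) : ℂ)) * b) 0 := by
        have h4 : HasDerivAt (fun s : ℂ => ((Y37.GF.E (Hs e.1 e.2) x : ℝ) : ℂ) + s * b) b 0 := by
          have := ((hasDerivAt_id (0 : ℂ)).mul_const b).const_add (((Y37.GF.E (Hs e.1 e.2) x : ℝ) : ℂ))
          simpa using this
        have h5 := (p.hasDerivAt (((Y37.GF.E (Hs e.1 e.2) x : ℝ) : ℂ) + 0 * b)).comp (0 : ℂ) h4
        rw [zero_mul, add_zero] at h5
        exact h5
      have h4 := h3.unique h1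
      refine (mul_eq_zero.1 h4).resolve_left ?_
      rw [hp, Polynomial.derivative_map,
        ← (phi_val2 (x := x) hr.le (hSRh _ hr hr1) (hSR e.1 e.2 _ hr hr1) hxa (P e).derivative).2]
      exact_mod_cast hx3 e
    -- conclusion
    have h1 : Y (x : ℂ) * (X : Matrix (Fin n) (Fin n) ℂ) * E N (-Complex.log x) = 0 := by
      ext i j
      exact hz (i, j)
    obtain ⟨W, hW⟩ := hinv x hx0 hx1'
    have h2 : (X : Matrix (Fin n) (Fin n) ℂ) = 0 := by
      have hE : E N (-Complex.log x) * E N (Complex.log x) = 1 := by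
        have := E_mul_neg hN (-Complex.log x)
        rwa [neg_neg] at this
      calc (X : Matrix (Fin n) (Fin n) ℂ) = W * (Y (x : ℂ) * (X : Matrix (Fin n) (Fin n) ℂ) * E N (-Complex.log x)) *
            E N (Complex.log x) := by
              simp only [Matrix.mul_assoc]
              rw [hE, Matrix.mul_one, ← Matrix.mul_assoc, hW, Matrix.one_mul]
        _ = 0 := by rw [h1, Matrix.mul_zero, Matrix.zero_mul]
    exact Subtype.ext h2
  have := LinearMap.finrank_le_finrank_of_injective hLinj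
  simpa using this

end Pool.Agent.E8helper53.HGM
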