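import Pool.Agent.E8helper53.HGM.Conn
import Pool.Agent.Y119.HY.Ari

/-!
# The hypergeometric system with a point of maximal unipotent monodromy, arbitrary exponents
-/

set_option autoImplicit false

open Filter Topology Matrix

namespace Pool.Agent.E8helper53.HGM

open Pool.Agent.Y119.HY

/-- monic polynomials without integral roots -/
structure QG (n : ℕ) (Q : Polynomial ℚ) : Prop where
  two : 2 ≤ n
  monic : Q.Monic
  deg : Q.natDegree = n
  ne : ∀ l : ℤ, Q.eval (l : ℚ) ≠ 0

variable {n : ℕ} {Q : Polynomial ℚ}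

lemma Bm_mul' (k : ℕ) (hQ : QG n Q) (i j : Fin n) : (Bm n Q * Hq n Q k) i j = if (i : ℕ) + 1 = n then
    PowerSeries.coeff (j : ℕ) (Polynomial.aeval (kx k) Q * aq n Q k) -
      PowerSeries.coeff (j : ℕ) (kx k ^ n * aq n Q k) else 0 := by
  rw [Matrix.mul_apply]
  unfold Bm
  simp only [Matrix.of_apply, ite_mul, zero_mul]
  split_ifs with h
  · have h1 : Polynomial.aeval (kx k) Q = ∑ l ∈ Finset.range n, PowerSeries.C (Q.coeff l) * kx k ^ l + kx k ^ n := by
      rw [Polynomial.aeval_eq_sum_range, hQ.deg, Finset.sum_range_succ]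
      have h2 : Q.coeff n = 1 := by
        rw [← hQ.deg]
        exact hQ.monic.coeff_natDegree
      rw [h2, one_smul]
      congr 1
      refine Finset.sum_congr rfl fun l _ => ?_
      rw [PowerSeries.smul_eq_C_mul]
    rw [h1, add_mul, map_add, add_sub_cancel_right, Finset.sum_mul, map_sum, Finset.sum_range]
    refine Finset.sum_congr rfl fun l _ => ?_
    rw [mul_assoc, PowerSeries.coeff_C_mul]
    rfl
  · exact Finset.sum_const_zero

theorem step_q' (hQ : QG n Q) (k : ℕ) (i j : Fin n) :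
    ((k : ℚ) + 1) * Hq n Q (k + 1) i j + ((Hq n Q (k + 1) * Am n) i j - (Am n * Hq n Q (k + 1)) i j) =
    (k : ℚ) * Hq n Q k i j + ((Hq n Q k * Am n) i j - (Am n * Hq n Q k) i j) + (Bm n Q * Hq n Q k) i j := by
  have e1 := lin_eq (n := n) (Q := Q) (k + 1) i j
  have e2 := lin_eq (n := n) (Q := Q) k i j
  push_cast at e1
  rw [add_sub_assoc', add_sub_assoc', e1, e2, Am_mul, Am_mul, Bm_mul' k hQ]
  by_cases h : (i : ℕ) + 1 < n
  · rw [dif_pos h, dif_pos h, if_neg (by omega)]
    unfold Hq hq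
    simp only [Matrix.of_apply, sub_self, add_zero]
  · have h' : (i : ℕ) + 1 = n := by have := i.2; omega
    rw [dif_neg h, dif_neg h, if_pos h', h', sub_zero, sub_zero, add_sub_cancel, aq_succ]

lemma sol_c' (hQ : QG n Q) : Sol (cm (Am n)) (cm (Bm n Q)) (Hc n Q) := by
  refine ⟨?_, fun k => ?_⟩
  · unfold Hc
    rw [Hq_zero, cm_one]
  · ext i j
    have h := step_q' hQ k i j
    unfold Hc
    rw [← cm_mul, ← cm_mul, ← cm_mul, ← cm_mul, ← cm_mul]
    simp only [Matrix.add_apply, Matrix.smul_apply, Matrix.sub_apply, smul_eq_mul, cm_apply]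
    exact_mod_cast h

/-! ### the residue at one -/

/-- the coefficients -/
noncomputable def qc (n : ℕ) (Q : Polynomial ℚ) : Fin n → ℂ := fun j => ((Q.coeff j : ℚ) : ℂ)

lemma Bm_vec (n : ℕ) (Q : Polynomial ℚ) : cm (Bm n Q) = vecMulVec (uc n) (qc n Q) := by
  ext i j
  rw [cm_apply, vecMulVec_apply]
  unfold Bm uc qc
  simp only [Matrix.of_apply]
  split_ifs <;> simp

lemma qc_uc (hn : 1 ≤ n) (Q : Polynomial ℚ) : qc n Q ⬝ᵥ uc n = ((Q.coeff (n - 1) : ℚ) : ℂ) := by
  unfold dotProduct qc uc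
  rw [Finset.sum_eq_single ⟨n - 1, by omega⟩]
  · rw [if_pos (by simp only; omega), mul_one]
  · intro b _ hb
    rw [if_neg, mul_zero]
    intro h
    exact hb (Fin.ext (by simp only; omega))
  · intro h
    exact absurd (Finset.mem_univ _) h

lemma Bc_sq (hn : 1 ≤ n) (Q : Polynomial ℚ) : cm (Bm n Q) * cm (Bm n Q) = ((Q.coeff (n - 1) : ℚ) : ℂ) • cm (Bm n Q) := by
  rw [Bm_vec, vecMulVec_mul_vecMulVec, qc_uc hn]
  ext i j
  simp only [vecMulVec_apply, Pi.smul_apply, Matrix.smul_apply, smul_eq_mul]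
  ring

/-! ### the singularity at one -/

lemma a0_ne' (hQ : QG n Q) (k : ℕ) : a0 n Q k ≠ 0 := by
  induction k with
  | zero =>
    unfold a0 aq
    simp
  | succ k ih =>
    rw [a0_succ]
    refine mul_ne_zero ih (div_ne_zero (by exact_mod_cast hQ.ne (k : ℤ)) (pow_ne_zero _ ?_))
    exact_mod_cast Nat.succ_ne_zero k

lemma ratio' (hQ : QG n Q) : Tendsto (fun k : ℕ => (((Q.eval (k : ℚ) / ((k : ℚ) + 1) ^ n : ℚ)) : ℝ)) atTop (𝓝 1) := by
  set P : Polynomial ℝ := Q.map (algebraMap ℚ ℝ) with hP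
  set R : Polynomial ℝ := (Polynomial.X + Polynomial.C 1) ^ n with hR
  have hRm : R.Monic := (Polynomial.monic_X_add_C (1 : ℝ)).pow n
  have hPm : P.Monic := hQ.monic.map _
  have hdeg : P.degree = R.degree := by
    rw [Polynomial.degree_eq_natDegree hPm.ne_zero, Polynomial.degree_eq_natDegree hRm.ne_zero, hP,
      Polynomial.natDegree_map, hQ.deg, hR, Polynomial.natDegree_pow, Polynomial.natDegree_X_add_C, mul_one]
  have h1 := Polynomial.div_tendsto_atTop_leadingCoeff_div_of_degree_eq P R hdeg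
  rw [hPm.leadingCoeff, hRm.leadingCoeff, div_one] at h1
  have h2 := h1.comp (tendsto_natCast_atTop_atTop (R := ℝ))
  refine h2.congr fun k => ?_
  simp only [Function.comp]
  rw [hR, Polynomial.eval_pow, Polynomial.eval_add, Polynomial.eval_X, Polynomial.eval_C, hP]
  push_cast
  congr 1
  rw [Polynomial.eval_map, ← Polynomial.aeval_def]
  have := Polynomial.aeval_algebraMap_apply ℝ (k : ℚ) Q
  simp only [map_natCast] at this
  rw [this, Polynomial.aeval_def]
  rfl

lemma pg_a0 (hQ : QG n Q) : PG fun k => (((a0 n Q k : ℚ) : ℝ) : ℂ) := by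
  have hn := hQ.two
  have h := (sol_c' hQ).growth Ac_nil ⟨0, by omega⟩ ⟨0, by omega⟩
  refine (congrArg PG ?_).mp h
  funext k
  unfold Hc
  rw [cm_apply]
  unfold Hq hq a0
  rw [Matrix.of_apply]
  simp

/-- the first solution is singular at one -/
lemma sing' (hQ : QG n Q) (g : ℂ → ℂ) (hg : AnalyticOnNhd ℂ g (Metric.ball 1 1))
    (hext : ∀ z ∈ Lens, ps (fun k => (((a0 n Q k : ℚ) : ℝ) : ℂ)) z = g z) : False := by
  have hpg := pg_a0 hQ
  obtain ⟨K₀, hK₀⟩ := Filter.eventually_atTop.1 ((ratio' hQ).eventually (lt_mem_nhds (show (9 / 10 : ℝ) < 1 by norm_num)))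
  have hstep : ∀ k, ((a0 n Q (k + 1) : ℚ) : ℝ) = ((a0 n Q k : ℚ) : ℝ) * ((Q.eval (k : ℚ) / ((k : ℚ) + 1) ^ n : ℚ) : ℝ) := by
    intro k
    rw [a0_succ]
    push_cast
    rfl
  rcases lt_or_gt_of_ne (a0_ne' hQ K₀) with h0 | h0
  · -- negative
    have hpos : ∀ k ≥ K₀, ((a0 n Q k : ℚ) : ℝ) < 0 := by
      intro k hk
      induction k, hk using Nat.le_induction with
      | base => exact_mod_cast h0
      | succ k hk ih =>
        rw [hstep]
        exact mul_neg_of_neg_of_pos ih (by linarith [hK₀ k hk])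
    refine no_ext (a := fun k => -((a0 n Q k : ℚ) : ℝ)) (K₀ := K₀) ?_ (fun k hk => by linarith [hpos k hk]) (fun k hk => ?_)
      (g := fun z => -g z) hg.neg fun z hz => ?_
    · have := hpg.smul (-1)
      refine (congrArg PG ?_).mp this
      funext k
      push_cast
      ring
    · rw [hstep]
      nlinarith [hpos k hk, hK₀ k hk]
    · rw [← hext z hz]
      have := ps_smul (c := fun k => (((a0 n Q k : ℚ) : ℝ) : ℂ)) (-1) z
      rw [neg_one_mul] at this
      rw [← this]
      congr 1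
      funext k
      push_cast
      ring
  · have hpos : ∀ k ≥ K₀, 0 < ((a0 n Q k : ℚ) : ℝ) := by
      intro k hk
      induction k, hk using Nat.le_induction with
      | base => exact_mod_cast h0
      | succ k hk ih =>
        rw [hstep]
        exact mul_pos ih (by linarith [hK₀ k hk])
    refine no_ext hpg hpos (fun k hk => ?_) hg fun z hz => ?_
    · rw [hstep]
      nlinarith [hpos k hk, hK₀ k hk]
    · rw [← hext z hz]

lemma first_col (hQ : QG n Q) (z : ℂ) : (Hf (Hc n Q) z *ᵥ ec n) ⟨0, by have := hQ.two; omega⟩ =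
    ps (fun k => (((a0 n Q k : ℚ) : ℝ) : ℂ)) z := by
  have hn := hQ.two
  rw [mv_apply]
  unfold ec
  rw [Finset.sum_eq_single ⟨0, by omega⟩]
  · rw [if_pos rfl, mul_one]
    unfold Hf
    rw [Matrix.of_apply]
    congr 1
    funext k
    unfold Hc
    rw [cm_apply]
    unfold Hq hq a0
    rw [Matrix.of_apply]
    simp
  · intro b _ hb
    rw [if_neg, mul_zero]
    intro h'
    exact hb (Fin.ext h')
  · intro h'
    exact absurd (Finset.mem_univ _) h'

/-! ### the dual equation -/

/-- the dual polynomial -/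
noncomputable def Qd (n : ℕ) (Q : Polynomial ℚ) : Polynomial ℚ := Polynomial.C ((-1) ^ n) * Q.comp (-1 - Polynomial.X)

lemma Qd_eval (n : ℕ) (Q : Polynomial ℚ) (x : ℚ) : (Qd n Q).eval x = (-1) ^ n * Q.eval (-1 - x) := by
  unfold Qd
  rw [Polynomial.eval_mul, Polynomial.eval_C, Polynomial.eval_comp, Polynomial.eval_sub, Polynomial.eval_neg,
    Polynomial.eval_one, Polynomial.eval_X]

lemma QG_Qd (hQ : QG n Q) : QG n (Qd n Q) := by
  have hd : (-1 - Polynomial.X : Polynomial ℚ).natDegree = 1 := by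
    have : (-1 - Polynomial.X : Polynomial ℚ) = -(Polynomial.X + Polynomial.C 1) := by
      rw [map_one]
      ring
    rw [this, Polynomial.natDegree_neg, Polynomial.natDegree_X_add_C]
  have hl : (-1 - Polynomial.X : Polynomial ℚ).leadingCoeff = -1 := by
    have : (-1 - Polynomial.X : Polynomial ℚ) = -(Polynomial.X + Polynomial.C 1) := by
      rw [map_one]
      ring
    rw [this, Polynomial.leadingCoeff_neg, Polynomial.leadingCoeff_X_add_C]
  have h1 : (Qd n Q).leadingCoeff = 1 := by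
    unfold Qd
    rw [Polynomial.leadingCoeff_mul, Polynomial.leadingCoeff_C, Polynomial.leadingCoeff_comp (by rw [hd]; exact one_ne_zero),
      hQ.monic.leadingCoeff, one_mul, hl, hQ.deg, ← mul_pow]
    norm_num
  refine ⟨hQ.two, h1, ?_, fun l => ?_⟩
  · unfold Qd
    rw [Polynomial.natDegree_C_mul (pow_ne_zero _ (by norm_num)), Polynomial.natDegree_comp, hd, mul_one, hQ.deg]
  · rw [Qd_eval]
    refine mul_ne_zero (pow_ne_zero _ (by norm_num)) ?_
    have := hQ.ne (-1 - l)
    push_cast at this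
    exact this

/-- the dual solution is singular at one -/
theorem dual_sing (hQ : QG n Q) {G : ℕ → Matrix (Fin n) (Fin n) ℂ}
    (hG : Sol (-(cm (Am n)).transpose) (-(cm (Bm n Q)).transpose) G) (F : ℂ → ℂ) (hF : AnalyticOnNhd ℂ F (Metric.ball 1 1))
    (hext : ∀ z ∈ Lens, (Hf G z *ᵥ uc n) ⟨0, by have := hQ.two; omega⟩ = F z) : False := by
  have hn := hQ.two
  set r : ℕ → Fin n → ℂ := fun k => G k *ᵥ uc n with hr
  set S : ℕ → ℂ := fun k => ∑ l ∈ Finset.range k, r l ⟨n - 1, by omega⟩ with hS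
  have hAu : (cm (Am n)).transpose *ᵥ uc n = 0 := by
    funext i
    rw [mv_apply]
    unfold uc
    refine Finset.sum_eq_zero fun j _ => ?_
    split_ifs with h
    · rw [transpose_apply, cm_apply]
      unfold Am
      rw [Matrix.of_apply, if_neg (by have := i.2; omega)]
      simp
    · simp
  have hBt : ∀ v : Fin n → ℂ, (cm (Bm n Q)).transpose *ᵥ v = (v ⟨n - 1, by omega⟩) • qc n Q := by
    intro v
    rw [Bm_vec, transpose_vecMulVec, vecMulVec_mulVec]
    have h1 : uc n ⬝ᵥ v = v ⟨n - 1, by omega⟩ := by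
      unfold dotProduct uc
      rw [Finset.sum_eq_single ⟨n - 1, by omega⟩]
      · rw [if_pos (by simp only; omega), one_mul]
      · intro b _ hb
        rw [if_neg, zero_mul]
        intro h
        exact hb (Fin.ext (by simp only; omega))
      · intro h
        exact absurd (Finset.mem_univ _) h
    rw [h1]
    funext j
    simp [mul_comm]
  have hA : ∀ (v : Fin n → ℂ) (j : Fin n), ((cm (Am n)).transpose *ᵥ v) j = if h : (j : ℕ) = 0 then 0 else v ⟨j - 1, by omega⟩ := by
    intro v j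
    rw [mv_apply]
    split_ifs with h
    · refine Finset.sum_eq_zero fun i _ => ?_
      rw [transpose_apply, cm_apply]
      unfold Am
      rw [Matrix.of_apply, if_neg (by omega)]
      simp
    · rw [Finset.sum_eq_single ⟨(j : ℕ) - 1, by omega⟩]
      · rw [transpose_apply, cm_apply]
        unfold Am
        rw [Matrix.of_apply, if_pos (by simp only; omega)]
        simp
      · intro i _ hi
        rw [transpose_apply, cm_apply]
        unfold Am
        rw [Matrix.of_apply, if_neg]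
        · simp
        · intro h'
          exact hi (Fin.ext (by simp only; omega))
      · intro h'
        exact absurd (Finset.mem_univ _) h'
  have hstep : ∀ k : ℕ, ((k : ℂ) + 1) • r (k + 1) + (cm (Am n)).transpose *ᵥ r (k + 1) =
      (k : ℂ) • r k + (cm (Am n)).transpose *ᵥ r k - (cm (Bm n Q)).transpose *ᵥ r k := by
    intro k
    have h1 := congrArg (fun X : Matrix (Fin n) (Fin n) ℂ => X *ᵥ uc n) (hG.step k)
    simp only [add_mulVec, sub_mulVec, smul_mulVec, ← mulVec_mulVec, neg_mulVec, hAu, mulVec_neg, neg_zero,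
      mulVec_zero, zero_sub, neg_neg] at h1
    simp only [hr]
    rw [h1]
    abel
  have hr0 : r 0 = uc n := by
    simp only [hr]
    rw [hG.zero, one_mulVec]
  have hkey : ∀ k : ℕ, (k : ℂ) • r k + (cm (Am n)).transpose *ᵥ r k = -(S k • qc n Q) := by
    intro k
    induction k with
    | zero =>
      rw [hr0, hAu]
      simp [hS]
    | succ k ih =>
      have h1 := hstep k
      rw [ih, hBt] at h1
      push_cast
      rw [h1]
      simp only [hS]
      rw [Finset.sum_range_succ, add_smul]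
      abel
  have hent : ∀ (k : ℕ) (j : Fin n), r k j * (-(k : ℂ)) ^ ((j : ℕ) + 1) =
      S k * ∑ i ∈ Finset.range ((j : ℕ) + 1), ((Q.coeff i : ℚ) : ℂ) * (-(k : ℂ)) ^ i := by
    intro k j
    obtain ⟨j, hj⟩ := j
    induction j with
    | zero =>
      have h1 := congrFun (hkey k) ⟨0, hj⟩
      rw [Pi.add_apply, hA, dif_pos rfl, Pi.neg_apply, Pi.smul_apply, Pi.smul_apply, smul_eq_mul, smul_eq_mul] at h1
      unfold qc at h1
      simp only [zero_add, pow_one, Finset.sum_range_one, pow_zero, mul_one]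
      linear_combination -h1
    | succ j ih =>
      have h2 := ih (by omega)
      have h1 := congrFun (hkey k) ⟨j + 1, hj⟩
      rw [Pi.add_apply, hA, dif_neg (by simp), Pi.neg_apply, Pi.smul_apply, Pi.smul_apply, smul_eq_mul, smul_eq_mul] at h1
      unfold qc at h1
      simp only [Nat.add_sub_cancel] at h1 h2 ⊢
      rw [Finset.sum_range_succ, mul_add, ← h2, pow_succ (-(k : ℂ)) (j + 1)]
      linear_combination (-(-(k : ℂ)) ^ (j + 1)) * h1
  have hSrec : ∀ k : ℕ, 0 < k → S (k + 1) * (-(k : ℂ)) ^ n = S k * ((Q.eval (-(k : ℚ)) : ℚ) : ℂ) := by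
    intro k _
    have h1 := hent k ⟨n - 1, by omega⟩
    simp only at h1
    rw [Nat.sub_add_cancel (by omega : 1 ≤ n)] at h1
    have h2 : S (k + 1) = S k + r k ⟨n - 1, by omega⟩ := by
      simp only [hS]
      rw [Finset.sum_range_succ]
    have h3 : Q.eval (-(k : ℚ)) = ∑ i ∈ Finset.range n, Q.coeff i * (-(k : ℚ)) ^ i + (-(k : ℚ)) ^ n := by
      rw [Polynomial.eval_eq_sum_range, hQ.deg, Finset.sum_range_succ]
      have h2 : Q.coeff n = 1 := by
        rw [← hQ.deg]
        exact hQ.monic.coeff_natDegree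
      rw [h2, one_mul]
    rw [h2, h3, add_mul, h1]
    push_cast
    ring
  have hSa : ∀ k : ℕ, S (k + 1) = (((a0 n (Qd n Q) k : ℚ) : ℝ) : ℂ) := by
    intro k
    induction k with
    | zero =>
      have h1 : a0 n (Qd n Q) 0 = 1 := by
        unfold a0 aq
        simp
      rw [h1]
      simp only [hS]
      rw [Finset.sum_range_one, hr0]
      unfold uc
      rw [if_pos (by simp only; omega)]
      simp
    | succ k ih =>
      have h1 := hSrec (k + 1) (Nat.succ_pos k)
      rw [ih] at h1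
      have h2 : (-((k + 1 : ℕ) : ℂ)) ^ n ≠ 0 := by
        refine pow_ne_zero _ (neg_ne_zero.2 ?_)
        exact_mod_cast Nat.succ_ne_zero k
      have h3 : S (k + 1 + 1) = (((a0 n (Qd n Q) k : ℚ) : ℝ) : ℂ) * ((Q.eval (-((k + 1 : ℕ) : ℚ)) : ℚ) : ℂ) / (-((k + 1 : ℕ) : ℂ)) ^ n := by
        rw [← h1, mul_div_assoc, div_self h2, mul_one]
      rw [h3, a0_succ, Qd_eval]
      have h4 : (-1 - (k : ℚ)) = -((k + 1 : ℕ) : ℚ) := by push_cast; ring
      rw [h4]
      have h5 : ((k : ℚ) + 1) ≠ 0 := by positivity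
      have h6 : (-1 : ℂ) ^ n * (-1) ^ n = 1 := by rw [← mul_pow]; norm_num
      have h7 : (-((k + 1 : ℕ) : ℂ)) ^ n = (-1) ^ n * ((k : ℂ) + 1) ^ n := by
        rw [← mul_pow]
        push_cast
        ring
      rw [h7]
      have h8 : ((k : ℂ) + 1) ≠ 0 := by exact_mod_cast Nat.succ_ne_zero k
      push_cast
      field_simp
      linear_combination (-(((a0 n (Qd n Q) k : ℚ) : ℂ) * ((Polynomial.eval (-((k : ℚ) + 1)) Q : ℚ) : ℂ))) * h6
  -- the first component
  have hq0 : (Q.coeff 0 : ℚ) ≠ 0 := by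
    have := hQ.ne 0
    rwa [Int.cast_zero, ← Polynomial.coeff_zero_eq_eval_zero] at this
  have hq0' : ((Q.coeff 0 : ℚ) : ℂ) ≠ 0 := by exact_mod_cast hq0
  have hcomp : ∀ k : ℕ, (k : ℂ) * r k ⟨0, by omega⟩ = -(((Q.coeff 0 : ℚ) : ℂ) * S k) := by
    intro k
    have h1 := hent k ⟨0, by omega⟩
    simp only [zero_add, pow_one, Finset.sum_range_one, pow_zero, mul_one] at h1
    linear_combination -h1
  have hgr := hG.growth (nil_dual Ac_nil)
  have hpg : PG fun k => r k ⟨0, by omega⟩ := by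
    have h1 : PG fun k => ∑ j, uc n j * G k ⟨0, by omega⟩ j := PG.sum _ fun j _ => (hgr _ j).smul _
    refine (congrArg PG ?_).mp h1
    funext k
    simp only [hr, mv_apply]
    exact Finset.sum_congr rfl fun j _ => mul_comm _ _
  have hps : ∀ z : ℂ, ‖z‖ < 1 → (Hf G z *ᵥ uc n) ⟨0, by omega⟩ = ps (fun k => r k ⟨0, by omega⟩) z := by
    intro z hz
    have h1 : (fun k => r k ⟨0, by omega⟩) = fun k => ∑ j, uc n j * G k ⟨0, by omega⟩ j := by
      funext k
      simp only [hr, mv_apply]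
      exact Finset.sum_congr rfl fun j _ => mul_comm _ _
    rw [h1, ps_sum _ (fun j _ => (hgr _ j).smul _) hz, mv_apply]
    refine Finset.sum_congr rfl fun j _ => ?_
    rw [ps_smul, mul_comm]
    rfl
  have hdd : dd (fun k => r k ⟨0, by omega⟩) = fun k => (-((Q.coeff 0 : ℚ) : ℂ)) * (((a0 n (Qd n Q) k : ℚ) : ℝ) : ℂ) := by
    funext k
    unfold dd
    rw [hcomp (k + 1), hSa k]
    ring
  refine sing' (QG_Qd hQ) (fun z => (-((Q.coeff 0 : ℚ) : ℂ))⁻¹ * deriv F z) (fun z hz => analyticAt_const.mul (hF z hz).deriv)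
    fun z hz => ?_
  have hz1 := (mem_Lens.1 hz).1
  have hz0 : z ≠ 0 := Complex.slitPlane_ne_zero (slit_Lens hz)
  have h1 : deriv F z = deriv (ps fun k => r k ⟨0, by omega⟩) z := by
    refine Filter.EventuallyEq.deriv_eq ?_
    filter_upwards [isOpen_Lens.mem_nhds hz] with w hw
    rw [← hext w hw, hps w (mem_Lens.1 hw).1]
  rw [h1, deriv_ps hpg hz1 hz0, hdd, ps_smul, ← mul_assoc, inv_mul_cancel₀ (neg_ne_zero.2 hq0'), one_mul]

end Pool.Agent.E8helper53.HGM
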